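import Pool.Agent.Lib.MP_29d677_an.Calc

/-!
The `L^2` norm of functions and mollification.
-/

namespace Pool.Agent.Lib.MP_29d677_an

open MeasureTheory Filter Topology Complex Metric ContinuousLinearMap
open scoped ContDiff ComplexConjugate Convolution

section n2
variable {F G : Type*} [NormedAddCommGroup F] [NormedAddCommGroup G]

/-- The `L^2` norm. -/
noncomputable def n2 (f : E → F) : ℝ := (eLpNorm f 2 volume).toReal

lemma n2_nonneg (f : E → F) : 0 ≤ n2 f := ENNReal.toReal_nonneg

lemma n2_sq {f : E → F} (hf : MemLp f 2 volume) : n2 f ^ 2 = ∫ x, ‖f x‖ ^ 2 := by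
  rw [n2, hf.eLpNorm_eq_integral_rpow_norm (by simp) (by simp), ENNReal.toReal_ofReal
    (by positivity)]
  simp only [ENNReal.toReal_ofNat, Real.rpow_ofNat]
  rw [← Real.rpow_natCast, ← Real.rpow_mul (by positivity)]
  simp

lemma n2_add_le {f g : E → F} (hf : MemLp f 2 volume) (hg : MemLp g 2 volume) :
    n2 (fun x => f x + g x) ≤ n2 f + n2 g := by
  rw [n2, n2, n2, ← ENNReal.toReal_add hf.2.ne hg.2.ne]
  exact ENNReal.toReal_mono (ENNReal.add_ne_top.2 ⟨hf.2.ne, hg.2.ne⟩)
    (eLpNorm_add_le hf.1 hg.1 (by norm_num))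

lemma n2_le_mul {f : E → F} {g : E → G} {C : ℝ} (hC : 0 ≤ C) (hg : MemLp g 2 volume)
    (h : ∀ᵐ x, ‖f x‖ ≤ C * ‖g x‖) : n2 f ≤ C * n2 g := by
  have := eLpNorm_le_mul_eLpNorm_of_ae_le_mul h 2
  rw [n2, n2, ← ENNReal.toReal_ofReal hC, ← ENNReal.toReal_mul]
  exact ENNReal.toReal_mono (ENNReal.mul_ne_top (by simp) hg.2.ne) this

lemma n2_mono {f : E → F} {g : E → G} (hg : MemLp g 2 volume)
    (h : ∀ᵐ x, ‖f x‖ ≤ ‖g x‖) : n2 f ≤ n2 g := by
  simpa using n2_le_mul (C := 1) zero_le_one hg (by simpa using h)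

lemma n2_congr {f g : E → F} (h : f =ᵐ[volume] g) : n2 f = n2 g := by
  rw [n2, n2, eLpNorm_congr_ae h]

lemma memLp_of_le_mul {f : E → F} {g : E → G} {C : ℝ} (hg : MemLp g 2 volume)
    (hf : AEStronglyMeasurable f volume) (h : ∀ᵐ x, ‖f x‖ ≤ C * ‖g x‖) : MemLp f 2 volume :=
  hg.of_le_mul hf h

lemma n2_cs {f : E → F} {g : E → G} (hf : MemLp f 2 volume) (hg : MemLp g 2 volume) :
    ∫ x, ‖f x‖ * ‖g x‖ ≤ n2 f * n2 g := by
  have h := integral_mul_norm_le_Lp_mul_Lq (μ := volume) Real.HolderConjugate.two_two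
    (f := fun x => ‖f x‖) (g := fun x => ‖g x‖) (by simpa using hf.norm) (by simpa using hg.norm)
  simp only [norm_norm, Real.rpow_ofNat] at h
  rw [← n2_sq hf, ← n2_sq hg, ← Real.sqrt_eq_rpow, ← Real.sqrt_eq_rpow,
    Real.sqrt_sq (n2_nonneg _), Real.sqrt_sq (n2_nonneg _)] at h
  exact h

lemma integrable_sq {f : E → F} (hf : MemLp f 2 volume) : Integrable (fun x => ‖f x‖ ^ 2) :=
  (memLp_two_iff_integrable_sq_norm hf.1).1 hf

lemma n2_le_of_sq {f : E → F} (hf : MemLp f 2 volume) {c : ℝ} (hc : 0 ≤ c)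
    (h : ∫ x, ‖f x‖ ^ 2 ≤ c ^ 2) : n2 f ≤ c :=
  (pow_le_pow_iff_left₀ (n2_nonneg _) hc two_ne_zero).1 (by rwa [n2_sq hf])

end n2

lemma n2_inner {𝕜 : Type*} [RCLike 𝕜] {f g : E → 𝕜} (hf : MemLp f 2 volume)
    (hg : MemLp g 2 volume) : ‖∫ x, f x * g x‖ ≤ n2 f * n2 g := by
  refine (norm_integral_le_integral_norm _).trans ?_
  simpa using n2_cs hf hg

section moll
variable {F : Type*} [NormedAddCommGroup F] [NormedSpace ℝ F] [CompleteSpace F]

/-- Mollification by a normed bump function. -/
noncomputable def moll (ρ : ContDiffBump (0 : E)) (f : E → F) : E → F :=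
  ρ.normed volume ⋆[lsmul ℝ ℝ, volume] f

variable (ρ : ContDiffBump (0 : E))

omit [CompleteSpace F] in
lemma moll_eq (f : E → F) (x : E) : moll ρ f x = ∫ t, ρ.normed volume (x - t) • f t := by
  simp [moll, convolution_eq_swap]

omit [CompleteSpace F] in
lemma moll_eq' (f : E → F) (x : E) : moll ρ f x = ∫ t, ρ.normed volume t • f (x - t) := by
  simp [moll, convolution_def]

omit [CompleteSpace F] in
lemma contDiff_moll {f : E → F} (hf : LocallyIntegrable f) : ContDiff ℝ ∞ (moll ρ f) :=
  ρ.hasCompactSupport_normed.contDiff_convolution_left _ ρ.contDiff_normed hf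

omit [CompleteSpace F] in
lemma D_moll {f : E → F} (hf : LocallyIntegrable f) (v x : E) :
    D v (moll ρ f) x = ∫ t, D v (ρ.normed volume) (x - t) • f t := by
  have h0 : moll ρ f = f ⋆[(lsmul ℝ ℝ).flip, volume] ρ.normed volume := by
    rw [moll, convolution_flip]
  have h1 := (ρ.hasCompactSupport_normed (μ := volume)).hasFDerivAt_convolution_right
    (μ := volume) (lsmul ℝ ℝ).flip hf (ρ.contDiff_normed (n := 1)) x
  rw [D, h0, h1.fderiv, convolution_precompR_apply _ hf (ρ.hasCompactSupport_normed.fderiv ℝ)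
    ((ρ.contDiff_normed (n := 1)).continuous_fderiv (by simp))]
  simp [convolution_def, D]

/-- The kernel `t ↦ ρ (x - t)` is a test function. -/
lemma test_kernel (x : E) : Test (fun t => ρ.normed volume (x - t)) :=
  ⟨ρ.contDiff_normed.comp (contDiff_const.sub contDiff_id),
    ρ.hasCompactSupport_normed.comp_homeomorph (Homeomorph.subLeft x)⟩

lemma D_kernel (v x t : E) :
    D v (fun t => ρ.normed volume (x - t)) t = -D v (ρ.normed volume) (x - t) := by
  have h1 : HasFDerivAt (ρ.normed volume) (fderiv ℝ (ρ.normed volume) (x - t)) (x - t) :=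
    ((ρ.contDiff_normed (n := 1)).differentiable (by simp) _).hasFDerivAt
  have h3 := (h1.comp t ((hasFDerivAt_id t).const_sub x)).fderiv
  show fderiv ℝ (ρ.normed volume ∘ HSub.hSub x) t v = _
  rw [h3]
  simp [D]

lemma kernel_eq_zero {x t : E} (h : ρ.rOut ≤ dist t x) : ρ.normed volume (x - t) = 0 := by
  have : x - t ∉ Function.support (ρ.normed volume) := by
    rw [ρ.support_normed_eq, mem_ball_zero_iff, ← dist_eq_norm, dist_comm]; exact not_lt.2 h
  simpa using this

lemma integral_kernel (x : E) : ∫ t, ρ.normed volume (x - t) = 1 := by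
  rw [integral_sub_left_eq_self (ρ.normed volume) volume x, ρ.integral_normed]

omit [CompleteSpace F] in
lemma integrable_kernel_smul {f : E → F} (hf : LocallyIntegrable f) (x : E) :
    Integrable (fun t => ρ.normed volume (x - t) • f t) :=
  hf.integrable_smul_left_of_hasCompactSupport (test_kernel ρ x).sm.continuous
    (test_kernel ρ x).cs

omit [CompleteSpace F] in
lemma moll_eq_zero {f : E → F} {x : E} (h : ∀ t ∈ ball x ρ.rOut, f t = 0) : moll ρ f x = 0 := by
  rw [moll_eq]
  refine integral_eq_zero_of_ae (Eventually.of_forall fun t => ?_)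
  by_cases ht : t ∈ ball x ρ.rOut
  · simp [h t ht]
  · simp [kernel_eq_zero ρ (not_lt.1 ht)]

omit [CompleteSpace F] in
lemma moll_cs {f : E → F} (hf : HasCompactSupport f) : HasCompactSupport (moll ρ f) :=
  ρ.hasCompactSupport_normed.convolution _ hf

omit [CompleteSpace F] in
lemma moll_add {f g : E → F} (hf : LocallyIntegrable f) (hg : LocallyIntegrable g) (x : E) :
    moll ρ (fun t => f t + g t) x = moll ρ f x + moll ρ g x := by
  simp only [moll_eq, smul_add]
  exact integral_add (integrable_kernel_smul ρ hf x) (integrable_kernel_smul ρ hg x)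

omit [CompleteSpace F] in
lemma moll_sub {f g : E → F} (hf : LocallyIntegrable f) (hg : LocallyIntegrable g) (x : E) :
    moll ρ (fun t => f t - g t) x = moll ρ f x - moll ρ g x := by
  simp only [moll_eq, smul_sub]
  exact integral_sub (integrable_kernel_smul ρ hf x) (integrable_kernel_smul ρ hg x)

omit [CompleteSpace F] in
lemma moll_congr {f g : E → F} (h : f =ᵐ[volume] g) : moll ρ f = moll ρ g := by
  funext x
  simp only [moll_eq]
  exact integral_congr_ae (h.mono fun t ht => by simp [ht])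

lemma moll_le {f : E → ℝ} (hf : LocallyIntegrable f) {x : E} {c : ℝ}
    (h : ∀ t ∈ ball x ρ.rOut, f t ≤ c) : moll ρ f x ≤ c := by
  rw [moll_eq]
  calc _ ≤ ∫ t, ρ.normed volume (x - t) • c := by
        refine integral_mono (integrable_kernel_smul ρ hf x)
          (integrable_kernel_smul ρ (locallyIntegrable_const c) x) fun t => ?_
        by_cases ht : t ∈ ball x ρ.rOut
        · exact mul_le_mul_of_nonneg_left (h t ht) (ρ.nonneg_normed _)
        · simp [kernel_eq_zero ρ (not_lt.1 ht)]
    _ = c := by rw [integral_smul_const, integral_kernel, one_smul]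

lemma le_moll {f : E → ℝ} (hf : LocallyIntegrable f) {x : E} {c : ℝ}
    (h : ∀ t ∈ ball x ρ.rOut, c ≤ f t) : c ≤ moll ρ f x := by
  rw [moll_eq]
  calc c = ∫ t, ρ.normed volume (x - t) • c := by rw [integral_smul_const, integral_kernel, one_smul]
    _ ≤ _ := by
        refine integral_mono (integrable_kernel_smul ρ (locallyIntegrable_const c) x)
          (integrable_kernel_smul ρ hf x) fun t => ?_
        by_cases ht : t ∈ ball x ρ.rOut
        · exact mul_le_mul_of_nonneg_left (h t ht) (ρ.nonneg_normed _)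
        · simp [kernel_eq_zero ρ (not_lt.1 ht)]

omit [CompleteSpace F] in
lemma norm_moll_sq_le {f : E → F} (hf : LocallyIntegrable f)
    (hf2 : LocallyIntegrable fun t => ‖f t‖ ^ 2) (x : E) :
    ‖moll ρ f x‖ ^ 2 ≤ moll ρ (fun t => ‖f t‖ ^ 2) x := by
  set c := ‖moll ρ f x‖ with hc
  have hn : LocallyIntegrable fun t => ‖f t‖ := fun y => (hf y).norm
  have h1 : c ≤ ∫ t, ρ.normed volume (x - t) • ‖f t‖ := by
    rw [hc, moll_eq]
    refine (norm_integral_le_integral_norm _).trans (le_of_eq ?_)
    congr 1; funext t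
    rw [norm_smul, Real.norm_of_nonneg (ρ.nonneg_normed _), smul_eq_mul]
  have h2 : 0 ≤ ∫ t, (ρ.normed volume (x - t) • ‖f t‖ ^ 2
      - 2 * c * (ρ.normed volume (x - t) • ‖f t‖) + ρ.normed volume (x - t) • c ^ 2) := by
    refine integral_nonneg fun t => ?_
    have := mul_nonneg (ρ.nonneg_normed (μ := volume) (x - t)) (sq_nonneg (‖f t‖ - c))
    simp only [smul_eq_mul, Pi.zero_apply]
    linarith
  rw [integral_add, integral_sub, integral_const_mul, integral_smul_const, integral_kernel] at h2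
  · rw [moll_eq]
    have : 0 ≤ c := norm_nonneg _
    simp only [smul_eq_mul] at h1 h2 ⊢
    nlinarith
  · exact integrable_kernel_smul ρ hf2 x
  · exact (integrable_kernel_smul ρ hn x).const_mul _
  · exact (integrable_kernel_smul ρ hf2 x).sub ((integrable_kernel_smul ρ hn x).const_mul _)
  · exact integrable_kernel_smul ρ (locallyIntegrable_const _) x

lemma integrable_moll {f : E → ℝ} (hf : Integrable f) : Integrable (moll ρ f) :=
  ρ.integrable_normed.integrable_convolution _ hf

lemma integral_moll {f : E → ℝ} (hf : Integrable f) : ∫ x, moll ρ f x = ∫ x, f x := by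
  rw [moll, integral_convolution _ ρ.integrable_normed hf, ρ.integral_normed]; simp

omit [CompleteSpace F] in
lemma memLp_moll {f : E → F} (hf : MemLp f 2 volume) : MemLp (moll ρ f) 2 volume := by
  have hl := hf.locallyIntegrable (by norm_num)
  have hc := (contDiff_moll ρ hl).continuous
  rw [memLp_two_iff_integrable_sq_norm hc.aestronglyMeasurable]
  refine (integrable_moll ρ (integrable_sq hf)).mono' (by fun_prop)
    (Eventually.of_forall fun x => ?_)
  rw [Real.norm_of_nonneg (by positivity)]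
  exact norm_moll_sq_le ρ hl (integrable_sq hf).locallyIntegrable x

/-- A bump function with outer radius `r`. -/
noncomputable def bump {r : ℝ} (hr : 0 < r) : ContDiffBump (0 : E) where
  rIn := r / 2
  rOut := r
  rIn_pos := by positivity
  rIn_lt_rOut := half_lt_self hr

/-- The standard sequence of bump functions. -/
noncomputable def bs (k : ℕ) : ContDiffBump (0 : E) := bump (r := 1 / ((k : ℝ) + 1)) (by positivity)

lemma bs_rOut_le (k : ℕ) : (bs k).rOut ≤ 1 := by
  show 1 / ((k : ℝ) + 1) ≤ 1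
  rw [div_le_one (by positivity)]; linarith [(Nat.cast_nonneg k : (0 : ℝ) ≤ k)]

lemma tendsto_bs : Tendsto (fun k => (bs k).rOut) atTop (𝓝 0) :=
  tendsto_one_div_add_atTop_nhds_zero_nat

lemma ae_tendsto_moll {f : E → F} (hf : LocallyIntegrable f) :
    ∀ᵐ x, Tendsto (fun k => moll (bs k) f x) atTop (𝓝 (f x)) :=
  ContDiffBump.ae_convolution_tendsto_right_of_locallyIntegrable (K := 2) tendsto_bs
    (Eventually.of_forall fun k => le_of_eq (by simp only [bs, bump]; ring)) hf

lemma tendsto_n2_moll {f : E → F} (hf : MemLp f 2 volume) :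
    Tendsto (fun k => n2 (fun x => moll (bs k) f x - f x)) atTop (𝓝 0) := by
  have hl := hf.locallyIntegrable (by norm_num)
  have hi := integrable_sq hf
  set h : E → ℝ := fun t => ‖f t‖ ^ 2 with hh
  have hm : ∀ k, MemLp (fun x => moll (bs k) f x - f x) 2 volume :=
    fun k => (memLp_moll _ hf).sub hf
  set A : ℕ → E → ℝ := fun k x => 2 * moll (bs k) h x + 2 * h x - ‖moll (bs k) f x - f x‖ ^ 2
    with hA
  have hAi : ∀ k, Integrable (A k) := fun k =>
    (((integrable_moll _ hi).const_mul 2).add (hi.const_mul 2)).sub (integrable_sq (hm k))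
  have hA0 : ∀ k x, 0 ≤ A k x := by
    intro k x
    have h1 := norm_moll_sq_le (bs k) hl hi.locallyIntegrable x
    have h2 := norm_sub_le (moll (bs k) f x) (f x)
    have h3 := pow_le_pow_left₀ (norm_nonneg _) h2 2
    simp only [hA, hh]
    nlinarith [sq_nonneg (‖moll (bs k) f x‖ - ‖f x‖)]
  have hint : ∀ k, ∫ x, A k x = 4 * (∫ x, h x) - n2 (fun x => moll (bs k) f x - f x) ^ 2 := by
    intro k
    simp only [hA]
    rw [integral_sub, integral_add, integral_const_mul, integral_const_mul, integral_moll _ hi,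
      n2_sq (hm k)]
    · ring
    · exact (integrable_moll _ hi).const_mul 2
    · exact hi.const_mul 2
    · exact ((integrable_moll _ hi).const_mul 2).add (hi.const_mul 2)
    · exact integrable_sq (hm k)
  have hF := lintegral_liminf_le' (μ := volume) (u := atTop)
    (f := fun k x => ENNReal.ofReal (A k x)) fun k => (hAi k).1.aemeasurable.ennreal_ofReal
  have hlim : ∫⁻ x, liminf (fun k => ENNReal.ofReal (A k x)) atTop
      = ENNReal.ofReal (4 * ∫ x, h x) := by
    rw [← integral_const_mul, ofReal_integral_eq_lintegral_ofReal (hi.const_mul 4)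
      (Eventually.of_forall fun x => by simp only [hh, Pi.zero_apply]; positivity)]
    refine lintegral_congr_ae ?_
    filter_upwards [ae_tendsto_moll hl, ae_tendsto_moll hi.locallyIntegrable] with x h1 h2
    refine Tendsto.liminf_eq (ENNReal.tendsto_ofReal ?_)
    have := ((h2.const_mul 2).add_const (2 * h x)).sub ((h1.sub_const (f x)).norm.pow 2)
    convert this using 2
    simp [hh]; ring
  simp_rw [← ofReal_integral_eq_lintegral_ofReal (hAi _) (Eventually.of_forall (hA0 _)), hlim,
    hint] at hF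
  rw [Metric.tendsto_atTop]
  intro ε hε
  have h0 : 0 ≤ ∫ x, h x := integral_nonneg fun x => by simp only [hh, Pi.zero_apply]; positivity
  by_cases hc : 4 * ∫ x, h x < ε ^ 2
  · refine ⟨0, fun k _ => ?_⟩
    have : 0 ≤ ∫ x, A k x := integral_nonneg (hA0 k)
    rw [hint] at this
    rw [Real.dist_0_eq_abs, abs_of_nonneg (n2_nonneg _)]
    exact lt_of_pow_lt_pow_left₀ 2 hε.le (by linarith)
  · have hlt : ENNReal.ofReal (4 * (∫ x, h x) - ε ^ 2) < ENNReal.ofReal (4 * ∫ x, h x) := by
      rw [ENNReal.ofReal_lt_ofReal_iff (by nlinarith)]; nlinarith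
    obtain ⟨N, hN⟩ := eventually_atTop.1 (eventually_lt_of_lt_liminf (hlt.trans_le hF))
    refine ⟨N, fun k hk => ?_⟩
    have := (ENNReal.ofReal_lt_ofReal_iff_of_nonneg (by linarith)).1 (hN k hk)
    rw [Real.dist_0_eq_abs, abs_of_nonneg (n2_nonneg _)]
    exact lt_of_pow_lt_pow_left₀ 2 hε.le (by linarith)

end moll

end Pool.Agent.Lib.MP_29d677_an
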