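import Pool.Agent.Lib.MP_29d677_an.Levi
import Pool.Agent.Lib.MP_29d677_an.Moll

/-!
The basic identity for the Cauchy-Riemann operator with a weight.
-/

namespace Pool.Agent.Lib.MP_29d677_an

open MeasureTheory Filter Topology Complex Metric
open scoped ContDiff ComplexConjugate

/-- The coordinate vectors. -/
noncomputable def ee (j : Fin 2) : E := Pi.single j 1

/-- Twice the Cauchy-Riemann operator in the variable `j`. -/
noncomputable def db (j : Fin 2) (f : E → ℂ) : E → ℂ :=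
  fun z => D (ee j) f z + I * D (I • ee j) f z

/-- Twice the holomorphic derivative in the variable `j`. -/
noncomputable def dd (j : Fin 2) (f : E → ℂ) : E → ℂ :=
  fun z => D (ee j) f z - I * D (I • ee j) f z

/-- The weighted adjoint. -/
noncomputable def dl (φ : E → ℝ) (j : Fin 2) (g : E → ℂ) : E → ℂ :=
  fun z => dd j g z - dd j (fun x => (φ x : ℂ)) z * g z

@[fun_prop]
lemma contDiff_db {f : E → ℂ} (hf : ContDiff ℝ ∞ f) (j : Fin 2) : ContDiff ℝ ∞ (db j f) := by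
  unfold db; fun_prop

@[fun_prop]
lemma contDiff_dd {f : E → ℂ} (hf : ContDiff ℝ ∞ f) (j : Fin 2) : ContDiff ℝ ∞ (dd j f) := by
  unfold dd; fun_prop

lemma contDiff_dl {φ : E → ℝ} (hφ : ContDiff ℝ ∞ φ) {f : E → ℂ} (hf : ContDiff ℝ ∞ f)
    (j : Fin 2) : ContDiff ℝ ∞ (dl φ j f) :=
  (contDiff_dd hf j).sub ((contDiff_dd (contDiff_ofReal hφ) j).mul hf)

lemma Test.db {f : E → ℂ} (hf : Test f) (j : Fin 2) : Test (db j f) :=
  (hf.D _).add ((hf.D _).mul_left contDiff_const)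

lemma Test.dd {f : E → ℂ} (hf : Test f) (j : Fin 2) : Test (dd j f) :=
  (hf.D _).sub ((hf.D _).mul_left contDiff_const)

lemma Test.dl {φ : E → ℝ} (hφ : ContDiff ℝ ∞ φ) {f : E → ℂ} (hf : Test f) (j : Fin 2) :
    Test (dl φ j f) :=
  (hf.dd j).sub (hf.mul_left (contDiff_dd (contDiff_ofReal hφ) j))

lemma db_mul {f g : E → ℂ} (hf : ContDiff ℝ ∞ f) (hg : ContDiff ℝ ∞ g) (j : Fin 2) (z : E) :
    db j (fun x => f x * g x) z = db j f z * g z + f z * db j g z := by
  simp only [db, D_mul hf hg]; ring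

lemma dd_mul {f g : E → ℂ} (hf : ContDiff ℝ ∞ f) (hg : ContDiff ℝ ∞ g) (j : Fin 2) (z : E) :
    dd j (fun x => f x * g x) z = dd j f z * g z + f z * dd j g z := by
  simp only [dd, D_mul hf hg]; ring

lemma db_sub {f g : E → ℂ} (hf : ContDiff ℝ ∞ f) (hg : ContDiff ℝ ∞ g) (j : Fin 2) (z : E) :
    db j (fun x => f x - g x) z = db j f z - db j g z := by
  simp only [db, D_sub hf hg]; ring

lemma db_conj {f : E → ℂ} (hf : ContDiff ℝ ∞ f) (j : Fin 2) (z : E) :
    db j (fun x => conj (f x)) z = conj (dd j f z) := by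
  simp [db, dd, D_conj hf]

lemma dd_conj {f : E → ℂ} (hf : ContDiff ℝ ∞ f) (j : Fin 2) (z : E) :
    dd j (fun x => conj (f x)) z = conj (db j f z) := by
  simp [db, dd, D_conj hf]; ring

lemma conj_dd_real {φ : E → ℝ} (hφ : ContDiff ℝ ∞ φ) (j : Fin 2) (z : E) :
    conj (dd j (fun x => (φ x : ℂ)) z) = db j (fun x => (φ x : ℂ)) z := by
  simp [db, dd, D_ofReal hφ]

lemma D_db {f : E → ℂ} (hf : ContDiff ℝ ∞ f) (j : Fin 2) (v z : E) :
    D v (db j f) z = D v (D (ee j) f) z + I * D v (D (I • ee j) f) z := by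
  unfold db
  rw [D_add (contDiff_D hf _) (by fun_prop), D_const_mul I (contDiff_D hf _)]

lemma D_dd {f : E → ℂ} (hf : ContDiff ℝ ∞ f) (j : Fin 2) (v z : E) :
    D v (dd j f) z = D v (D (ee j) f) z - I * D v (D (I • ee j) f) z := by
  unfold dd
  rw [D_sub (contDiff_D hf _) (by fun_prop), D_const_mul I (contDiff_D hf _)]

lemma db_comm {f : E → ℂ} (hf : ContDiff ℝ ∞ f) (j k : Fin 2) (z : E) :
    db j (db k f) z = db k (db j f) z := by
  show D _ (db k f) z + I * D _ (db k f) z = D _ (db j f) z + I * D _ (db j f) z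
  simp only [D_db hf]
  rw [D_comm hf (ee j) (ee k), D_comm hf (ee j) (I • ee k), D_comm hf (I • ee j) (ee k),
    D_comm hf (I • ee j) (I • ee k)]
  ring

lemma dd_db_comm {f : E → ℂ} (hf : ContDiff ℝ ∞ f) (j k : Fin 2) (z : E) :
    dd j (db k f) z = db k (dd j f) z := by
  show D _ (db k f) z - I * D _ (db k f) z = D _ (dd j f) z + I * D _ (dd j f) z
  simp only [D_db hf, D_dd hf]
  rw [D_comm hf (ee j) (ee k), D_comm hf (ee j) (I • ee k), D_comm hf (I • ee j) (ee k),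
    D_comm hf (I • ee j) (I • ee k)]
  ring

lemma Test.integral_db {f : E → ℂ} (hf : Test f) (j : Fin 2) : ∫ z, MP_29d677_an.db j f z = 0 := by
  unfold MP_29d677_an.db
  rw [integral_add (hf.D _).integrable ((hf.D _).integrable.const_mul _), integral_const_mul,
    hf.integral_D, hf.integral_D]
  simp

/-- The weight. -/
noncomputable def ww (φ : E → ℝ) : E → ℂ := fun z => (Real.exp (-φ z) : ℂ)

/-- The square root of the weight. -/
noncomputable def om (φ : E → ℝ) : E → ℂ := fun z => (Real.exp (-φ z / 2) : ℂ)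

variable {φ : E → ℝ}

lemma contDiff_ww (hφ : ContDiff ℝ ∞ φ) : ContDiff ℝ ∞ (ww φ) := by
  unfold ww; exact contDiff_ofReal (by fun_prop)

lemma contDiff_om (hφ : ContDiff ℝ ∞ φ) : ContDiff ℝ ∞ (om φ) := by
  unfold om; exact contDiff_ofReal (by fun_prop)

lemma om_mul_om (z : E) : om φ z * om φ z = ww φ z := by
  simp only [om, ww, ← Complex.ofReal_mul, ← Real.exp_add]; congr 2; ring

@[simp] lemma conj_om (z : E) : conj (om φ z) = om φ z := Complex.conj_ofReal _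

@[simp] lemma conj_ww (z : E) : conj (ww φ z) = ww φ z := Complex.conj_ofReal _

lemma norm_om (z : E) : ‖om φ z‖ = Real.exp (-φ z / 2) := by
  rw [om, Complex.norm_real, Real.norm_of_nonneg (Real.exp_pos _).le]

lemma norm_om_sq (z : E) : ‖om φ z‖ ^ 2 = Real.exp (-φ z) := by
  rw [norm_om, sq, ← Real.exp_add]; congr 1; ring

lemma om_ne_zero (z : E) : om φ z ≠ 0 := by simp [om]

lemma ww_ne_zero (z : E) : ww φ z ≠ 0 := by simp [ww]

lemma D_ww (hφ : ContDiff ℝ ∞ φ) (v z : E) :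
    D v (ww φ) z = -D v (fun x => (φ x : ℂ)) z * ww φ z := by
  unfold ww
  rw [D_ofReal (by fun_prop), D_exp hφ.neg, D_neg, D_ofReal hφ]
  simp; ring

lemma db_ww (hφ : ContDiff ℝ ∞ φ) (j : Fin 2) (z : E) :
    db j (ww φ) z = -db j (fun x => (φ x : ℂ)) z * ww φ z := by
  simp only [db, D_ww hφ]; ring

lemma dd_ww (hφ : ContDiff ℝ ∞ φ) (j : Fin 2) (z : E) :
    dd j (ww φ) z = -dd j (fun x => (φ x : ℂ)) z * ww φ z := by
  simp only [dd, D_ww hφ]; ring

/-- `conj (δ b) w = dbar (conj b w)`. -/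
lemma conj_dl_mul (hφ : ContDiff ℝ ∞ φ) {b : E → ℂ} (hb : ContDiff ℝ ∞ b) (j : Fin 2) (z : E) :
    conj (dl φ j b z) * ww φ z = db j (fun x => conj (b x) * ww φ x) z := by
  rw [db_mul (contDiff_conj hb) (contDiff_ww hφ), db_conj hb, db_ww hφ, dl, map_sub, map_mul,
    conj_dd_real hφ]
  ring

/-- The weighted inner product. -/
noncomputable def ip (φ : E → ℝ) (a b : E → ℂ) : ℂ := ∫ z, a z * conj (b z) * ww φ z

lemma ip_int (hφ : ContDiff ℝ ∞ φ) {a b : E → ℂ} (ha : Test a) (hb : Test b) :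
    Integrable fun z => a z * conj (b z) * ww φ z :=
  ((ha.mul_right (contDiff_conj hb.sm)).mul_right (contDiff_ww hφ)).integrable

lemma ip_conj (a b : E → ℂ) : conj (ip φ a b) = ip φ b a := by
  simp only [ip, ← integral_conj]
  congr 1; funext z; simp only [map_mul, conj_ww, conj_conj]; ring

lemma ip_db (hφ : ContDiff ℝ ∞ φ) {a b : E → ℂ} (ha : Test a) (hb : Test b) (j : Fin 2) :
    ip φ (db j a) b = -ip φ a (dl φ j b) := by
  have h := (ha.mul_right ((contDiff_conj hb.sm).mul (contDiff_ww hφ))).integral_db j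
  simp_rw [db_mul ha.sm ((contDiff_conj hb.sm).mul (contDiff_ww hφ)),
    ← conj_dl_mul hφ hb.sm, ← mul_assoc] at h
  rw [integral_add (ip_int hφ (ha.db j) hb) (ip_int hφ ha (hb.dl hφ j))] at h
  exact eq_neg_of_add_eq_zero_left h

lemma ip_dl (hφ : ContDiff ℝ ∞ φ) {a b : E → ℂ} (ha : Test a) (hb : Test b) (j : Fin 2) :
    ip φ (dl φ j a) b = -ip φ a (db j b) := by
  rw [← ip_conj, ← ip_conj (db j b), ip_db hφ hb ha]; simp

lemma ip_add_left (hφ : ContDiff ℝ ∞ φ) {a a' b : E → ℂ} (ha : Test a) (ha' : Test a')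
    (hb : Test b) : ip φ (fun z => a z + a' z) b = ip φ a b + ip φ a' b := by
  simp only [ip, add_mul]
  exact integral_add (ip_int hφ ha hb) (ip_int hφ ha' hb)

lemma ip_sub_left (hφ : ContDiff ℝ ∞ φ) {a a' b : E → ℂ} (ha : Test a) (ha' : Test a')
    (hb : Test b) : ip φ (fun z => a z - a' z) b = ip φ a b - ip φ a' b := by
  simp only [ip, sub_mul]
  exact integral_sub (ip_int hφ ha hb) (ip_int hφ ha' hb)

lemma ip_add_right (hφ : ContDiff ℝ ∞ φ) {a b b' : E → ℂ} (ha : Test a) (hb : Test b)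
    (hb' : Test b') : ip φ a (fun z => b z + b' z) = ip φ a b + ip φ a b' := by
  rw [← ip_conj, ip_add_left hφ hb hb' ha, map_add, ip_conj, ip_conj]

lemma ip_sub_right (hφ : ContDiff ℝ ∞ φ) {a b b' : E → ℂ} (ha : Test a) (hb : Test b)
    (hb' : Test b') : ip φ a (fun z => b z - b' z) = ip φ a b - ip φ a b' := by
  rw [← ip_conj, ip_sub_left hφ hb hb' ha, map_sub, ip_conj, ip_conj]

lemma memLp_om (hφ : ContDiff ℝ ∞ φ) {a : E → ℂ} (ha : Test a) :
    MemLp (fun z => a z * om φ z) 2 volume := (ha.mul_right (contDiff_om hφ)).memLp 2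

lemma ip_self (hφ : ContDiff ℝ ∞ φ) {a : E → ℂ} (ha : Test a) :
    ip φ a a = (n2 (fun z => a z * om φ z) ^ 2 : ℝ) := by
  rw [n2_sq (memLp_om hφ ha), ip, ← integral_complex_ofReal]
  congr 1; funext z
  rw [norm_mul, mul_pow, norm_om_sq, Complex.mul_conj', ww]
  push_cast; ring

lemma ip_key (hφ : ContDiff ℝ ∞ φ) {a b : E → ℂ} (ha : Test a) (hb : Test b) (j k : Fin 2) :
    ip φ (dl φ j a) (dl φ k b) = ip φ (fun z => db k (dd j fun x => (φ x : ℂ)) z * a z) b
      + ip φ (db k a) (db j b) := by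
  have hc := contDiff_ofReal hφ
  have h1 : db k (dl φ j a) = fun z =>
      dl φ j (db k a) z - db k (dd j fun x => (φ x : ℂ)) z * a z := by
    funext z
    unfold dl
    rw [db_sub (contDiff_dd ha.sm j) ((contDiff_dd hc j).mul ha.sm),
      db_mul (contDiff_dd hc j) ha.sm, dd_db_comm ha.sm]
    ring
  have h2 := ip_db hφ (ha.dl hφ j) hb k
  rw [h1, ip_sub_left hφ ((ha.db k).dl hφ j) (ha.mul_left (by fun_prop)) hb,
    ip_dl hφ (ha.db k) hb] at h2
  linear_combination h2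

lemma vec_eq (ξ : E) : ξ = (ξ 0).re • ee 0 + (ξ 0).im • (I • ee 0) + (ξ 1).re • ee 1
    + (ξ 1).im • (I • ee 1) := by
  ext i
  fin_cases i <;> simp [ee]

lemma I_vec_eq (ξ : E) : I • ξ = (-(ξ 0).im) • ee 0 + (ξ 0).re • (I • ee 0) + (-(ξ 1).im) • ee 1
    + (ξ 1).re • (I • ee 1) := by
  ext i
  fin_cases i <;> simp [ee] <;> apply Complex.ext <;> simp

lemma levi_eq (hφ : ContDiff ℝ ∞ φ) (z ξ : E) :
    db 0 (dd 0 fun x => (φ x : ℂ)) z * ξ 0 * conj (ξ 0)
      + db 1 (dd 0 fun x => (φ x : ℂ)) z * ξ 0 * conj (ξ 1)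
      + db 0 (dd 1 fun x => (φ x : ℂ)) z * ξ 1 * conj (ξ 0)
      + db 1 (dd 1 fun x => (φ x : ℂ)) z * ξ 1 * conj (ξ 1) = (Lev φ z ξ : ℝ) := by
  have hc := contDiff_ofReal hφ
  set B := fderiv ℝ (fderiv ℝ φ) z with hB
  have h0 : ∀ u v, D u (D v fun x => (φ x : ℂ)) z = (B u v : ℝ) := by
    intro u v
    rw [show (D v fun x => (φ x : ℂ)) = fun x => ((D v φ x : ℝ) : ℂ) from
      funext fun x => D_ofReal hφ v x, D_ofReal (contDiff_D hφ v), DD_eq hφ]
  have h1 : ∀ j k, db k (dd j fun x => (φ x : ℂ)) z =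
      (B (ee k) (ee j) : ℝ) - I * (B (ee k) (I • ee j) : ℝ)
        + I * ((B (I • ee k) (ee j) : ℝ) - I * (B (I • ee k) (I • ee j) : ℝ)) := by
    intro j k
    show D _ (dd j _) z + I * D _ (dd j _) z = _
    simp only [D_dd hc, h0]
  have hs : ∀ u v, B u v = B v u := fun u v => snd_symm hφ u v z
  have hL : Lev φ z ξ = B ξ ξ + B (I • ξ) (I • ξ) := by simp only [Lev, DD_eq hφ, hB]
  rw [hL, I_vec_eq ξ]
  conv_rhs => rw [vec_eq ξ]
  simp only [h1, map_add, map_smul, add_apply, smul_apply, smul_eq_mul]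
  rw [hs (I • ee 0) (ee 0), hs (ee 1) (ee 0), hs (I • ee 1) (ee 0), hs (ee 1) (I • ee 0),
    hs (I • ee 1) (I • ee 0), hs (I • ee 1) (ee 1)]
  apply Complex.ext <;> simp [ee] <;> ring

/-- The basic inequality for test forms. -/
theorem basic_ineq (hφ : ContDiff ℝ ∞ φ) {a b : E → ℂ} (ha : Test a) (hb : Test b) :
    ∫ z, Lev φ z ![a z, b z] * Real.exp (-φ z)
      ≤ n2 (fun z => (dl φ 0 a z + dl φ 1 b z) * om φ z) ^ 2
        + n2 (fun z => (db 1 a z - db 0 b z) * om φ z) ^ 2 := by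
  have hc := contDiff_ofReal hφ
  have hT := ip_self hφ ((ha.dl hφ 0).add (hb.dl hφ 1))
  have hS := ip_self hφ ((ha.db 1).sub (hb.db 0))
  rw [ip_add_left hφ (ha.dl hφ 0) (hb.dl hφ 1) ((ha.dl hφ 0).add (hb.dl hφ 1)),
    ip_add_right hφ (ha.dl hφ 0) (ha.dl hφ 0) (hb.dl hφ 1),
    ip_add_right hφ (hb.dl hφ 1) (ha.dl hφ 0) (hb.dl hφ 1),
    ip_key hφ ha ha, ip_key hφ ha hb, ip_key hφ hb ha, ip_key hφ hb hb,
    ip_self hφ (ha.db 0), ip_self hφ (hb.db 1)] at hT
  rw [ip_sub_left hφ (ha.db 1) (hb.db 0) ((ha.db 1).sub (hb.db 0)),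
    ip_sub_right hφ (ha.db 1) (ha.db 1) (hb.db 0), ip_sub_right hφ (hb.db 0) (ha.db 1) (hb.db 0),
    ip_self hφ (ha.db 1), ip_self hφ (hb.db 0)] at hS
  have t : ∀ (j k : Fin 2) {c : E → ℂ}, Test c →
      Test fun z => db k (dd j fun x => (φ x : ℂ)) z * c z :=
    fun j k c hc' => hc'.mul_left (by fun_prop)
  have hL : ip φ (fun z => db 0 (dd 0 fun x => (φ x : ℂ)) z * a z) a
      + ip φ (fun z => db 1 (dd 0 fun x => (φ x : ℂ)) z * a z) b
      + ip φ (fun z => db 0 (dd 1 fun x => (φ x : ℂ)) z * b z) a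
      + ip φ (fun z => db 1 (dd 1 fun x => (φ x : ℂ)) z * b z) b
      = ((∫ z, Lev φ z ![a z, b z] * Real.exp (-φ z) : ℝ) : ℂ) := by
    have i1 := ip_int hφ (t 0 0 ha) ha
    have i2 := ip_int hφ (t 0 1 ha) hb
    have i3 := ip_int hφ (t 1 0 hb) ha
    have i4 := ip_int hφ (t 1 1 hb) hb
    unfold ip
    have e1 := integral_add i1 i2
    have e2 := integral_add (i1.add i2) i3
    have e3 := integral_add ((i1.add i2).add i3) i4
    simp only [Pi.add_apply] at e2 e3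
    rw [← e1, ← e2, ← e3, ← integral_complex_ofReal]
    congr 1; funext z
    have := levi_eq hφ z ![a z, b z]
    simp only [Matrix.cons_val_zero, Matrix.cons_val_one] at this
    rw [Complex.ofReal_mul, ← this, ww]
    ring
  have key : ((n2 (fun z => (dl φ 0 a z + dl φ 1 b z) * om φ z) ^ 2
        + n2 (fun z => (db 1 a z - db 0 b z) * om φ z) ^ 2 : ℝ) : ℂ)
      = (((∫ z, Lev φ z ![a z, b z] * Real.exp (-φ z)) + (n2 (fun z => db 0 a z * om φ z) ^ 2
        + n2 (fun z => db 1 b z * om φ z) ^ 2 + n2 (fun z => db 1 a z * om φ z) ^ 2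
        + n2 (fun z => db 0 b z * om φ z) ^ 2) : ℝ) : ℂ) := by
    rw [Complex.ofReal_add, ← hT, ← hS, Complex.ofReal_add, ← hL]
    push_cast; ring
  rw [Complex.ofReal_injective key]
  exact le_add_of_nonneg_right (by positivity)

end Pool.Agent.Lib.MP_29d677_an
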