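import Mathlib

/-!
Directional derivatives, test functions and integration by parts on complex 2-space.
-/

namespace Pool.Agent.Lib.MP_29d677_an

open MeasureTheory Filter Topology Complex
open scoped ContDiff ComplexConjugate

abbrev E := Fin 2 → ℂ

section general
variable {F : Type*} [NormedAddCommGroup F] [NormedSpace ℝ F]

/-- Real directional derivative. -/
noncomputable def D (v : E) (f : E → F) : E → F := fun z => fderiv ℝ f z v

@[fun_prop]
lemma contDiff_D {f : E → F} (hf : ContDiff ℝ ∞ f) (v : E) : ContDiff ℝ ∞ (D v f) :=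
  (hf.fderiv_right (m := ∞) (by simp)).clm_apply contDiff_const

lemma diff_of {f : E → F} (hf : ContDiff ℝ ∞ f) : Differentiable ℝ f :=
  hf.differentiable (by simp)

lemma D_add {f g : E → F} (hf : ContDiff ℝ ∞ f) (hg : ContDiff ℝ ∞ g) (v z : E) :
    D v (fun x => f x + g x) z = D v f z + D v g z := by
  simp only [D]; rw [fderiv_fun_add (diff_of hf z) (diff_of hg z)]; rfl

lemma D_sub {f g : E → F} (hf : ContDiff ℝ ∞ f) (hg : ContDiff ℝ ∞ g) (v z : E) :
    D v (fun x => f x - g x) z = D v f z - D v g z := by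
  simp only [D]; rw [fderiv_fun_sub (diff_of hf z) (diff_of hg z)]; rfl

lemma D_neg (f : E → F) (v z : E) : D v (fun x => -f x) z = -D v f z := by
  simp only [D]; rw [fderiv_fun_neg]; rfl

lemma D_const (c : F) (v z : E) : D v (fun _ => c) z = 0 := by simp [D]

lemma D_sum {ι : Type*} (s : Finset ι) {f : ι → E → F} (hf : ∀ i ∈ s, ContDiff ℝ ∞ (f i))
    (v z : E) : D v (fun x => ∑ i ∈ s, f i x) z = ∑ i ∈ s, D v (f i) z := by
  simp only [D]; rw [fderiv_fun_sum fun i hi => diff_of (hf i hi) z]; simp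

lemma D_clm {G : Type*} [NormedAddCommGroup G] [NormedSpace ℝ G] (L : F →L[ℝ] G) {f : E → F}
    (hf : ContDiff ℝ ∞ f) (v z : E) : D v (fun x => L (f x)) z = L (D v f z) := by
  have h := (L.hasFDerivAt.comp z (diff_of hf z).hasFDerivAt).fderiv
  show fderiv ℝ (L ∘ f) z v = _
  rw [h]; rfl

lemma DD_eq {f : E → F} (hf : ContDiff ℝ ∞ f) (u v z : E) :
    D u (D v f) z = fderiv ℝ (fderiv ℝ f) z u v := by
  have h1 : DifferentiableAt ℝ (fderiv ℝ f) z :=
    (hf.fderiv_right (m := ∞) (by simp)).differentiable (by simp) z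
  have h2 := (h1.hasFDerivAt.clm_apply (hasFDerivAt_const v z)).fderiv
  show fderiv ℝ (fun y => fderiv ℝ f y v) z u = _
  rw [h2]; simp

lemma snd_symm {f : E → F} (hf : ContDiff ℝ ∞ f) (u v z : E) :
    fderiv ℝ (fderiv ℝ f) z u v = fderiv ℝ (fderiv ℝ f) z v u :=
  (hf.contDiffAt (x := z)).isSymmSndFDerivAt 
    (by simp; exact WithTop.coe_le_coe.2 (le_top : (2 : ℕ∞) ≤ ⊤)) u v

lemma D_comm {f : E → F} (hf : ContDiff ℝ ∞ f) (u v z : E) :
    D u (D v f) z = D v (D u f) z := by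
  rw [DD_eq hf, DD_eq hf, snd_symm hf]

/-- Smooth compactly supported functions. -/
structure Test (f : E → F) : Prop where
  sm : ContDiff ℝ ∞ f
  cs : HasCompactSupport f

lemma Test.D {f : E → F} (hf : Test f) (v : E) : Test (D v f) :=
  ⟨contDiff_D hf.sm v, hf.cs.fderiv_apply ℝ v⟩

lemma Test.integrable {f : E → F} (hf : Test f) : Integrable f :=
  hf.sm.continuous.integrable_of_hasCompactSupport hf.cs

lemma Test.memLp {f : E → F} (hf : Test f) (p : ENNReal) : MemLp f p volume :=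
  hf.sm.continuous.memLp_of_hasCompactSupport hf.cs

lemma Test.add {f g : E → F} (hf : Test f) (hg : Test g) : Test (fun x => f x + g x) :=
  ⟨hf.sm.add hg.sm, hf.cs.add hg.cs⟩

lemma Test.neg {f : E → F} (hf : Test f) : Test (fun x => -f x) :=
  ⟨hf.sm.neg, hf.cs.neg⟩

lemma Test.sub {f g : E → F} (hf : Test f) (hg : Test g) : Test (fun x => f x - g x) :=
  ⟨hf.sm.sub hg.sm, hf.cs.sub hg.cs⟩

lemma Test.zero : Test (fun _ : E => (0 : F)) := ⟨contDiff_const, HasCompactSupport.zero⟩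

lemma Test.integral_D [CompleteSpace F] {f : E → F} (hf : Test f) (v : E) :
    ∫ z, MP_29d677_an.D v f z = 0 := by
  have h := integral_smul_fderiv_eq_neg_fderiv_smul_of_integrable (μ := volume) (𝕜 := ℝ)
    (f := fun _ : E => (1 : ℝ)) (g := f) (v := v) (by simp)
    (by simp only [one_smul]; exact (hf.D v).integrable)
    (by simpa using hf.integrable) (by simp) (fun x _ => diff_of hf.sm x)
  simpa [MP_29d677_an.D] using h

end general

section alg
variable {𝕜 : Type*} [RCLike 𝕜]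

lemma D_mul {f g : E → 𝕜} (hf : ContDiff ℝ ∞ f) (hg : ContDiff ℝ ∞ g) (v z : E) :
    D v (fun x => f x * g x) z = D v f z * g z + f z * D v g z := by
  simp only [D]; rw [fderiv_fun_mul (diff_of hf z) (diff_of hg z)]
  simp; ring

lemma D_const_mul (c : 𝕜) {g : E → 𝕜} (hg : ContDiff ℝ ∞ g) (v z : E) :
    D v (fun x => c * g x) z = c * D v g z := by
  rw [D_mul contDiff_const hg, D_const]; simp

lemma Test.mul_left {f g : E → 𝕜} (hf : ContDiff ℝ ∞ f) (hg : Test g) :
    Test (fun x => f x * g x) :=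
  ⟨hf.mul hg.sm, hg.cs.mul_left⟩

lemma Test.mul_right {f g : E → 𝕜} (hf : Test f) (hg : ContDiff ℝ ∞ g) :
    Test (fun x => f x * g x) :=
  ⟨hf.sm.mul hg, hf.cs.mul_right⟩

/-- Integration by parts. -/
lemma ibp {f g : E → 𝕜} (hf : ContDiff ℝ ∞ f) (hg : Test g) (v : E) :
    ∫ z, f z * D v g z = -∫ z, D v f z * g z := by
  have h := (hg.mul_left hf).integral_D v
  simp_rw [D_mul hf hg.sm] at h
  rw [integral_add (hg.mul_left (contDiff_D hf v)).integrable
    ((hg.D v).mul_left hf).integrable] at h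
  linear_combination h

lemma integrable_mul_test {a ζ : E → 𝕜} (ha : LocallyIntegrable a) (hζ : Continuous ζ)
    (hc : HasCompactSupport ζ) : Integrable (fun z => a z * ζ z) :=
  ha.integrable_smul_right_of_hasCompactSupport hζ hc

end alg

@[fun_prop]
lemma contDiff_conj {f : E → ℂ} (hf : ContDiff ℝ ∞ f) : ContDiff ℝ ∞ (fun z => conj (f z)) :=
  (Complex.conjCLE : ℂ →L[ℝ] ℂ).contDiff.comp hf

@[fun_prop]
lemma contDiff_ofReal {f : E → ℝ} (hf : ContDiff ℝ ∞ f) : ContDiff ℝ ∞ (fun z => (f z : ℂ)) :=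
  Complex.ofRealCLM.contDiff.comp hf

lemma D_conj {f : E → ℂ} (hf : ContDiff ℝ ∞ f) (v z : E) :
    D v (fun x => conj (f x)) z = conj (D v f z) :=
  D_clm (Complex.conjCLE : ℂ →L[ℝ] ℂ) hf v z

lemma D_ofReal {f : E → ℝ} (hf : ContDiff ℝ ∞ f) (v z : E) :
    D v (fun x => (f x : ℂ)) z = ((D v f z : ℝ) : ℂ) :=
  D_clm Complex.ofRealCLM hf v z

lemma Test.conj {f : E → ℂ} (hf : Test f) : Test (fun x => conj (f x)) :=
  ⟨contDiff_conj hf.sm, hf.cs.comp_left (g := fun w : ℂ => conj w) (by simp)⟩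

lemma Test.ofReal {f : E → ℝ} (hf : Test f) : Test (fun x => (f x : ℂ)) :=
  ⟨contDiff_ofReal hf.sm, hf.cs.comp_left (g := fun w : ℝ => (w : ℂ)) (by simp)⟩

lemma D_exp {f : E → ℝ} (hf : ContDiff ℝ ∞ f) (v z : E) :
    D v (fun x => Real.exp (f x)) z = Real.exp (f z) * D v f z := by
  simp only [D]; rw [fderiv_exp (diff_of hf z)]; simp

lemma D_log {f : E → ℝ} (hf : ContDiff ℝ ∞ f) (v z : E) (hz : f z ≠ 0) :
    D v (fun x => Real.log (f x)) z = D v f z / f z := by
  simp only [D]; rw [((diff_of hf z).hasFDerivAt.log hz).fderiv]; simp; ring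

/-- Four times the Levi form. -/
noncomputable def Lev (φ : E → ℝ) (z ξ : E) : ℝ := D ξ (D ξ φ) z + D (I • ξ) (D (I • ξ) φ) z

lemma Lev_add {f g : E → ℝ} (hf : ContDiff ℝ ∞ f) (hg : ContDiff ℝ ∞ g) (z ξ : E) :
    Lev (fun x => f x + g x) z ξ = Lev f z ξ + Lev g z ξ := by
  have h : ∀ v, D v (fun x => f x + g x) = fun x => D v f x + D v g x :=
    fun v => funext fun x => D_add hf hg v x
  simp only [Lev, h, D_add (contDiff_D hf _) (contDiff_D hg _)]; ring

lemma Lev_const_mul (c : ℝ) {g : E → ℝ} (hg : ContDiff ℝ ∞ g) (z ξ : E) :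
    Lev (fun x => c * g x) z ξ = c * Lev g z ξ := by
  have h : ∀ v, D v (fun x => c * g x) = fun x => c * D v g x :=
    fun v => funext fun x => D_const_mul c hg v x
  simp only [Lev, h, D_const_mul c (contDiff_D hg _)]; ring

@[fun_prop]
lemma contDiff_Lev {g : E → ℝ} (hg : ContDiff ℝ ∞ g) (ξ : E) :
    ContDiff ℝ ∞ (fun z => Lev g z ξ) := by
  unfold Lev; fun_prop

end Pool.Agent.Lib.MP_29d677_an
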