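import Pool.Agent.Lib.MP_29d677_an.Basic

/-!
Cut-off functions.
-/

namespace Pool.Agent.Lib.MP_29d677_an

open MeasureTheory Filter Topology Complex Metric
open scoped ContDiff ComplexConjugate

/-- A fixed bump function, equal to one on the unit ball and supported in the ball of radius 2. -/
noncomputable def b0 : ContDiffBump (0 : E) := ⟨1, 2, one_pos, one_lt_two⟩

/-- The rescaled cut-off function. -/
noncomputable def cut (R : ℝ) (c : E) : E → ℝ := fun z => b0 (R⁻¹ • (z - c))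

lemma test_b0 : Test (b0 : E → ℝ) := ⟨b0.contDiff, b0.hasCompactSupport⟩

lemma contDiff_cut (R : ℝ) (c : E) : ContDiff ℝ ∞ (cut R c) :=
  test_b0.sm.comp (by fun_prop)

lemma cut_nonneg (R : ℝ) (c z : E) : 0 ≤ cut R c z := b0.nonneg

lemma cut_le_one (R : ℝ) (c z : E) : cut R c z ≤ 1 := b0.le_one

lemma cut_eq_one {R : ℝ} (hR : 0 < R) {c z : E} (h : dist z c ≤ R) : cut R c z = 1 := by
  apply b0.one_of_mem_closedBall
  rw [mem_closedBall_zero_iff, norm_smul, norm_inv, Real.norm_of_nonneg hR.le, ← dist_eq_norm]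
  show _ ≤ (1 : ℝ)
  rwa [inv_mul_le_iff₀ hR, mul_one]

lemma cut_eq_zero {R : ℝ} (hR : 0 < R) {c z : E} (h : 2 * R ≤ dist z c) : cut R c z = 0 := by
  apply b0.zero_of_le_dist
  rw [dist_zero_right, norm_smul, norm_inv, Real.norm_of_nonneg hR.le, ← dist_eq_norm]
  show (2 : ℝ) ≤ _
  rwa [le_inv_mul_iff₀ hR, mul_comm]

lemma tsupport_cut {R : ℝ} (hR : 0 < R) (c : E) : tsupport (cut R c) ⊆ closedBall c (2 * R) := by
  refine closure_minimal (fun z hz => ?_) isClosed_closedBall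
  by_contra h
  exact hz (cut_eq_zero hR (not_le.1 h).le)

lemma test_cut {R : ℝ} (hR : 0 < R) (c : E) : Test (cut R c) :=
  ⟨contDiff_cut R c, (isCompact_closedBall c (2 * R)).of_isClosed_subset (isClosed_tsupport _)
    (tsupport_cut hR c)⟩

lemma D_cut (R : ℝ) (c v z : E) : D v (cut R c) z = R⁻¹ * D v b0 (R⁻¹ • (z - c)) := by
  have h1 := (diff_of test_b0.sm (R⁻¹ • (z - c))).hasFDerivAt
  have h2 : HasFDerivAt (fun z : E => R⁻¹ • (z - c)) (R⁻¹ • ContinuousLinearMap.id ℝ E) z :=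
    ((hasFDerivAt_id z).sub_const c).const_smul R⁻¹
  have h3 := (h1.comp z h2).fderiv
  show fderiv ℝ (b0 ∘ fun z : E => R⁻¹ • (z - c)) z v = _
  rw [h3]
  simp [D]

lemma D_eq_zero_of_eventually {F : Type*} [NormedAddCommGroup F] [NormedSpace ℝ F] {f : E → F}
    {z : E} {c : F} (h : ∀ᶠ x in 𝓝 z, f x = c) (v : E) : D v f z = 0 := by
  have : f =ᶠ[𝓝 z] fun _ => c := h
  simp [D, this.fderiv_eq]

lemma D_cut_eq_zero_near {R : ℝ} (hR : 0 < R) {c z : E} (h : dist z c < R) (v : E) :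
    D v (cut R c) z = 0 :=
  D_eq_zero_of_eventually (c := 1) (by
    filter_upwards [isOpen_ball.mem_nhds (show z ∈ ball c R from h)] with x hx
    exact cut_eq_one hR (le_of_lt hx)) v

lemma D_cut_eq_zero_far {R : ℝ} (hR : 0 < R) {c z : E} (h : 2 * R < dist z c) (v : E) :
    D v (cut R c) z = 0 :=
  D_eq_zero_of_eventually (c := 0) (by
    filter_upwards [isClosed_closedBall.isOpen_compl.mem_nhds
      (show z ∈ (closedBall c (2 * R))ᶜ from not_le.2 h)] with x hx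
    exact cut_eq_zero hR (not_le.1 (show ¬dist x c ≤ 2 * R from hx)).le) v

lemma Test.bdd {F : Type*} [NormedAddCommGroup F] [NormedSpace ℝ F] {f : E → F} (hf : Test f) :
    ∃ C, 0 ≤ C ∧ ∀ z, ‖f z‖ ≤ C := by
  obtain ⟨C, hC⟩ := hf.sm.continuous.bounded_above_of_compact_support hf.cs
  exact ⟨C, (norm_nonneg _).trans (hC 0), hC⟩

lemma exists_D_cut_bound (v : E) : ∃ C, 0 ≤ C ∧ ∀ (R : ℝ) (c z : E), 0 < R →
    |D v (cut R c) z| ≤ C / R := by
  obtain ⟨C, hC0, hC⟩ := (test_b0.D v).bdd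
  refine ⟨C, hC0, fun R c z hR => ?_⟩
  rw [D_cut, abs_mul, abs_inv, abs_of_pos hR, div_eq_inv_mul]
  exact mul_le_mul_of_nonneg_left (hC _) (by positivity)

lemma exists_db_cut_bound : ∃ C, 0 ≤ C ∧ ∀ (R : ℝ) (c z : E) (j : Fin 2), 0 < R →
    ‖db j (fun x => (cut R c x : ℂ)) z‖ ≤ C / R ∧ ‖dd j (fun x => (cut R c x : ℂ)) z‖ ≤ C / R := by
  choose C hC0 hC using exists_D_cut_bound
  refine ⟨∑ j : Fin 2, (C (ee j) + C (I • ee j)), Finset.sum_nonneg fun j _ => add_nonneg (hC0 _)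
    (hC0 _), fun R c z j hR => ?_⟩
  have h1 : C (ee j) + C (I • ee j) ≤ ∑ j : Fin 2, (C (ee j) + C (I • ee j)) :=
    Finset.single_le_sum (f := fun j => C (ee j) + C (I • ee j))
      (fun j _ => add_nonneg (hC0 _) (hC0 _)) (Finset.mem_univ j)
  have h2 : ‖D (ee j) (fun x => (cut R c x : ℂ)) z‖ + ‖I * D (I • ee j) (fun x => (cut R c x : ℂ)) z‖
      ≤ (∑ j : Fin 2, (C (ee j) + C (I • ee j))) / R := by
    rw [D_ofReal (contDiff_cut R c), D_ofReal (contDiff_cut R c), norm_mul, norm_I, one_mul,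
      Complex.norm_real, Complex.norm_real, Real.norm_eq_abs, Real.norm_eq_abs]
    calc _ ≤ C (ee j) / R + C (I • ee j) / R := add_le_add (hC _ R c z hR) (hC _ R c z hR)
      _ ≤ _ := by rw [← add_div]; gcongr
  exact ⟨(norm_add_le _ _).trans h2, (norm_sub_le _ _).trans h2⟩

end Pool.Agent.Lib.MP_29d677_an
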