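import Mathlib

/-!
Pluripotential theory on complex 2-space: definitions.
-/

namespace Pool.Agent.Lib.MP_29d677_an

open MeasureTheory Filter Topology
open scoped ContDiff

/-- Plurisubharmonic functions with values in `[-∞, ∞)`: upper semicontinuous, not identically
`-∞`, and with the sub-mean value property on every circle in every complex line (the mean of `u`
is the infimum over `c` of the means of the truncations `max u c`). -/
def IsPSH (u : (Fin 2 → ℂ) → EReal) : Prop :=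
  UpperSemicontinuous u ∧ (∀ z, u z ≠ ⊤) ∧ (∃ z, u z ≠ ⊥) ∧
    ∀ (a b : Fin 2 → ℂ) (c : ℝ),
      u a ≤ ((Real.circleAverage (fun w : ℂ => (max (u (a + w • b)) c).toReal) 0 1 : ℝ) : EReal)

/-- The Lelong class: plurisubharmonic with `u z - log |z|` bounded above near infinity. -/
def InLelong (u : (Fin 2 → ℂ) → EReal) : Prop :=
  IsPSH u ∧ ∃ C R : ℝ, ∀ z, R ≤ ‖z‖ → u z ≤ ((Real.log ‖z‖ + C : ℝ) : EReal)

/-- The weighted extremal function `V_{K,Q}`. -/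
noncomputable def Vext (K : Set (Fin 2 → ℂ)) (Q : (Fin 2 → ℂ) → ℝ) (z : Fin 2 → ℂ) : EReal :=
  ⨆ (u : (Fin 2 → ℂ) → EReal) (_ : InLelong u) (_ : ∀ x ∈ K, u x ≤ (Q x : EReal)), u z

/-- The upper semicontinuous regularization `V_{K,Q}^*`. -/
noncomputable def Vstar (K : Set (Fin 2 → ℂ)) (Q : (Fin 2 → ℂ) → ℝ) (z : Fin 2 → ℂ) : EReal :=
  limsup (Vext K Q) (𝓝 z)

/-- `g` is the weak (distributional) derivative of `u` in the real direction `v`. -/
def IsWeakDeriv (u g : (Fin 2 → ℂ) → ℝ) (v : Fin 2 → ℂ) : Prop :=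
  LocallyIntegrable u ∧ LocallyIntegrable g ∧
    ∀ ψ : (Fin 2 → ℂ) → ℝ, ContDiff ℝ ∞ ψ → HasCompactSupport ψ →
      ∫ z, u z * fderiv ℝ ψ z v = -∫ z, g z * ψ z

/-- `f n → F` in `L^2` of every compact set (all functions with `n ≥ 1` being locally in `L^2`). -/
def TendstoL2loc (f : ℕ → (Fin 2 → ℂ) → ℝ) (F : (Fin 2 → ℂ) → ℝ) : Prop :=
  ∀ L : Set (Fin 2 → ℂ), IsCompact L →
    (∀ n, 1 ≤ n → MemLp (f n) 2 (volume.restrict L)) ∧ MemLp F 2 (volume.restrict L) ∧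
      Tendsto (fun n => eLpNorm (f n - F) 2 (volume.restrict L)) atTop (𝓝 0)

/-- `u n → U` in `W^{1,2}_{loc}`: convergence in `L^2_{loc}` of the functions and of their weak
derivatives in every real direction. -/
def TendstoW12loc (u : ℕ → (Fin 2 → ℂ) → ℝ) (U : (Fin 2 → ℂ) → ℝ) : Prop :=
  TendstoL2loc u U ∧ ∀ v : Fin 2 → ℂ, ∃ (g : ℕ → (Fin 2 → ℂ) → ℝ) (G : (Fin 2 → ℂ) → ℝ),
    (∀ n, 1 ≤ n → IsWeakDeriv (u n) (g n) v) ∧ IsWeakDeriv U G v ∧ TendstoL2loc g G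

/-- The multi-indices `ν` with `|ν| ≤ n`. -/
def idx (n : ℕ) : Finset (ℕ × ℕ) :=
  (Finset.range (n + 1) ×ˢ Finset.range (n + 1)).filter fun ν => ν.1 + ν.2 ≤ n

end Pool.Agent.Lib.MP_29d677_an
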