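import Pool.Agent.Lib.MP_29d677_an.Loc

/-!
The deterministic part of the convergence theorem.
-/

namespace Pool.Agent.Lib.MP_29d677_an

open MeasureTheory Filter Topology Complex Metric
open scoped ContDiff ComplexConjugate Real ENNReal

lemma log_sq_le {x : ℝ} (hx : 0 ≤ x) : Real.log (1 + x ^ 2) ^ 2 ≤ 16 * x := by
  set t := Real.sqrt x with ht
  have ht0 : 0 ≤ t := Real.sqrt_nonneg _
  have e : x = t ^ 2 := (Real.sq_sqrt hx).symm
  have h1 : Real.log (1 + x ^ 2) ≤ 4 * t := by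
    calc _ ≤ Real.log ((1 + t) ^ 4) := by
          refine Real.log_le_log (by positivity) ?_
          rw [e]; nlinarith [pow_nonneg ht0 2, pow_nonneg ht0 3]
      _ = 4 * Real.log (1 + t) := by rw [Real.log_pow]; norm_num
      _ ≤ _ := by linarith [Real.log_le_sub_one_of_pos (show 0 < 1 + t by positivity)]
  have h0 : 0 ≤ Real.log (1 + x ^ 2) := Real.log_nonneg (by nlinarith)
  calc _ ≤ (4 * t) ^ 2 := by gcongr
    _ = _ := by rw [e]; ring

lemma Hol.D_coord {f : E → ℂ} (hf : Hol f) (v z : E) : MP_29d677_an.D v f z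
    = v 0 * MP_29d677_an.D (ee 0) f z + v 1 * MP_29d677_an.D (ee 1) f z := by
  have e : v = v 0 • ee 0 + v 1 • ee 1 := by
    ext i; fin_cases i <;> simp [ee]
  simp only [hf.D_eq]
  conv_lhs => rw [e]
  simp

lemma D_SS_sq_le {ι : Type*} {s : Finset ι} {f : ι → E → ℂ} (hf : ∀ i ∈ s, Hol (f i)) (v z : E) :
    D v (SS s f) z ^ 2 ≤ 4 * (SS s f z * SS s (fun i => D v (f i)) z) := by
  nlinarith [D_SS_sq hf z v, AA_sq_le (s := s) (f := f) v z, sq_nonneg (D (I • v) (SS s f) z)]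

lemma sum_mul_sq_le {ι : Type*} (s : Finset ι) (a : ι → ℂ) (f : ι → E → ℂ) (z : E) :
    ‖∑ i ∈ s, a i * f i z‖ ^ 2 ≤ (∑ i ∈ s, ‖a i‖ ^ 2) * SS s f z := by
  refine le_trans ?_ (Finset.sum_mul_sq_le_sq_mul_sq s (fun i => ‖a i‖) fun i => ‖f i z‖)
  gcongr
  refine (norm_sum_le _ _).trans (le_of_eq ?_)
  simp

lemma T0_D_of_En {w : ℕ → E → ℝ} (hw : ∀ n, ContDiff ℝ ∞ (w n)) (v : E)
    (h : ∀ k : ℕ, ∃ e : ℕ → ℝ, Tendsto e atTop (𝓝 0) ∧ ∀ᶠ n in atTop,
      En (fun z => cut (k + 1) 0 z * cut (k + 1) 0 z) v (w n) (w n) ≤ e n) :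
    T0 fun n => D v (w n) := fun k => by
  obtain ⟨e, he, h⟩ := h k
  refine tendsto_of_tendsto_of_tendsto_of_le_of_le' tendsto_const_nhds
    (by simpa using ENNReal.tendsto_ofReal he.sqrt) (Eventually.of_forall fun _ => bot_le) ?_
  filter_upwards [h] with n hn
  exact eLp_D_le k (hw n) v (Real.sqrt_nonneg _) (hn.trans (by
    rw [Real.sq_sqrt']; exact le_max_left _ _))

namespace Data
variable {ι : Type} (d : Data ι) (n : ℕ) (a : Fin 2 → ι → ℂ)

/-- The components of the polynomial map. -/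
noncomputable def H (j : Fin 2) : E → ℂ := fun z => ∑ i ∈ d.s n, a j i * d.P n i z

/-- The squared norm of the polynomial map. -/
noncomputable def S : E → ℝ := SS Finset.univ (d.H n a)

/-- The squared norm of the coefficients. -/
noncomputable def A : ℝ := ∑ j, ∑ i ∈ d.s n, ‖a j i‖ ^ 2

/-- The normalized logarithm of the norm of the map. -/
noncomputable def u : E → ℝ := fun z => (2 * (n : ℝ))⁻¹ * Real.log (d.S n a z)

/-- Its derivative. -/
noncomputable def g (v : E) : E → ℝ := fun z => (2 * (n : ℝ))⁻¹ * (D v (d.S n a) z / d.S n a z)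

/-- The regularization. -/
noncomputable def ud (σ : ℝ) : E → ℝ :=
  fun z => (2 * (n : ℝ))⁻¹ * Real.log (d.S n a z + σ ^ 2 * d.B n z)

/-- The sum of squares of derivatives of the basis. -/
noncomputable def Bv (v : E) : E → ℝ := SS (d.s n) fun i => D v (d.P n i)

/-- The weight in the remainder estimate. -/
noncomputable def T : E → ℝ := fun z => 1 + (d.Bv n (ee 0) z + d.Bv n (ee 1) z) / d.B n z

/-- The singular factor in the remainder estimate. -/
noncomputable def Y : E → ℝ≥0∞ := fun z => (ENNReal.ofReal √(d.S n a z / d.B n z))⁻¹ ^ 3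

/-- The random quantity controlling the remainder. -/
noncomputable def Z (k : ℕ) : ℝ≥0∞ := ∫⁻ z, ENNReal.ofReal (d.T n z) * (1 + d.Y n a z) ∂mu k

lemma hol_H (j : Fin 2) : Hol (d.H n a j) :=
  ContDiff.sum fun i hi => contDiff_const.mul (d.hol_P n i hi)

lemma contDiff_S : ContDiff ℝ ∞ (d.S n a) := contDiff_SS fun j _ => d.hol_H n a j

lemma S_nonneg (z : E) : 0 ≤ d.S n a z := SS_nonneg z

lemma A_nonneg : 0 ≤ d.A n a := by unfold A; positivity

lemma Bv_nonneg (v z : E) : 0 ≤ d.Bv n v z := SS_nonneg z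

lemma contDiff_Bv (v : E) : ContDiff ℝ ∞ (d.Bv n v) :=
  contDiff_SS fun i hi => (d.hol_P n i hi).D v

lemma one_le_T (z : E) : 1 ≤ d.T n z := by
  have := d.B_pos n z
  have := d.Bv_nonneg n (ee 0) z
  have := d.Bv_nonneg n (ee 1) z
  exact le_add_of_nonneg_right (by positivity)

lemma contDiff_T : ContDiff ℝ ∞ (d.T n) :=
  contDiff_const.add (((d.contDiff_Bv n _).add (d.contDiff_Bv n _)).div (d.contDiff_B n)
    fun z => (d.B_pos n z).ne')

lemma S_le (z : E) : d.S n a z ≤ d.A n a * d.B n z := by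
  rw [A, Finset.sum_mul, S, SS]
  exact Finset.sum_le_sum fun j _ => sum_mul_sq_le (d.s n) (a j) (d.P n) z

lemma Sv_le (v z : E) :
    SS Finset.univ (fun j => D v (d.H n a j)) z ≤ d.A n a * d.Bv n v z := by
  rw [A, Finset.sum_mul]
  refine Finset.sum_le_sum fun j _ => le_trans (le_of_eq ?_) (sum_mul_sq_le _ _ _ z)
  show ‖D v (fun z => ∑ i ∈ d.s n, a j i * d.P n i z) z‖ ^ 2 = _
  rw [D_sum _ fun i hi => contDiff_const.mul (d.hol_P n i hi).sm]
  congr 2
  exact Finset.sum_congr rfl fun i hi => D_const_mul _ (d.hol_P n i hi).sm v z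

lemma Bv_le (v z : E) : d.Bv n v z ≤ 2 * ‖v‖ ^ 2 * d.T n z * d.B n z := by
  have hB := d.B_pos n z
  have h : d.Bv n v z ≤ 2 * ‖v‖ ^ 2 * (d.Bv n (ee 0) z + d.Bv n (ee 1) z) := by
    simp only [Bv, SS, ← Finset.sum_add_distrib, Finset.mul_sum]
    refine Finset.sum_le_sum fun i hi => ?_
    rw [(d.hol_P n i hi).D_coord v z]
    have h1 : ‖v 0 * D (ee 0) (d.P n i) z + v 1 * D (ee 1) (d.P n i) z‖
        ≤ ‖v‖ * ‖D (ee 0) (d.P n i) z‖ + ‖v‖ * ‖D (ee 1) (d.P n i) z‖ := by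
      refine (norm_add_le _ _).trans ?_
      rw [norm_mul, norm_mul]
      gcongr <;> exact norm_le_pi_norm v _
    refine (pow_le_pow_left₀ (norm_nonneg _) h1 2).trans ?_
    nlinarith [sq_nonneg (‖v‖ * ‖D (ee 0) (d.P n i) z‖ - ‖v‖ * ‖D (ee 1) (d.P n i) z‖)]
  refine h.trans ?_
  rw [T, mul_assoc (2 * ‖v‖ ^ 2), add_mul, div_mul_cancel₀ _ hB.ne']
  exact mul_le_mul_of_nonneg_left (by linarith) (by positivity)

variable {σ : ℝ}

lemma Sd_pos (hσ : 0 < σ) (z : E) : 0 < d.S n a z + σ ^ 2 * d.B n z := by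
  have := d.B_pos n z
  have := d.S_nonneg n a z
  positivity

lemma contDiff_Sd : ContDiff ℝ ∞ fun z => d.S n a z + σ ^ 2 * d.B n z :=
  (d.contDiff_S n a).add (contDiff_const.mul (d.contDiff_B n))

lemma contDiff_ud (hσ : 0 < σ) : ContDiff ℝ ∞ (d.ud n a σ) :=
  contDiff_const.mul (contDiff_log (d.contDiff_Sd n a) (d.Sd_pos n a hσ))

lemma Lev_ud_nonneg (hσ : 0 < σ) (z v : E) : 0 ≤ Lev (d.ud n a σ) z v := by
  unfold ud
  rw [Lev_const_mul _ (contDiff_log (d.contDiff_Sd n a) (d.Sd_pos n a hσ))]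
  refine mul_nonneg (by positivity) ?_
  have e : ∀ x, d.S n a x + σ ^ 2 * d.B n x = SS (Finset.univ.disjSum (d.s n))
      (Sum.elim (d.H n a) fun i x => σ * d.P n i x) x := fun x => by
    simp [SS, Finset.sum_disjSum, S, B, Finset.mul_sum, mul_pow]
  simp only [e]
  refine Lev_log_SS_nonneg ?_ (fun x => e x ▸ d.Sd_pos n a hσ x) z v
  rintro (j | i) hi
  · exact d.hol_H n a j
  · exact contDiff_const.mul (hol_eval _)

lemma ud_sub_rho (hσ : 0 < σ) (hσ1 : σ ≤ 1) (z : E) : |d.ud n a σ z - d.rho n z|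
    ≤ (2 * (n : ℝ))⁻¹ * (-2 * Real.log σ + Real.log (d.A n a + 1)) := by
  have hB := d.B_pos n z
  have hA := d.A_nonneg n a
  have h1 : Real.log σ ≤ 0 := Real.log_nonpos hσ.le hσ1
  have h2 : 0 ≤ Real.log (d.A n a + 1) := Real.log_nonneg (by linarith)
  have h3 : Real.log (σ ^ 2 * d.B n z) ≤ Real.log (d.S n a z + σ ^ 2 * d.B n z) :=
    Real.log_le_log (by positivity) (by linarith [d.S_nonneg n a z])
  have h4 : Real.log (d.S n a z + σ ^ 2 * d.B n z) ≤ Real.log ((d.A n a + 1) * d.B n z) :=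
    Real.log_le_log (d.Sd_pos n a hσ z) (by
      nlinarith [d.S_le n a z, mul_le_mul_of_nonneg_right (pow_le_one₀ hσ.le hσ1 (n := 2)) hB.le])
  rw [Real.log_mul (by positivity) hB.ne', Real.log_pow] at h3
  rw [Real.log_mul (by positivity) hB.ne'] at h4
  rw [ud, rho, ← mul_sub, abs_mul, abs_of_nonneg (by positivity)]
  gcongr
  push_cast at h3
  exact abs_le.2 ⟨by linarith, by linarith⟩

variable {n}

lemma rem_real (hn : 1 ≤ n) (hσ : 0 < σ) (v : E) {z : E} (hz : d.S n a z ≠ 0) :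
    (d.u n a z - d.ud n a σ z) ^ 2 ≤ 16 * σ * (d.T n z * (1 + (√(d.S n a z / d.B n z))⁻¹ ^ 3)) ∧
    (d.g n a v z - D v (d.ud n a σ) z) ^ 2 ≤ 8 * ‖v‖ ^ 2 * d.A n a * σ
      * (d.T n z * (1 + (√(d.S n a z / d.B n z))⁻¹ ^ 3)) := by
  have hB := d.B_pos n z
  have hS : 0 < d.S n a z := lt_of_le_of_ne (d.S_nonneg n a z) hz.symm
  have hT := d.one_le_T n z
  have hA := d.A_nonneg n a
  set r := √(d.S n a z / d.B n z) with hr
  have hr0 : 0 < r := Real.sqrt_pos.2 (by positivity)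
  have e : d.S n a z = r ^ 2 * d.B n z := by
    rw [hr, Real.sq_sqrt (by positivity)]; field_simp
  have hc : (2 * (n : ℝ))⁻¹ ^ 2 ≤ 1 / 4 := by
    have : (1 : ℝ) ≤ n := by exact_mod_cast hn
    rw [inv_pow, one_div]
    exact inv_anti₀ (by norm_num) (by nlinarith)
  constructor
  · have h1 : Real.log (d.S n a z + σ ^ 2 * d.B n z)
        = Real.log (d.S n a z) + Real.log (1 + (σ / r) ^ 2) := by
      rw [← Real.log_mul hz (by positivity), e]; congr 1; field_simp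
    have h2 := log_sq_le (x := σ / r) (by positivity)
    have h3 : r⁻¹ ≤ 1 + r⁻¹ ^ 3 := by
      have : 0 < r⁻¹ := by positivity
      nlinarith [sq_nonneg (r⁻¹ - 1), mul_nonneg this.le (sq_nonneg (r⁻¹ - 1))]
    rw [u, ud, h1]
    calc _ = (2 * (n : ℝ))⁻¹ ^ 2 * Real.log (1 + (σ / r) ^ 2) ^ 2 := by ring
      _ ≤ 1 * (16 * (σ / r)) := by gcongr; linarith
      _ = 16 * σ * (1 * r⁻¹) := by ring
      _ ≤ _ := by gcongr
  · have hp := d.Sd_pos n a hσ
    have h1 : D v (d.ud n a σ) z = (2 * (n : ℝ))⁻¹ * ((D v (d.S n a) z + σ ^ 2 * D v (d.B n) z)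
        / (d.S n a z + σ ^ 2 * d.B n z)) := by
      unfold ud
      rw [D_const_mul _ (contDiff_log (d.contDiff_Sd n a) hp), D_log (d.contDiff_Sd n a) v z
        (hp z).ne', D_add (d.contDiff_S n a) (contDiff_const.mul (d.contDiff_B n)),
        D_const_mul _ (d.contDiff_B n)]
    have h2 : D v (d.S n a) z ^ 2 ≤ 4 * (d.S n a z * (d.A n a * d.Bv n v z)) :=
      (D_SS_sq_le (fun j _ => d.hol_H n a j) v z).trans (by
        have := d.Sv_le n a v z
        change 4 * (d.S n a z * _) ≤ _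
        gcongr)
    have h3 : D v (d.B n) z ^ 2 ≤ 4 * (d.B n z * d.Bv n v z) := D_SS_sq_le (d.hol_P n) v z
    have h4 := d.S_le n a z
    have h5 := d.Bv_le n v z
    have h6 := d.Bv_nonneg n v z
    rw [g, h1]
    have h9 := (hp z).ne'
    set S' := D v (d.S n a) z
    set B' := D v (d.B n) z
    set S := d.S n a z
    set B := d.B n z
    set A := d.A n a
    set W := d.Bv n v z
    have h7 : (S' * B - S * B') ^ 2 ≤ 16 * S * A * W * B ^ 2 := by
      have a1 : S' ^ 2 * B ^ 2 ≤ 4 * (S * (A * W)) * B ^ 2 := by gcongr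
      have a2 : S * S * B' ^ 2 ≤ S * (A * B) * (4 * (B * W)) := by gcongr
      nlinarith [sq_nonneg (S' * B + S * B')]
    have h8 : σ ^ 4 / (r ^ 2 * (r ^ 2 + σ ^ 2) ^ 2) ≤ σ * r⁻¹ ^ 3 := by
      rw [inv_pow, ← div_eq_mul_inv, div_le_div_iff₀ (by positivity) (by positivity)]
      have : σ ^ 3 * r ≤ (r ^ 2 + σ ^ 2) ^ 2 := by
        nlinarith [mul_nonneg (sq_nonneg σ) (sq_nonneg (r - σ)), mul_pos hr0 (pow_pos hσ 3),
          mul_nonneg (sq_nonneg r) (sq_nonneg σ), pow_pos hr0 4]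
      nlinarith [mul_le_mul_of_nonneg_left this (show 0 ≤ σ * r ^ 2 by positivity)]
    calc _ = (2 * (n : ℝ))⁻¹ ^ 2 * (σ ^ 4 * (S' * B - S * B') ^ 2
          / (S ^ 2 * (S + σ ^ 2 * B) ^ 2)) := by
          field_simp; ring
      _ ≤ 1 / 4 * (σ ^ 4 * (16 * S * A * (2 * ‖v‖ ^ 2 * d.T n z * B) * B ^ 2)
          / (S ^ 2 * (S + σ ^ 2 * B) ^ 2)) := by
          gcongr
          exact h7.trans (by gcongr)
      _ = 8 * ‖v‖ ^ 2 * A * d.T n z * (σ ^ 4 / (r ^ 2 * (r ^ 2 + σ ^ 2) ^ 2)) := by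
          rw [e]; field_simp; ring
      _ ≤ 8 * ‖v‖ ^ 2 * A * d.T n z * (σ * (1 + r⁻¹ ^ 3)) := by
          gcongr
          exact h8.trans (by gcongr; linarith)
      _ = _ := by ring

lemma measurable_Y : Measurable (d.Y n a) :=
  ((((d.contDiff_S n a).continuous.measurable.div
    (d.contDiff_B n).continuous.measurable).sqrt.ennreal_ofReal).inv).pow_const 3

lemma ae_S_ne {k : ℕ} (hZ : d.Z n a k ≠ ⊤) : ∀ᵐ z ∂mu k, d.S n a z ≠ 0 := by
  filter_upwards [ae_lt_top ((d.contDiff_T n).continuous.measurable.ennreal_ofReal.mul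
    (measurable_const.add (d.measurable_Y a))) hZ] with z hz h0
  have : ENNReal.ofReal (d.T n z) ≠ 0 := by simpa using one_pos.trans_le (d.one_le_T n z)
  simp [Y, h0, ENNReal.mul_top this] at hz

lemma rem_le (hn : 1 ≤ n) (hσ : 0 < σ) (v : E) {k : ℕ} (hZ : d.Z n a k ≠ ⊤) :
    eLpNorm (d.u n a - d.ud n a σ) 2 (mu k)
      ≤ (ENNReal.ofReal (16 * σ) * d.Z n a k) ^ (1 / 2 : ℝ) ∧
    eLpNorm (d.g n a v - D v (d.ud n a σ)) 2 (mu k)
      ≤ (ENNReal.ofReal (8 * ‖v‖ ^ 2 * d.A n a * σ) * d.Z n a k) ^ (1 / 2 : ℝ) := by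
  have key : ∀ z, d.S n a z ≠ 0 → ∀ x c : ℝ, 0 ≤ c →
      x ≤ c * (d.T n z * (1 + (√(d.S n a z / d.B n z))⁻¹ ^ 3)) →
      ENNReal.ofReal x ≤ ENNReal.ofReal c * (ENNReal.ofReal (d.T n z) * (1 + d.Y n a z)) := by
    intro z hz x c hc h
    have hB := d.B_pos n z
    have hS : 0 < d.S n a z := lt_of_le_of_ne (d.S_nonneg n a z) hz.symm
    have hr0 : 0 < √(d.S n a z / d.B n z) := Real.sqrt_pos.2 (by positivity)
    refine (ENNReal.ofReal_le_ofReal h).trans (le_of_eq ?_)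
    rw [ENNReal.ofReal_mul hc, ENNReal.ofReal_mul (zero_le_one.trans (d.one_le_T n z)),
      ENNReal.ofReal_add zero_le_one (by positivity), ENNReal.ofReal_one,
      ENNReal.ofReal_pow (by positivity), ENNReal.ofReal_inv_of_pos hr0, Y]
  have := d.A_nonneg n a
  exact ⟨eLp_le_of_sq ((d.ae_S_ne a hZ).mono fun z hz =>
      key z hz _ _ (by positivity) (d.rem_real a hn hσ v hz).1),
    eLp_le_of_sq ((d.ae_S_ne a hZ).mono fun z hz =>
      key z hz _ _ (by positivity) (d.rem_real a hn hσ v hz).2)⟩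

lemma measurable_u : Measurable (d.u n a) :=
  (d.contDiff_S n a).continuous.measurable.log.const_mul _

lemma measurable_g (v : E) : Measurable (d.g n a v) :=
  ((contDiff_D (d.contDiff_S n a) v).continuous.measurable.div
    (d.contDiff_S n a).continuous.measurable).const_mul _

lemma l2b_ug (hn : 1 ≤ n) (hZ : ∀ k, d.Z n a k ≠ ⊤) (v : E) :
    L2b (d.u n a) ∧ L2b (d.g n a v) := by
  have c1 := (d.contDiff_ud n a one_pos).continuous
  have c2 := (contDiff_D (d.contDiff_ud n a one_pos) v).continuous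
  have t : ∀ (c : ℝ) (k : ℕ), (ENNReal.ofReal c * d.Z n a k) ^ (1 / 2 : ℝ) < ⊤ := fun c k =>
    ENNReal.rpow_lt_top_of_nonneg (by norm_num) (ENNReal.mul_ne_top ENNReal.ofReal_ne_top (hZ k))
  have h1 : L2b (d.u n a - d.ud n a 1) := fun k =>
    ⟨((d.measurable_u a).sub c1.measurable).aestronglyMeasurable,
      (d.rem_le a hn one_pos v (hZ k)).1.trans_lt (t _ _)⟩
  have h2 : L2b (d.g n a v - D v (d.ud n a 1)) := fun k =>
    ⟨((d.measurable_g a v).sub c2.measurable).aestronglyMeasurable,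
      (d.rem_le a hn one_pos v (hZ k)).2.trans_lt (t _ _)⟩
  exact ⟨by simpa using h1.add (L2b.of_continuous c1), by simpa using h2.add (L2b.of_continuous c2)⟩

lemma tendsto_rpow_half {x : ℕ → ℝ≥0∞} (h : Tendsto x atTop (𝓝 0)) :
    Tendsto (fun n => x n ^ (1 / 2 : ℝ)) atTop (𝓝 0) := by
  simpa using h.ennrpow_const (1 / 2 : ℝ)

lemma weakDeriv_u (hn : 1 ≤ n) (hZ : ∀ k, d.Z n a k ≠ ⊤) (v : E) :
    IsWeakDeriv (d.u n a) (d.g n a v) v := by
  have hp : ∀ j : ℕ, (0 : ℝ) < 1 / ((j : ℝ) + 1) := fun j => by positivity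
  have t : ∀ (c : ℝ) (k : ℕ), Tendsto (fun j : ℕ => (ENNReal.ofReal (c * (1 / ((j : ℝ) + 1)))
      * d.Z n a k) ^ (1 / 2 : ℝ)) atTop (𝓝 0) := fun c k => tendsto_rpow_half (by
    simpa using ENNReal.Tendsto.mul_const (ENNReal.tendsto_ofReal
      (tendsto_one_div_add_atTop_nhds_zero_nat.const_mul c)) (Or.inr (hZ k)))
  refine isWeakDeriv_limit (fun j => d.contDiff_ud n a (hp j)) (d.l2b_ug a hn hZ v).1
    (d.l2b_ug a hn hZ v).2 (fun k => ?_) fun k => ?_
  · refine tendsto_of_tendsto_of_tendsto_of_le_of_le tendsto_const_nhds (t _ k) (fun _ => bot_le)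
      fun j => le_trans (le_of_eq ?_) (d.rem_le a hn (hp j) v (hZ k)).1
    rw [← eLpNorm_neg, neg_sub]
  · refine tendsto_of_tendsto_of_tendsto_of_le_of_le tendsto_const_nhds (t _ k) (fun _ => bot_le)
      fun j => le_trans (le_of_eq ?_) (d.rem_le a hn (hp j) v (hZ k)).2
    rw [← eLpNorm_neg, neg_sub]

theorem det_main (a : ℕ → Fin 2 → ι → ℂ) {L : ℕ → ℝ} (hL1 : ∀ n, 1 ≤ L n)
    (hL : Tendsto L atTop atTop) (hL' : Tendsto (fun n => Real.log (L n) / n) atTop (𝓝 0))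
    (hA : ∀ᶠ n in atTop, d.A n (a n) ≤ L n) (hZ1 : ∀ n, 1 ≤ n → ∀ k, d.Z n (a n) k ≠ ⊤)
    (hZ2 : ∀ k, ∀ᶠ n in atTop, d.Z n (a n) k ≤ ENNReal.ofReal (L n)) :
    TendstoW12loc (fun n => d.u n (a n)) fun z => (Vstar d.K d.Q z).toReal := by
  have hW : d.W =ᵐ[volume] fun z => (Vstar d.K d.Q z).toReal :=
    d.Vstar_eq_W.mono fun z hz => by simp [hz]
  have hp : ∀ n, 0 < (L n)⁻¹ ^ 3 := fun n => by have := hL1 n; positivity
  have hp1 : ∀ n, (L n)⁻¹ ^ 3 ≤ 1 := fun n =>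
    pow_le_one₀ (by have := hL1 n; positivity) (inv_le_one_of_one_le₀ (hL1 n))
  set w := fun n => d.ud n (a n) ((L n)⁻¹ ^ 3) with hw
  have sw : ∀ n, ContDiff ℝ ∞ (w n) := fun n => d.contDiff_ud n (a n) (hp n)
  set c := fun n : ℕ => 4 * (Real.log (L n) / n) + 1 / (n : ℝ) with hc
  have hc0 : Tendsto c atTop (𝓝 0) := by
    simpa [hc] using (hL'.const_mul 4).add tendsto_one_div_atTop_nhds_zero_nat
  have hwc : ∀ᶠ n in atTop, ∀ z, |w n z - d.rho n z| ≤ c n := by
    filter_upwards [hA, eventually_ge_atTop 1] with n h1 hn z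
    refine (d.ud_sub_rho n (a n) (hp n) (hp1 n) z).trans ?_
    have a0 := hL1 n
    have a1 : Real.log (d.A n (a n) + 1) ≤ Real.log (L n * 2) :=
      Real.log_le_log (by linarith [d.A_nonneg n (a n)]) (by linarith)
    have a2 := Real.log_nonneg a0
    have a3 : Real.log 2 ≤ 1 := by linarith [Real.log_le_sub_one_of_pos (show (0 : ℝ) < 2 by norm_num)]
    rw [Real.log_mul (by positivity) two_ne_zero] at a1
    have hn' : (0 : ℝ) < n := by positivity
    rw [Real.log_pow, Real.log_inv, inv_mul_le_iff₀ (by positivity), hc]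
    field_simp
    push_cast
    linarith
  have t : ∀ (C : ℝ) (k : ℕ) (x : ℕ → ℝ≥0∞) (y : ℕ → ℝ), 0 ≤ C →
      (∀ᶠ n in atTop, y n ≤ C * L n) → (∀ n, 1 ≤ n → x n ≤ (ENNReal.ofReal (y n * (L n)⁻¹ ^ 3)
      * d.Z n (a n) k) ^ (1 / 2 : ℝ)) → Tendsto x atTop (𝓝 0) := by
    intro C k x y hC hy hx
    refine tendsto_of_tendsto_of_tendsto_of_le_of_le' tendsto_const_nhds (tendsto_rpow_half
      (x := fun n => ENNReal.ofReal (C * (L n)⁻¹)) (by
        simpa using ENNReal.tendsto_ofReal (hL.inv_tendsto_atTop.const_mul C)))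
      (Eventually.of_forall fun _ => bot_le) ?_
    filter_upwards [hy, hZ2 k, eventually_ge_atTop 1] with n h1 h2 hn
    refine (hx n hn).trans ?_
    have a0 := hL1 n
    gcongr 1
    calc _ ≤ ENNReal.ofReal (C * L n * (L n)⁻¹ ^ 3) * ENNReal.ofReal (L n) := by gcongr
      _ = _ := by
        rw [← ENNReal.ofReal_mul (by positivity)]; congr 1; field_simp
  have l1 : ∀ v, ∀ n, 1 ≤ n → L2b (d.u n (a n)) ∧ L2b (d.g n (a n) v) :=
    fun v n hn => d.l2b_ug (a n) hn (hZ1 n hn) v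
  have lw : ∀ n, L2b (w n) := fun n => L2b.of_continuous (sw n).continuous
  have lr : ∀ n, L2b (d.rho n) := fun n => L2b.of_continuous (d.contDiff_rho n).continuous
  refine ⟨tendstoL2loc_of (fun n hn => (l1 0 n hn).1) (d.lb_W.l2b.congr hW) ?_, fun v => ?_⟩
  · have b1 : T0 fun n => d.u n (a n) - w n := fun k => t 16 k _ (fun _ => 16) (by norm_num)
      (Eventually.of_forall fun n => by linarith [hL1 n]) fun n hn =>
      (d.rem_le (a n) hn (hp n) 0 (hZ1 n hn k)).1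
    have b2 : T0 fun n => w n - d.rho n := T0_of_unif hc0 hwc
    have e1 : ∀ᶠ n in atTop, L2b (d.u n (a n) - w n) :=
      (eventually_ge_atTop 1).mono fun n hn => (l1 0 n hn).1.sub (lw n)
    refine ((b1.add b2 e1 (Eventually.of_forall fun n => (lw n).sub (lr n))).add d.T0_rho
      (e1.mono fun n hn => hn.add ((lw n).sub (lr n)))
      (Eventually.of_forall fun n => (lr n).sub d.lb_W.l2b)).congr fun n => ?_
    filter_upwards [hW] with z hz
    simp [hz]
  · obtain ⟨G, hG, hG'⟩ := d.exists_D_rho_limit v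
    have lw' : ∀ n, L2b (D v (w n)) := fun n => L2b.of_continuous (contDiff_D (sw n) v).continuous
    have lr' : ∀ n, L2b (D v (d.rho n)) :=
      fun n => L2b.of_continuous (contDiff_D (d.contDiff_rho n) v).continuous
    refine ⟨fun n => d.g n (a n) v, G, fun n hn => d.weakDeriv_u (a n) hn (hZ1 n hn) v,
      isWeakDeriv_limit d.contDiff_rho (d.lb_W.l2b.congr hW) hG (d.T0_rho.congr fun n =>
        EventuallyEq.rfl.sub hW) hG', tendstoL2loc_of (fun n hn => (l1 v n hn).2) hG ?_⟩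
    have b1 : T0 fun n => d.g n (a n) v - D v (w n) := fun k => t (8 * ‖v‖ ^ 2) k _
      (fun n => 8 * ‖v‖ ^ 2 * d.A n (a n)) (by positivity)
      (hA.mono fun n hn => by gcongr) fun n hn => (d.rem_le (a n) hn (hp n) v (hZ1 n hn k)).2
    have b2 : T0 fun n => D v (w n) - D v (d.rho n) := by
      refine (T0_D_of_En (fun n => (sw n).sub (d.contDiff_rho n)) v fun k => ?_).congr
        fun n => Eventually.of_forall fun z => D_sub (sw n) (d.contDiff_rho n) v z
      have hη : Test (cut (k + 1) 0) := test_cut (by positivity) 0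
      obtain ⟨R, hR⟩ := exists_radius_sq hη v
      obtain ⟨M, hM0, hM⟩ := d.rho_abs_bdd R
      refine ⟨fun n => (2 * c n * (M + 1) + c n ^ 2 / 2)
        * ∫ z, |Lev (fun z => cut (k + 1) 0 z * cut (k + 1) 0 z) z v|, by
          simpa using ((((hc0.const_mul 2).mul_const (M + 1)).add
            ((hc0.pow 2).div_const 2)).mul_const _), ?_⟩
      filter_upwards [hwc, hM, hc0.eventually (gt_mem_nhds one_pos)] with n h1 h2 h3
      refine En_close (hη.mul_right hη.sm) v (fun z => mul_self_nonneg _)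
        ((abs_nonneg _).trans (h1 0)) hR (sw n) (d.contDiff_rho n)
        (fun z => d.Lev_ud_nonneg n (a n) (hp n) z v) (fun z => d.Lev_rho_nonneg n z v)
        (fun z hz => ?_) (fun z hz => by linarith [h2 z hz]) fun z _ => h1 z
      linarith [abs_sub_abs_le_abs_sub (w n z) (d.rho n z), h1 z, h2 z hz]
    have e1 : ∀ᶠ n in atTop, L2b (d.g n (a n) v - D v (w n)) :=
      (eventually_ge_atTop 1).mono fun n hn => (l1 v n hn).2.sub (lw' n)
    refine ((b1.add b2 e1 (Eventually.of_forall fun n => (lw' n).sub (lr' n))).add hG'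
      (e1.mono fun n hn => hn.add ((lw' n).sub (lr' n)))
      (Eventually.of_forall fun n => (lr' n).sub hG)).congr fun n => ?_
    simp

end Data

end Pool.Agent.Lib.MP_29d677_an
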