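import Pool.Agent.Lib.MP_29d677_an.SZ

/-!
Energy estimates for smooth plurisubharmonic functions.
-/

namespace Pool.Agent.Lib.MP_29d677_an

open MeasureTheory Filter Topology Complex Metric
open scoped ContDiff ComplexConjugate Real

/-- The pointwise product of gradients in the complex direction `v`. -/
noncomputable def Gr (v : E) (a b : E → ℝ) : E → ℝ :=
  fun z => D v a z * D v b z + D (I • v) a z * D (I • v) b z

@[fun_prop]
lemma contDiff_Gr {a b : E → ℝ} (ha : ContDiff ℝ ∞ a) (hb : ContDiff ℝ ∞ b) (v : E) :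
    ContDiff ℝ ∞ (Gr v a b) := by unfold Gr; fun_prop

lemma Gr_nonneg (v : E) (a : E → ℝ) (z : E) : 0 ≤ Gr v a a z :=
  add_nonneg (mul_self_nonneg _) (mul_self_nonneg _)

lemma Test.Lev {χ : E → ℝ} (hχ : Test χ) (v : E) : Test fun z => Lev χ z v :=
  ((hχ.D v).D v).add ((hχ.D _).D _)

lemma Test.Gr {χ a : E → ℝ} (hχ : Test χ) (ha : ContDiff ℝ ∞ a) (v : E) : Test (Gr v χ a) :=
  ((hχ.D v).mul_right (contDiff_D ha _)).add ((hχ.D _).mul_right (contDiff_D ha _))

/-- The energy pairing. -/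
noncomputable def En (χ : E → ℝ) (v : E) (a b : E → ℝ) : ℝ := ∫ z, χ z * Gr v a b z

section
variable {χ : E → ℝ} (hχ : Test χ) (v : E)
include hχ

lemma int_Gr {a : E → ℝ} (ha : ContDiff ℝ ∞ a) :
    ∫ z, Gr v χ a z = -∫ z, χ z * Lev a z v := by
  have h1 := ibp (contDiff_D ha v) hχ v
  have h2 := ibp (contDiff_D ha (I • v)) hχ (I • v)
  simp only [Gr, Lev, mul_add]
  rw [integral_add ((hχ.D _).mul_right (contDiff_D ha _)).integrable
    ((hχ.D _).mul_right (contDiff_D ha _)).integrable,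
    integral_add (hχ.mul_right (by fun_prop)).integrable (hχ.mul_right (by fun_prop)).integrable]
  simp only [mul_comm (χ _), mul_comm (D _ χ _)]
  linarith

lemma int_Gr' {a : E → ℝ} (ha : ContDiff ℝ ∞ a) :
    ∫ z, Gr v χ a z = -∫ z, a z * Lev χ z v := by
  have h1 := ibp ha (hχ.D v) v
  have h2 := ibp ha (hχ.D (I • v)) (I • v)
  simp only [Gr, Lev, mul_add]
  rw [integral_add ((hχ.D _).mul_right (contDiff_D ha _)).integrable
    ((hχ.D _).mul_right (contDiff_D ha _)).integrable,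
    integral_add (((hχ.D _).D _).mul_left ha).integrable (((hχ.D _).D _).mul_left ha).integrable]
  simp only [mul_comm (D _ χ _)]
  linarith

lemma int_Lev {a : E → ℝ} (ha : ContDiff ℝ ∞ a) :
    ∫ z, χ z * Lev a z v = ∫ z, a z * Lev χ z v := by
  linarith [int_Gr hχ v ha, int_Gr' hχ v ha]

lemma En_eq {w a : E → ℝ} (hw : ContDiff ℝ ∞ w) (ha : ContDiff ℝ ∞ a) :
    En χ v w a = -(∫ z, χ z * w z * Lev a z v) - ∫ z, w z * Gr v χ a z := by
  rw [← int_Gr (hχ.mul_right hw) v ha, En, ← integral_sub ((hχ.mul_right hw).Gr ha v).integrable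
    ((hχ.Gr ha v).mul_left hw).integrable]
  congr 1; funext z
  simp only [Gr, D_mul hχ.sm hw]; ring

lemma En_self {w : E → ℝ} (hw : ContDiff ℝ ∞ w) :
    En χ v w w = -(∫ z, χ z * w z * Lev w z v) + (∫ z, w z * w z * Lev χ z v) / 2 := by
  rw [En_eq hχ v hw hw]
  have h1 := int_Gr' hχ v (hw.mul hw)
  have h2 : ∫ z, Gr v χ (fun z => w z * w z) z = 2 * ∫ z, w z * Gr v χ w z := by
    rw [← integral_const_mul]
    congr 1; funext z
    simp only [Gr, D_mul hw hw]; ring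
  linarith

lemma En_sub {a b : E → ℝ} (ha : ContDiff ℝ ∞ a) (hb : ContDiff ℝ ∞ b) :
    En χ v (fun z => a z - b z) (fun z => a z - b z)
      = En χ v b b - En χ v a a + 2 * En χ v (fun z => a z - b z) a := by
  have i1 := (hχ.mul_right (contDiff_Gr hb hb v)).integrable
  have i2 := (hχ.mul_right (contDiff_Gr ha ha v)).integrable
  have i12 : Integrable fun z => χ z * Gr v b b z - χ z * Gr v a a z := i1.sub i2
  simp only [En]
  rw [← integral_sub i1 i2, ← integral_const_mul, ← integral_add i12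
    ((hχ.mul_right (contDiff_Gr (ha.sub hb) ha v)).integrable.const_mul _)]
  congr 1; funext z
  simp only [Gr, D_sub ha hb]; ring

lemma int_Lev_le {R M : ℝ} (hR : ∀ z, R < ‖z‖ → Lev χ z v = 0) {a : E → ℝ} (ha : ContDiff ℝ ∞ a)
    (hM : ∀ z, ‖z‖ ≤ R → |a z| ≤ M) : ∫ z, a z * Lev χ z v ≤ M * ∫ z, |Lev χ z v| := by
  rw [← integral_const_mul]
  refine integral_mono ((hχ.Lev v).mul_left ha).integrable
    ((hχ.Lev v).integrable.abs.const_mul _) fun z => ?_
  by_cases hz : R < ‖z‖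
  · simp [hR z hz]
  · refine (le_abs_self _).trans ?_
    rw [abs_mul]
    exact mul_le_mul_of_nonneg_right (hM z (not_lt.1 hz)) (abs_nonneg _)

lemma int_mul_Lev_le (h0 : ∀ z, 0 ≤ χ z) {R M ε : ℝ} (hε : 0 ≤ ε)
    (hR : ∀ z, R < ‖z‖ → χ z = 0 ∧ Lev χ z v = 0) {w a : E → ℝ} (hw : ContDiff ℝ ∞ w)
    (ha : ContDiff ℝ ∞ a) (hL : ∀ z, 0 ≤ Lev a z v) (hM : ∀ z, ‖z‖ ≤ R → |a z| ≤ M)
    (hwε : ∀ z, ‖z‖ ≤ R → w z ≤ ε) :
    ∫ z, χ z * w z * Lev a z v ≤ ε * (M * ∫ z, |Lev χ z v|) := by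
  refine le_trans ?_ (mul_le_mul_of_nonneg_left
    (int_Lev_le hχ v (fun z hz => (hR z hz).2) ha hM) hε)
  rw [← int_Lev hχ v ha, ← integral_const_mul]
  refine integral_mono ((hχ.mul_right hw).mul_right (contDiff_Lev ha v)).integrable
    ((hχ.mul_right (contDiff_Lev ha v)).integrable.const_mul _) fun z => ?_
  by_cases hz : R < ‖z‖
  · simp [(hR z hz).1]
  · have := mul_le_mul_of_nonneg_left (hwε z (not_lt.1 hz)) (mul_nonneg (h0 z) (hL z))
    simp only
    linarith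

lemma En_close (h0 : ∀ z, 0 ≤ χ z) {R M ε : ℝ} (hε : 0 ≤ ε)
    (hR : ∀ z, R < ‖z‖ → χ z = 0 ∧ Lev χ z v = 0) {a b : E → ℝ} (ha : ContDiff ℝ ∞ a)
    (hb : ContDiff ℝ ∞ b) (hLa : ∀ z, 0 ≤ Lev a z v) (hLb : ∀ z, 0 ≤ Lev b z v)
    (hMa : ∀ z, ‖z‖ ≤ R → |a z| ≤ M) (hMb : ∀ z, ‖z‖ ≤ R → |b z| ≤ M)
    (hw : ∀ z, ‖z‖ ≤ R → |a z - b z| ≤ ε) :
    En χ v (fun z => a z - b z) (fun z => a z - b z)
      ≤ (2 * ε * M + ε ^ 2 / 2) * ∫ z, |Lev χ z v| := by
  have hw' := ha.sub hb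
  have h1 := int_mul_Lev_le hχ v h0 hε hR hw'.neg ha hLa hMa fun z hz => (neg_le_abs _).trans (hw z hz)
  have h2 := int_mul_Lev_le hχ v h0 hε hR hw' hb hLb hMb fun z hz => (le_abs_self _).trans (hw z hz)
  have h3 := int_Lev_le hχ v (fun z hz => (hR z hz).2) (hw'.mul hw') (M := ε ^ 2) fun z hz => by
    rw [abs_mul, sq]; exact mul_self_le_mul_self (abs_nonneg _) (hw z hz)
  have h4 : -∫ z, χ z * (a z - b z) * Lev (fun z => a z - b z) z v
      = (∫ z, χ z * -(a z - b z) * Lev a z v) + ∫ z, χ z * (a z - b z) * Lev b z v := by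
    rw [← integral_add ((hχ.mul_right hw'.neg).mul_right (contDiff_Lev ha v)).integrable
      ((hχ.mul_right hw').mul_right (contDiff_Lev hb v)).integrable, ← integral_neg]
    congr 1; funext z
    have e : Lev a z v = Lev (fun z => a z - b z) z v + Lev b z v := by
      rw [← Lev_add hw' hb]; simp
    rw [e]; ring
  rw [En_self hχ v hw', h4]
  linarith

lemma En_bdd (h0 : ∀ z, 0 ≤ χ z) {R M : ℝ} (hM : 0 ≤ M)
    (hR : ∀ z, R < ‖z‖ → χ z = 0 ∧ Lev χ z v = 0) {a : E → ℝ} (ha : ContDiff ℝ ∞ a)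
    (hLa : ∀ z, 0 ≤ Lev a z v) (hMa : ∀ z, ‖z‖ ≤ R → |a z| ≤ M) :
    En χ v a a ≤ (2 * M * M + M ^ 2 / 2) * ∫ z, |Lev χ z v| := by
  simpa using En_close hχ v h0 hM hR ha (contDiff_const (c := 0)) hLa
    (fun z => (Lev_const 0 z v).ge) hMa (by simpa using fun _ _ => hM) (by simpa using hMa)

end

lemma En_nonneg {χ : E → ℝ} (h0 : ∀ z, 0 ≤ χ z) (v : E) (a : E → ℝ) : 0 ≤ En χ v a a :=
  integral_nonneg fun z => mul_nonneg (h0 z) (Gr_nonneg v a z)

lemma n2_sq_le_En {η a : E → ℝ} (hη : Test η) (ha : ContDiff ℝ ∞ a) (v : E) :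
    n2 (fun z => η z * D v a z) ^ 2 + n2 (fun z => η z * D (I • v) a z) ^ 2
      = En (fun z => η z * η z) v a a := by
  have m1 := (hη.mul_right (contDiff_D ha v)).memLp 2
  have m2 := (hη.mul_right (contDiff_D ha (I • v))).memLp 2
  rw [n2_sq m1, n2_sq m2, ← integral_add (integrable_sq m1) (integrable_sq m2), En]
  congr 1; funext z
  simp only [Gr, Real.norm_eq_abs, sq_abs]; ring

lemma cross_le {η a w : E → ℝ} (hη : Test η) (ha : ContDiff ℝ ∞ a) (hw : ContDiff ℝ ∞ w) (v : E)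
    {A : ℝ} (hA0 : 0 ≤ A) (hA : En (fun z => η z * η z) v a a ≤ A ^ 2) :
    -∫ z, w z * Gr v (fun z => η z * η z) a z
      ≤ 2 * A * (n2 (fun z => w z * D v η z) + n2 (fun z => w z * D (I • v) η z)) := by
  have h := (n2_sq_le_En hη ha v).trans_le hA
  have b1 : n2 (fun z => η z * D v a z) ≤ A :=
    (pow_le_pow_iff_left₀ (n2_nonneg _) hA0 two_ne_zero).1 (by nlinarith)
  have b2 : n2 (fun z => η z * D (I • v) a z) ≤ A :=
    (pow_le_pow_iff_left₀ (n2_nonneg _) hA0 two_ne_zero).1 (by nlinarith)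
  have t : ∀ u, Test fun z => η z * D u a z := fun u => hη.mul_right (contDiff_D ha u)
  have t' : ∀ u, Test fun z => w z * D u η z := fun u => (hη.D u).mul_left hw
  have c1 := (neg_le_abs _).trans (n2_inner ((t v).memLp 2) ((t' v).memLp 2))
  have c2 := (neg_le_abs _).trans (n2_inner ((t (I • v)).memLp 2) ((t' (I • v)).memLp 2))
  have e : ∫ z, w z * Gr v (fun z => η z * η z) a z
      = 2 * ((∫ z, η z * D v a z * (w z * D v η z))
        + ∫ z, η z * D (I • v) a z * (w z * D (I • v) η z)) := by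
    rw [← integral_add ((t _).mul_right (t' _).sm).integrable ((t _).mul_right (t' _).sm).integrable,
      ← integral_const_mul]
    congr 1; funext z
    simp only [Gr, D_mul hη.sm hη.sm]; ring
  rw [e]
  nlinarith [mul_le_mul_of_nonneg_right b1 (n2_nonneg fun z => w z * D v η z),
    mul_le_mul_of_nonneg_right b2 (n2_nonneg fun z => w z * D (I • v) η z)]

lemma exists_radius_sq {η : E → ℝ} (hη : Test η) (v : E) : ∃ R, ∀ z, R < ‖z‖ →
    η z * η z = 0 ∧ Lev (fun z => η z * η z) z v = 0 := by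
  obtain ⟨R1, -, h1⟩ := (hη.mul_right hη.sm).exists_radius
  obtain ⟨R2, -, h2⟩ := ((hη.mul_right hη.sm).Lev v).exists_radius
  exact ⟨max R1 R2, fun z hz => ⟨h1 z ((le_max_left _ _).trans_lt hz),
    h2 z ((le_max_right _ _).trans_lt hz)⟩⟩

namespace Data
variable {ι : Type} (d : Data ι)

lemma Lev_rho_nonneg (n : ℕ) (z v : E) : 0 ≤ Lev (d.rho n) z v := by
  unfold rho
  rw [Lev_const_mul _ (contDiff_log (d.contDiff_B n) (d.B_pos n))]
  exact mul_nonneg (by positivity) (Lev_log_SS_nonneg (d.hol_P n) (d.B_pos n) z v)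

lemma rho_abs_bdd (R : ℝ) : ∃ M, 0 ≤ M ∧ ∀ᶠ n in atTop, ∀ z, ‖z‖ ≤ R → |d.rho n z| ≤ M := by
  obtain ⟨C, -, hC⟩ := d.rho_bdd R
  refine ⟨|d.m| + |C|, by positivity, ?_⟩
  filter_upwards [hC, eventually_ge_atTop 1] with n h1 hn z hz
  refine abs_le.2 ⟨?_, ?_⟩
  · linarith [d.m_le_rho hn z, neg_abs_le d.m, abs_nonneg C]
  · linarith [h1 z hz, le_abs_self C, abs_nonneg d.m]

lemma memLp_W_mul {θ : E → ℝ} (hθ : Test θ) : MemLp (fun z => d.W z * θ z) 2 volume := by
  obtain ⟨R, -, hR⟩ := hθ.exists_radius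
  obtain ⟨C, hC⟩ := d.lb_W.bdd R
  refine memLp_of_le_mul (C := C) (hθ.memLp 2)
    (d.lb_W.meas.mul hθ.sm.continuous.measurable).aestronglyMeasurable
    (Eventually.of_forall fun z => ?_)
  by_cases hz : R < ‖z‖
  · simp [hR z hz]
  · rw [norm_mul]; exact mul_le_mul_of_nonneg_right (hC z (not_lt.1 hz)) (norm_nonneg _)

lemma tendsto_n2_rho {θ : E → ℝ} (hθ : Test θ) :
    Tendsto (fun n => n2 fun z => (d.rho n z - d.W z) * θ z) atTop (𝓝 0) := by
  obtain ⟨R, -, hR⟩ := hθ.exists_radius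
  obtain ⟨C, hC⟩ := d.lb_W.bdd R
  obtain ⟨M, -, hM⟩ := d.rho_abs_bdd R
  have hm : ∀ n, MemLp (fun z => (d.rho n z - d.W z) * θ z) 2 volume := fun n => by
    simp only [sub_mul]
    exact ((hθ.mul_left (d.contDiff_rho n)).memLp 2).sub (d.memLp_W_mul hθ)
  have h := tendsto_integral_filter_of_dominated_convergence (μ := volume) (l := atTop)
    (F := fun n z => ‖(d.rho n z - d.W z) * θ z‖ ^ 2) (f := fun _ => 0)
    (fun z => (M + C) ^ 2 * ‖θ z‖ ^ 2)
    (Eventually.of_forall fun n => (integrable_sq (hm n)).1) (by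
      filter_upwards [hM] with n hn
      refine Eventually.of_forall fun z => ?_
      by_cases hz : R < ‖z‖
      · simp [hR z hz]
      · rw [Real.norm_of_nonneg (by positivity), norm_mul, mul_pow]
        gcongr
        exact (abs_sub _ _).trans (add_le_add (hn z (not_lt.1 hz)) (hC z (not_lt.1 hz))))
    ((integrable_sq (hθ.memLp 2)).const_mul _) (Eventually.of_forall fun z => by
      simpa using ((((d.tendsto_rho z).sub_const (d.W z)).mul_const (θ z)).norm.pow 2))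
  simp only [integral_zero, ← n2_sq (hm _)] at h
  simpa [Real.sqrt_sq (n2_nonneg _)] using h.sqrt

lemma n2_rho_cauchy {θ : E → ℝ} (hθ : Test θ) {ε : ℝ} (hε : 0 < ε) :
    ∀ᶠ m in atTop, ∀ᶠ n in atTop, n2 (fun z => (d.rho n z - d.rho m z) * θ z) ≤ ε := by
  have hm : ∀ n, MemLp (fun z => (d.rho n z - d.W z) * θ z) 2 volume := fun n => by
    simp only [sub_mul]
    exact ((hθ.mul_left (d.contDiff_rho n)).memLp 2).sub (d.memLp_W_mul hθ)
  have h := (d.tendsto_n2_rho hθ).eventually (gt_mem_nhds (half_pos hε))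
  filter_upwards [h] with m h1
  filter_upwards [h] with n h2
  have h3 := n2_add_le (hm n) (hm m).neg
  have h4 : n2 (-fun z => (d.rho m z - d.W z) * θ z) = n2 fun z => (d.rho m z - d.W z) * θ z := by
    rw [n2, eLpNorm_neg, n2]
  refine le_trans (le_of_eq ?_) (h3.trans (by linarith))
  congr 1; funext z; simp; ring

lemma En_rho_cauchy {η : E → ℝ} (hη : Test η) (v : E) {ε : ℝ} (hε : 0 < ε) :
    ∀ᶠ m in atTop, ∀ᶠ n in atTop, En (fun z => η z * η z) v (fun z => d.rho n z - d.rho m z)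
      (fun z => d.rho n z - d.rho m z) ≤ ε := by
  obtain ⟨R, hR⟩ := exists_radius_sq hη v
  obtain ⟨M, hM0, hM⟩ := d.rho_abs_bdd R
  have hχ := hη.mul_right hη.sm
  have h0 : ∀ z, 0 ≤ η z * η z := fun z => mul_self_nonneg _
  set C := ∫ z, |Lev (fun z => η z * η z) z v| with hC
  have hC0 : 0 ≤ C := integral_nonneg fun z => abs_nonneg _
  set A := Real.sqrt ((2 * M * M + M ^ 2 / 2) * C) with hA
  have hA0 : 0 ≤ A := Real.sqrt_nonneg _
  have key : ∀ ε, 0 < ε → ∀ᶠ m in atTop, ∀ᶠ n in atTop,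
      En (fun z => η z * η z) v (fun z => d.rho n z - d.rho m z) (d.rho n) ≤ ε := by
    intro ε hε
    set δ := ε / (M * C + 4 * A + 1) with hδ
    have hδ0 : 0 < δ := by positivity
    filter_upwards [d.rho_mono R hδ0, d.n2_rho_cauchy (hη.D v) hδ0,
      d.n2_rho_cauchy (hη.D (I • v)) hδ0] with m h1 h2 h3
    filter_upwards [h1, h2, h3, hM] with n h1 h2 h3 h4
    have hw := (d.contDiff_rho n).sub (d.contDiff_rho m)
    have a1 := int_mul_Lev_le hχ v h0 hδ0.le hR hw.neg (d.contDiff_rho n)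
      (fun z => d.Lev_rho_nonneg n z v) h4 fun z hz => by linarith [h1 z hz]
    have a2 := cross_le hη (d.contDiff_rho n) hw v hA0 ((En_bdd hχ v h0 hM0 hR (d.contDiff_rho n)
      (fun z => d.Lev_rho_nonneg n z v) h4).trans (Real.sq_sqrt (by positivity)).ge)
    simp only [mul_neg, neg_mul, integral_neg] at a1
    rw [En_eq hχ v hw (d.contDiff_rho n)]
    have a3 : δ * (M * C + 4 * A + 1) = ε := by rw [hδ]; field_simp
    nlinarith [mul_le_mul_of_nonneg_left (add_le_add h2 h3) hA0]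
  set x := fun n => -En (fun z => η z * η z) v (d.rho n) (d.rho n) with hx
  have hl := tendsto_of_almost_mono (x := x) (C := 0)
    (Eventually.of_forall fun n => neg_nonpos.2 (En_nonneg h0 _ _)) fun ε hε => by
      filter_upwards [key (ε / 2) (by positivity)] with m h1
      filter_upwards [h1] with n h1
      have a1 := En_sub hχ v (d.contDiff_rho n) (d.contDiff_rho m)
      have a2 := En_nonneg h0 v fun z => d.rho n z - d.rho m z
      simp only [hx]; linarith
  filter_upwards [key (ε / 4) (by positivity), hl.eventually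
    (lt_mem_nhds (show limsup x atTop - ε / 4 < limsup x atTop by linarith))] with m h1 h2
  filter_upwards [h1, hl.eventually
    (gt_mem_nhds (show limsup x atTop < limsup x atTop + ε / 4 by linarith))] with n h1 h3
  rw [En_sub hχ v (d.contDiff_rho n) (d.contDiff_rho m)]
  simp only [hx] at h2 h3
  linarith

end Data

end Pool.Agent.Lib.MP_29d677_an
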