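import Pool.Agent.Lib.MP_29d677_an.Weak

/-!
The weighted `L^2` estimate for the Cauchy-Riemann operator (Hormander).
-/

namespace Pool.Agent.Lib.MP_29d677_an

open MeasureTheory Filter Topology Complex Metric
open scoped ContDiff ComplexConjugate

section hilbert
variable {H : Type*} [NormedAddCommGroup H] [InnerProductSpace ℂ H] [CompleteSpace H]

lemma exists_decomp (S : Set H) (x : H) : ∃ a : H, (∀ s ∈ S, inner ℂ s a = 0) ∧
    ∀ y, (∀ s ∈ S, inner ℂ s y = 0) → inner ℂ y x = inner ℂ y a := by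
  obtain ⟨a, ha, b, hb, rfl⟩ := (Submodule.span ℂ S)ᗮ.exists_add_mem_mem_orthogonal x
  refine ⟨a, fun s hs => ha s (Submodule.subset_span hs), fun y hy => ?_⟩
  have : y ∈ (Submodule.span ℂ S)ᗮ := by
    intro u hu
    induction hu using Submodule.span_induction with
    | mem u hu => exact hy u hu
    | zero => simp
    | add u v _ _ hu hv => rw [inner_add_left, hu, hv, add_zero]
    | smul c u _ hu => rw [inner_smul_left, hu, mul_zero]
  rw [inner_add_right, hb y this, add_zero]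

lemma exists_proj (R : Submodule ℂ H) (x : H) (c : ℝ)
    (h : ∀ y ∈ R, ‖inner ℂ x y‖ ≤ ‖y‖ ^ 2 / 2 + c) :
    ∃ P : H, (∀ s ∈ R, inner ℂ s P = 0) ∧ ‖x - P‖ ^ 2 ≤ 2 * c ∧ ‖P‖ ≤ ‖x‖ := by
  obtain ⟨P, hP, v, hv, rfl⟩ := Rᗮ.exists_add_mem_mem_orthogonal x
  have h0 : inner ℂ P v = 0 := hv P hP
  have hcl : v ∈ closure (R : Set H) := by
    rw [Submodule.orthogonal_orthogonal_eq_closure] at hv; exact hv
  have hC : IsClosed {y : H | ‖inner ℂ (P + v) y‖ ≤ ‖y‖ ^ 2 / 2 + c} :=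
    isClosed_le (by fun_prop) (by fun_prop)
  have h1 : ‖inner ℂ (P + v) v‖ ≤ ‖v‖ ^ 2 / 2 + c := closure_minimal (fun y hy => h y hy) hC hcl
  simp only [inner_add_left, h0, zero_add, inner_self_eq_norm_sq_to_K,
    norm_pow, RCLike.norm_ofReal, abs_norm] at h1
  refine ⟨P, hP, by simp only [add_sub_cancel_left]; linarith, ?_⟩
  have h2 := norm_add_sq_eq_norm_sq_add_norm_sq_of_inner_eq_zero P v h0
  exact (pow_le_pow_iff_left₀ (norm_nonneg _) (norm_nonneg _) two_ne_zero).1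
    (by nlinarith [mul_self_nonneg ‖v‖])

end hilbert

/-- The space of square integrable functions. -/
noncomputable abbrev H0 := Lp ℂ 2 (volume : Measure E)

lemma inner_ae {x y : H0} {a b : E → ℂ} (hx : x =ᵐ[volume] a) (hy : y =ᵐ[volume] b) :
    inner ℂ x y = ∫ z, b z * conj (a z) := by
  rw [L2.inner_def]
  refine integral_congr_ae ?_
  filter_upwards [hx, hy] with z h1 h2
  simp [h1, h2]

lemma norm_ae {x : H0} {a : E → ℂ} (hx : x =ᵐ[volume] a) : ‖x‖ = n2 a := by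
  rw [Lp.norm_def, ← n2_congr hx]; rfl

variable {φ : E → ℝ}

lemma inner_ip {x y : H0} {a b : E → ℂ} (hx : x =ᵐ[volume] fun z => a z * om φ z)
    (hy : y =ᵐ[volume] fun z => b z * om φ z) : inner ℂ x y = ip φ b a := by
  rw [inner_ae hx hy, ip]
  congr 1; funext z
  rw [map_mul, conj_om, ← om_mul_om]; ring

lemma ae_div_om (x : H0) : x =ᵐ[volume] fun z => (x z * (om φ z)⁻¹) * om φ z :=
  Eventually.of_forall fun z => by have := om_ne_zero (φ := φ) z; field_simp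

lemma memLp_div_om (x : H0) : MemLp (fun z => (x z * (om φ z)⁻¹) * om φ z) 2 volume :=
  (memLp_congr_ae (ae_div_om x)).1 (Lp.memLp x)

lemma dl_add {a b : E → ℂ} (ha : Test a) (hb : Test b) (j : Fin 2) (z : E) :
    dl φ j (fun x => a x + b x) z = dl φ j a z + dl φ j b z := by
  simp only [dl, dd, D_add ha.sm hb.sm]; ring

lemma dl_const_mul (c : ℂ) {a : E → ℂ} (ha : Test a) (j : Fin 2) (z : E) :
    dl φ j (fun x => c * a x) z = c * dl φ j a z := by
  simp only [dl, dd, D_const_mul c ha.sm]; ring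

/-- The test function `conj ζ / w`. -/
lemma test_tw (hφ : ContDiff ℝ ∞ φ) {ζ : E → ℂ} (hζ : Test ζ) :
    Test fun z => conj (ζ z) * ww (fun x => -φ x) z :=
  hζ.conj.mul_right (contDiff_ww hφ.neg)

lemma ww_neg_mul (z : E) : ww (fun x => -φ x) z * ww φ z = 1 := by
  simp only [ww, ← Complex.ofReal_mul, ← Real.exp_add]; simp

lemma tw_dl (hφ : ContDiff ℝ ∞ φ) {ζ : E → ℂ} (hζ : Test ζ) (j : Fin 2) (z : E) :
    conj (dl φ j (fun z => conj (ζ z) * ww (fun x => -φ x) z) z) * ww φ z = db j ζ z := by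
  rw [conj_dl_mul hφ (test_tw hφ hζ).sm]
  congr 1; funext x
  rw [map_mul, conj_conj, conj_ww, mul_assoc, ww_neg_mul, mul_one]

lemma tw_db (hφ : ContDiff ℝ ∞ φ) {ζ : E → ℂ} (hζ : Test ζ) (j : Fin 2) (z : E) :
    conj (db j (fun z => conj (ζ z) * ww (fun x => -φ x) z) z) * ww φ z
      = dd j ζ z + dd j (fun x => (φ x : ℂ)) z * ζ z := by
  rw [← dd_conj (test_tw hφ hζ).sm]
  simp only [map_mul, conj_conj, conj_ww]
  rw [dd_mul hζ.sm (contDiff_ww hφ.neg), dd_ww hφ.neg]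
  have e : dd j (fun x => ((-φ x : ℝ) : ℂ)) z = -dd j (fun x => (φ x : ℂ)) z := by
    simp only [dd, Complex.ofReal_neg, D_neg]; ring
  rw [e]
  have := ww_neg_mul (φ := φ) z
  linear_combination (dd j ζ z + dd j (fun x => (φ x : ℂ)) z * ζ z) * this

/-- The estimate for all test forms against an exact form. -/
lemma est_exact (hφ : ContDiff ℝ ∞ φ) {lam : ℝ} (hlam : 0 < lam) {g : E → ℂ} (hg : Test g)
    (hpos : ∀ z ξ, 0 ≤ Lev φ z ξ)
    (hst : ∀ z, (db 0 g z ≠ 0 ∨ db 1 g z ≠ 0) →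
      ∀ ξ : E, lam * (‖ξ 0‖ ^ 2 + ‖ξ 1‖ ^ 2) ≤ Lev φ z ξ)
    {α0 α1 : E → ℂ} (h0 : Test α0) (h1 : Test α1) :
    ‖ip φ α0 (db 0 g) + ip φ α1 (db 1 g)‖
      ≤ n2 (fun z => (dl φ 0 α0 z + dl φ 1 α1 z) * om φ z) ^ 2 / 2
      + (n2 (fun z => db 0 g z * om φ z) ^ 2 + n2 (fun z => db 1 g z * om φ z) ^ 2)
        / (2 * lam) := by
  let T : ∀ {a : E → ℂ}, Test a → H0 := fun ha => (memLp_om hφ ha).toLp _
  have hT : ∀ {a : E → ℂ} (ha : Test a), T ha =ᵐ[volume] fun z => a z * om φ z :=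
    fun ha => (memLp_om hφ ha).coeFn_toLp
  let S : Set (WithLp 2 (H0 × H0)) := {s | ∃ γ, ∃ hγ : Test γ,
    s = WithLp.toLp 2 (T (hγ.dl hφ 1), -T (hγ.dl hφ 0))}
  obtain ⟨a, ha, ha'⟩ := exists_decomp S (WithLp.toLp 2 (T h0, T h1))
  set a0 := fun z => a.fst z * (om φ z)⁻¹
  set a1 := fun z => a.snd z * (om φ z)⁻¹
  have e0 : a.fst =ᵐ[volume] fun z => a0 z * om φ z := ae_div_om _
  have e1 : a.snd =ᵐ[volume] fun z => a1 z * om φ z := ae_div_om _
  have hex : ∀ {ζ : E → ℂ} (hζ : Test ζ), ip φ α0 (db 0 ζ) + ip φ α1 (db 1 ζ)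
      = ip φ a0 (db 0 ζ) + ip φ a1 (db 1 ζ) := by
    intro ζ hζ
    have := ha' (WithLp.toLp 2 (T (hζ.db 0), T (hζ.db 1))) (by
      rintro s ⟨γ, hγ, rfl⟩
      simp only [WithLp.prod_inner_apply, inner_neg_left]
      rw [inner_ip (hT (hγ.dl hφ 1)) (hT (hζ.db 0)), inner_ip (hT (hγ.dl hφ 0)) (hT (hζ.db 1))]
      have k0 := ip_db hφ (hζ.db 0) hγ 1
      have k1 := ip_db hφ (hζ.db 1) hγ 0
      have e : db 1 (db 0 ζ) = db 0 (db 1 ζ) := funext fun z => db_comm hζ.sm 1 0 z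
      rw [e] at k0
      linear_combination k0 - k1)
    simp only [WithLp.prod_inner_apply] at this
    rwa [inner_ip (hT (hζ.db 0)) (hT h0), inner_ip (hT (hζ.db 1)) (hT h1),
      inner_ip (y := a.ofLp.1) (hT (hζ.db 0)) e0,
      inner_ip (y := a.ofLp.2) (hT (hζ.db 1)) e1] at this
  rw [hex hg]
  refine est_weak hφ hlam (hg.db 0) (hg.db 1) hpos hst (memLp_div_om _) (memLp_div_om _)
    ((h0.dl hφ 0).add (h1.dl hφ 1)) (fun ζ hζ => ?_) (fun ζ hζ => ?_)
  · have := ha _ ⟨_, test_tw hφ hζ, rfl⟩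
    simp only [WithLp.prod_inner_apply, inner_neg_left] at this
    rw [inner_ip (y := a.ofLp.1) (hT ((test_tw hφ hζ).dl hφ 1)) e0,
      inner_ip (y := a.ofLp.2) (hT ((test_tw hφ hζ).dl hφ 0)) e1] at this
    simp only [ip, mul_assoc, tw_dl hφ hζ] at this
    simp only [a0, a1, mul_assoc] at this ⊢
    linear_combination this
  · have ht := test_tw hφ hζ
    have := hex ht
    have k0 := ip_dl hφ h0 ht 0
    have k1 := ip_dl hφ h1 ht 1
    have k2 := ip_add_left hφ (h0.dl hφ 0) (h1.dl hφ 1) ht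
    have k3 : ip φ (fun z => dl φ 0 α0 z + dl φ 1 α1 z)
        (fun z => conj (ζ z) * ww (fun x => -φ x) z) = ∫ z, (dl φ 0 α0 z + dl φ 1 α1 z) * ζ z := by
      unfold ip
      congr 1; funext z
      rw [map_mul, conj_conj, conj_ww, mul_assoc, mul_assoc, ww_neg_mul, mul_one]
    have k4 : ∀ (j : Fin 2) (b : E → ℂ), ip φ b (db j fun z => conj (ζ z) * ww (fun x => -φ x) z)
        = ∫ z, b z * (dd j ζ z + dd j (fun x => (φ x : ℂ)) z * ζ z) := by
      intro j b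
      simp only [ip, mul_assoc, tw_db hφ hζ]
    rw [← k4, ← k4, ← this, ← k3, k2, k0, k1]
    ring

/-- Weighted approximation of a test function by weakly holomorphic functions. -/
theorem hormander (hφ : ContDiff ℝ ∞ φ) {lam : ℝ} (hlam : 0 < lam) {g : E → ℂ} (hg : Test g)
    (hpos : ∀ z ξ, 0 ≤ Lev φ z ξ)
    (hst : ∀ z, (db 0 g z ≠ 0 ∨ db 1 g z ≠ 0) →
      ∀ ξ : E, lam * (‖ξ 0‖ ^ 2 + ‖ξ 1‖ ^ 2) ≤ Lev φ z ξ) :
    ∃ p : E → ℂ, MemLp (fun z => p z * om φ z) 2 volume ∧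
      (∀ j ζ, Test ζ → ∫ z, p z * db j ζ z = 0) ∧
      n2 (fun z => p z * om φ z) ≤ n2 (fun z => g z * om φ z) ∧
      n2 (fun z => (g z - p z) * om φ z) ^ 2
        ≤ (n2 (fun z => db 0 g z * om φ z) ^ 2 + n2 (fun z => db 1 g z * om φ z) ^ 2) / lam := by
  let R : Submodule ℂ H0 :=
    { carrier := {x | ∃ α0 α1, Test α0 ∧ Test α1 ∧
        x =ᵐ[volume] fun z => (dl φ 0 α0 z + dl φ 1 α1 z) * om φ z}
      add_mem' := by
        rintro x y ⟨a0, a1, ha0, ha1, hx⟩ ⟨b0, b1, hb0, hb1, hy⟩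
        refine ⟨_, _, ha0.add hb0, ha1.add hb1, ?_⟩
        filter_upwards [hx, hy, Lp.coeFn_add x y] with z h1 h2 h3
        rw [h3, Pi.add_apply, h1, h2, dl_add ha0 hb0, dl_add ha1 hb1]; ring
      zero_mem' := by
        refine ⟨_, _, Test.zero, Test.zero, ?_⟩
        filter_upwards [Lp.coeFn_zero ℂ 2 (volume : Measure E)] with z h
        rw [h]; simp [dl, dd, D_const]
      smul_mem' := by
        rintro c x ⟨a0, a1, ha0, ha1, hx⟩
        refine ⟨_, _, ha0.mul_left (contDiff_const (c := c)),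
          ha1.mul_left (contDiff_const (c := c)), ?_⟩
        filter_upwards [hx, Lp.coeFn_smul c x] with z h1 h2
        rw [h2, Pi.smul_apply, h1, dl_const_mul c ha0, dl_const_mul c ha1, smul_eq_mul]; ring }
  have hx := (memLp_om hφ hg).coeFn_toLp
  obtain ⟨P, hP, hv, hn⟩ := exists_proj R ((memLp_om hφ hg).toLp _)
    ((n2 (fun z => db 0 g z * om φ z) ^ 2 + n2 (fun z => db 1 g z * om φ z) ^ 2) / (2 * lam)) (by
      rintro y ⟨a0, a1, ha0, ha1, hy⟩
      rw [inner_ip hx hy, norm_ae hy, ip_add_left hφ (ha0.dl hφ 0) (ha1.dl hφ 1) hg,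
        ip_dl hφ ha0 hg, ip_dl hφ ha1 hg, ← neg_add, norm_neg]
      exact est_exact hφ hlam hg hpos hst ha0 ha1)
  have eP := ae_div_om (φ := φ) P
  refine ⟨fun z => P z * (om φ z)⁻¹, memLp_div_om P, fun j ζ hζ => ?_, ?_, ?_⟩
  · have ht := test_tw hφ hζ
    have m := memLp_om hφ (ht.dl hφ j)
    have := hP (m.toLp _) (by
      fin_cases j
      · refine ⟨_, _, ht, Test.zero, ?_⟩
        filter_upwards [m.coeFn_toLp] with z h
        rw [h]; simp [dl, dd, D_const]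
      · refine ⟨_, _, Test.zero, ht, ?_⟩
        filter_upwards [m.coeFn_toLp] with z h
        rw [h]; simp [dl, dd, D_const])
    rw [inner_ip m.coeFn_toLp eP] at this
    simpa only [ip, mul_assoc, tw_dl hφ hζ] using this
  · rwa [norm_ae eP, norm_ae hx] at hn
  · rw [norm_ae (a := fun z => (g z - P z * (om φ z)⁻¹) * om φ z)] at hv
    · refine hv.trans (le_of_eq ?_); field_simp
    · filter_upwards [hx, eP, Lp.coeFn_sub ((memLp_om hφ hg).toLp _) P] with z h1 h2 h3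
      rw [h3, Pi.sub_apply, h1, sub_mul, ← h2]

end Pool.Agent.Lib.MP_29d677_an
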