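import Pool.Agent.Lib.MP_29d677_an.Calc

/-!
The Levi form: positivity from the sub-mean value property, and sums of squares of holomorphic
functions.
-/

namespace Pool.Agent.Lib.MP_29d677_an

open MeasureTheory Filter Topology Complex Metric
open scoped ContDiff ComplexConjugate Real

/-- The sub-mean value property on circles in complex lines. -/
def SubMean (u : E → ℝ) : Prop :=
  ∀ a b : E, u a ≤ Real.circleAverage (fun w : ℂ => u (a + w • b)) 0 1

lemma circle_smul (θ : ℝ) (b : E) :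
    circleMap 0 1 θ • b = Real.cos θ • b + Real.sin θ • (I • b) := by
  ext i
  simp [circleMap, Complex.exp_mul_I]
  ring

lemma taylor2 {φ : E → ℝ} (hφ : ContDiff ℝ ∞ φ) (z : E) {ε : ℝ} (hε : 0 < ε) :
    ∃ δ > 0, ∀ h : E, ‖h‖ ≤ δ →
      φ (z + h) ≤ φ z + fderiv ℝ φ z h + fderiv ℝ (fderiv ℝ φ) z h h / 2 + ε * ‖h‖ ^ 2 := by
  set B := fderiv ℝ (fderiv ℝ φ) z with hB
  have h1 : HasFDerivAt (fderiv ℝ φ) B z :=
    ((hφ.fderiv_right (m := ∞) (by simp)).differentiable (by simp) z).hasFDerivAt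
  have h2 := (hasFDerivAt_iff_isLittleO_nhds_zero.1 h1).def hε
  obtain ⟨δ, hδ, hb⟩ := Metric.eventually_nhds_iff.1 h2
  refine ⟨δ / 2, by positivity, fun h hh => ?_⟩
  let g : E → ℝ := fun x => φ (z + x) - fderiv ℝ φ z x - B x x * (1 / 2)
  let g' : E → E →L[ℝ] ℝ := fun x => fderiv ℝ φ (z + x) - fderiv ℝ φ z - B x
  have hg : ∀ x, HasFDerivAt g (g' x) x := by
    intro x
    have a1 : HasFDerivAt (fun x => φ (z + x)) (fderiv ℝ φ (z + x)) x :=
      ((diff_of hφ (z + x)).hasFDerivAt.comp x ((hasFDerivAt_id x).const_add z)).congr_fderiv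
        (ContinuousLinearMap.ext fun y => by simp)
    have a2 : HasFDerivAt (fun x => B x x * (1 / 2)) (B x) x :=
      ((B.hasFDerivAt.clm_apply (hasFDerivAt_id x)).mul_const (1 / 2 : ℝ)).congr_fderiv
        (ContinuousLinearMap.ext fun y => by simp [hB, snd_symm hφ y x]; ring)
    exact (a1.sub (fderiv ℝ φ z).hasFDerivAt).sub a2
  have key := (convex_closedBall (0 : E) ‖h‖).norm_image_sub_le_of_norm_hasFDerivWithin_le
    (f := g) (f' := g') (C := ε * ‖h‖) (fun x _ => (hg x).hasFDerivWithinAt)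
    (fun x hx => by
      have hx' : ‖x‖ ≤ ‖h‖ := by simpa using hx
      have := hb (y := x) (by simp; linarith)
      exact this.trans (by gcongr))
    (x := 0) (y := h) (by simp) (by simp)
  simp only [g, sub_zero, add_zero, map_zero, zero_mul, Real.norm_eq_abs] at key
  have := (abs_le.1 key).2
  nlinarith

lemma Lev_nonneg_of_subMean {φ : E → ℝ} (hφ : ContDiff ℝ ∞ φ) (hs : SubMean φ) (z ξ : E) :
    0 ≤ Lev φ z ξ := by
  set B := fderiv ℝ (fderiv ℝ φ) z with hB
  have hL : Lev φ z ξ = B ξ ξ + B (I • ξ) (I • ξ) := by simp only [Lev, DD_eq hφ, hB]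
  refine le_of_forall_pos_le_add fun ε hε => ?_
  obtain ⟨δ, hδ, hb⟩ := taylor2 hφ z (ε := ε / (4 * (‖ξ‖ ^ 2 + 1))) (by positivity)
  set ε' := ε / (4 * (‖ξ‖ ^ 2 + 1)) with hε'
  set r := δ / (‖ξ‖ + 1) with hr
  have hr0 : 0 < r := by positivity
  have hn : ∀ θ : ℝ, ‖circleMap 0 1 θ • ((r : ℂ) • ξ)‖ = r * ‖ξ‖ := by
    intro θ; simp [norm_smul, abs_of_pos hr0]
  have hrδ : r * ‖ξ‖ ≤ δ := by
    rw [hr, div_mul_eq_mul_div, div_le_iff₀ (by positivity)]; nlinarith [norm_nonneg ξ]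
  have h1 := hs z ((r : ℂ) • ξ)
  rw [Real.circleAverage_def] at h1
  have hpt : ∀ θ : ℝ, φ (z + circleMap 0 1 θ • ((r : ℂ) • ξ)) ≤
      (φ z + ε' * (r * ‖ξ‖) ^ 2) + (r * fderiv ℝ φ z ξ) * Real.cos θ
        + (r * fderiv ℝ φ z (I • ξ)) * Real.sin θ + (r ^ 2 * B ξ ξ / 2) * Real.cos θ ^ 2
        + (r ^ 2 * B (I • ξ) (I • ξ) / 2) * Real.sin θ ^ 2
        + (r ^ 2 * B ξ (I • ξ)) * (Real.sin θ * Real.cos θ) := by
    intro θ
    have := hb _ ((hn θ).le.trans hrδ)
    rw [hn θ] at this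
    refine this.trans (le_of_eq ?_)
    have e : circleMap 0 1 θ • ((r : ℂ) • ξ)
        = (r * Real.cos θ) • ξ + (r * Real.sin θ) • (I • ξ) := by
      rw [circle_smul]; ext i; simp; ring
    rw [e]
    simp only [map_add, map_smul, add_apply, smul_apply,
      smul_eq_mul, ← hB]
    rw [show B (I • ξ) ξ = B ξ (I • ξ) from snd_symm hφ _ _ _]
    ring
  have hc : Continuous fun θ : ℝ => φ (z + circleMap 0 1 θ • ((r : ℂ) • ξ)) := by
    have := hφ.continuous
    fun_prop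
  have h2 := intervalIntegral.integral_mono_on (μ := volume) (a := 0) (b := 2 * π)
    (by positivity) (hc.intervalIntegrable _ _)
    (Continuous.intervalIntegrable (by fun_prop) _ _) (fun θ _ => hpt θ)
  rw [intervalIntegral.integral_add, intervalIntegral.integral_add, intervalIntegral.integral_add,
    intervalIntegral.integral_add, intervalIntegral.integral_add] at h2
  · simp only [intervalIntegral.integral_const_mul, integral_cos, integral_sin, integral_cos_sq,
      integral_sin_sq, integral_sin_mul_cos₁, intervalIntegral.integral_const] at h2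
    simp at h2 h1
    have hpi := Real.pi_pos
    have h3 : 2 * π * φ z ≤ ∫ θ in (0 : ℝ)..2 * π, φ (z + circleMap 0 1 θ • (r • ξ)) := by
      have := mul_le_mul_of_nonneg_left h1 (show 0 ≤ 2 * π by positivity)
      refine this.trans (le_of_eq ?_)
      field_simp
    have h4 : 0 ≤ π * r ^ 2 * (2 * ε' * ‖ξ‖ ^ 2 + (B ξ ξ + B (I • ξ) (I • ξ)) / 2) := by
      nlinarith
    have h5 : 0 ≤ 2 * ε' * ‖ξ‖ ^ 2 + (B ξ ξ + B (I • ξ) (I • ξ)) / 2 :=
      (mul_nonneg_iff_of_pos_left (by positivity)).1 h4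
    have h6 : 4 * ε' * ‖ξ‖ ^ 2 ≤ ε := by
      rw [hε']; field_simp; nlinarith
    rw [hL]; linarith
  all_goals exact Continuous.intervalIntegrable (by fun_prop) _ _

/-- Entire functions (with smoothness recorded). -/
def Hol (f : E → ℂ) : Prop := ContDiff ℂ ∞ f

lemma Hol.sm {f : E → ℂ} (hf : Hol f) : ContDiff ℝ ∞ f := ContDiff.restrict_scalars ℝ hf

lemma Hol.D_eq {f : E → ℂ} (hf : Hol f) (v : E) : D v f = fun z => fderiv ℂ f z v := by
  funext z
  simp only [D]
  rw [((ContDiff.differentiable hf (by simp)) z).fderiv_restrictScalars ℝ]; rfl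

lemma Hol.D {f : E → ℂ} (hf : Hol f) (v : E) : Hol (D v f) := by
  rw [hf.D_eq]
  exact (ContDiff.fderiv_right hf (m := ∞) (by simp)).clm_apply contDiff_const

lemma Hol.D_I {f : E → ℂ} (hf : Hol f) (v : E) :
    MP_29d677_an.D (I • v) f = fun z => I * MP_29d677_an.D v f z := by
  rw [hf.D_eq, hf.D_eq]; funext z; simp

section sq
variable {ι : Type*} (s : Finset ι) (f : ι → E → ℂ)

/-- Sum of squares of moduli. -/
noncomputable def SS : E → ℝ := fun z => ∑ i ∈ s, ‖f i z‖ ^ 2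

/-- The pairing of a family with its derivative. -/
noncomputable def AA (v : E) : E → ℂ := fun z => ∑ i ∈ s, conj (f i z) * D v (f i) z

variable {s f}

lemma SS_eq : SS s f = fun z => Complex.reCLM (∑ i ∈ s, conj (f i z) * f i z) := by
  funext z
  simp [SS, Complex.conj_mul', ← Complex.ofReal_pow]

lemma SS_nonneg (z : E) : 0 ≤ SS s f z := Finset.sum_nonneg fun _ _ => by positivity

lemma contDiff_SS (hf : ∀ i ∈ s, Hol (f i)) : ContDiff ℝ ∞ (SS s f) := by
  rw [SS_eq]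
  exact Complex.reCLM.contDiff.comp
    (ContDiff.sum fun i hi => (contDiff_conj (hf i hi).sm).mul (hf i hi).sm)

lemma contDiff_AA (hf : ∀ i ∈ s, Hol (f i)) (v : E) : ContDiff ℝ ∞ (AA s f v) :=
  ContDiff.sum fun i hi => (contDiff_conj (hf i hi).sm).mul (contDiff_D (hf i hi).sm v)

lemma D_SS (hf : ∀ i ∈ s, Hol (f i)) (v : E) : D v (SS s f) = fun z => 2 * (AA s f v z).re := by
  funext z
  rw [SS_eq, D_clm _ (ContDiff.sum fun i hi => (contDiff_conj (hf i hi).sm).mul (hf i hi).sm),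
    D_sum _ fun i hi => (contDiff_conj (hf i hi).sm).mul (hf i hi).sm]
  simp only [AA, Complex.reCLM_apply, Complex.re_sum, Finset.mul_sum]
  refine Finset.sum_congr rfl fun i hi => ?_
  rw [D_mul (contDiff_conj (hf i hi).sm) (hf i hi).sm, D_conj (hf i hi).sm]
  simp; ring

lemma AA_I (hf : ∀ i ∈ s, Hol (f i)) (v : E) : AA s f (I • v) = fun z => I * AA s f v z := by
  funext z
  simp only [AA, Finset.mul_sum]
  refine Finset.sum_congr rfl fun i hi => ?_
  rw [(hf i hi).D_I]; ring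

lemma D_AA (hf : ∀ i ∈ s, Hol (f i)) (u v z : E) : D u (AA s f v) z =
    ∑ i ∈ s, (conj (D u (f i) z) * D v (f i) z + conj (f i z) * D u (D v (f i)) z) := by
  unfold AA
  rw [D_sum _ fun i hi => (contDiff_conj (hf i hi).sm).mul (contDiff_D (hf i hi).sm v)]
  refine Finset.sum_congr rfl fun i hi => ?_
  rw [D_mul (contDiff_conj (hf i hi).sm) (contDiff_D (hf i hi).sm v), D_conj (hf i hi).sm]

lemma D_two_re {g : E → ℂ} (hg : ContDiff ℝ ∞ g) (v z : E) :
    D v (fun x => 2 * (g x).re) z = 2 * (D v g z).re := by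
  rw [D_const_mul 2 (g := fun x => (g x).re) (Complex.reCLM.contDiff.comp hg)]
  congr 1
  exact D_clm Complex.reCLM hg v z

lemma Lev_SS (hf : ∀ i ∈ s, Hol (f i)) (z v : E) :
    Lev (SS s f) z v = 4 * SS s (fun i => D v (f i)) z := by
  simp only [Lev, D_SS hf, D_two_re (contDiff_AA hf _), D_AA hf, SS, Complex.re_sum,
    Finset.mul_sum, ← Finset.sum_add_distrib]
  refine Finset.sum_congr rfl fun i hi => ?_
  rw [(hf i hi).D_I, D_const_mul I ((hf i hi).D v).sm, ((hf i hi).D v).D_I, Complex.sq_norm,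
    Complex.normSq_apply]
  simp; ring

lemma D_SS_sq (hf : ∀ i ∈ s, Hol (f i)) (z v : E) :
    D v (SS s f) z ^ 2 + D (I • v) (SS s f) z ^ 2 = 4 * ‖AA s f v z‖ ^ 2 := by
  rw [D_SS hf, D_SS hf, AA_I hf, Complex.sq_norm, Complex.normSq_apply]
  simp; ring

lemma AA_sq_le (v z : E) : ‖AA s f v z‖ ^ 2 ≤ SS s f z * SS s (fun i => D v (f i)) z := by
  refine le_trans ?_ (Finset.sum_mul_sq_le_sq_mul_sq s (fun i => ‖f i z‖) fun i => ‖D v (f i) z‖)
  gcongr
  refine (norm_sum_le _ _).trans (le_of_eq ?_)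
  simp

end sq

lemma contDiff_log {h : E → ℝ} (hh : ContDiff ℝ ∞ h) (hp : ∀ z, 0 < h z) :
    ContDiff ℝ ∞ (fun z => Real.log (h z)) := hh.log fun z => (hp z).ne'

lemma Lev_log {h : E → ℝ} (hh : ContDiff ℝ ∞ h) (hp : ∀ z, 0 < h z) (z v : E) :
    Lev (fun x => Real.log (h x)) z v
      = Lev h z v / h z - (D v h z ^ 2 + D (I • v) h z ^ 2) / h z ^ 2 := by
  have hi : ContDiff ℝ ∞ fun x => (h x)⁻¹ := hh.inv fun z => (hp z).ne'
  have h1 : ∀ u, D u (fun x => Real.log (h x)) = fun x => D u h x * (h x)⁻¹ :=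
    fun u => funext fun x => by rw [D_log hh u x (hp x).ne', div_eq_mul_inv]
  have h2 : ∀ u, D u (fun x => (h x)⁻¹) z = -D u h z / h z ^ 2 := by
    intro u
    have e := D_mul hh hi u z
    have e2 : (fun x => h x * (h x)⁻¹) = fun _ => (1 : ℝ) :=
      funext fun x => mul_inv_cancel₀ (hp x).ne'
    rw [e2, D_const] at e
    have := (hp z).ne'
    field_simp at e ⊢
    linarith
  simp only [Lev, h1, D_mul (contDiff_D hh _) hi, h2]
  have := (hp z).ne'
  field_simp; ring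

lemma Lev_log_SS {ι : Type*} {s : Finset ι} {f : ι → E → ℂ} (hf : ∀ i ∈ s, Hol (f i))
    (hp : ∀ z, 0 < SS s f z) (z v : E) :
    Lev (fun x => Real.log (SS s f x)) z v
      = 4 * (SS s f z * SS s (fun i => D v (f i)) z - ‖AA s f v z‖ ^ 2) / SS s f z ^ 2 := by
  rw [Lev_log (contDiff_SS hf) hp, Lev_SS hf, D_SS_sq hf]
  have := (hp z).ne'
  field_simp

lemma Lev_log_SS_nonneg {ι : Type*} {s : Finset ι} {f : ι → E → ℂ} (hf : ∀ i ∈ s, Hol (f i))
    (hp : ∀ z, 0 < SS s f z) (z v : E) : 0 ≤ Lev (fun x => Real.log (SS s f x)) z v := by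
  rw [Lev_log_SS hf hp]
  have := AA_sq_le (s := s) (f := f) v z
  have := hp z
  apply div_nonneg <;> nlinarith

end Pool.Agent.Lib.MP_29d677_an
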