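import Pool.Agent.Lib.MP_29d677_an.Energy

/-!
Local `L^2` convergence and weak derivatives.
-/

namespace Pool.Agent.Lib.MP_29d677_an

open MeasureTheory Filter Topology Complex Metric
open scoped ContDiff ComplexConjugate Real ENNReal

/-- Lebesgue measure on the ball of radius `k`. -/
noncomputable def mu (k : ℕ) : Measure E := volume.restrict (closedBall 0 k)

instance (k : ℕ) : IsFiniteMeasure (mu k) := ⟨by simpa [mu] using measure_closedBall_lt_top⟩

lemma mu_mono {j k : ℕ} (h : j ≤ k) : mu j ≤ mu k :=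
  Measure.restrict_mono (closedBall_subset_closedBall (by exact_mod_cast h)) le_rfl

lemma ae_mu (k : ℕ) : ∀ᵐ z ∂mu k, ‖z‖ ≤ k :=
  (ae_restrict_mem measurableSet_closedBall).mono fun _ hz => by simpa using hz

/-- Locally square integrable functions. -/
def L2b (f : E → ℝ) : Prop := ∀ k, MemLp f 2 (mu k)

/-- Sequences tending to zero in `L^2` of every ball. -/
def T0 (f : ℕ → E → ℝ) : Prop := ∀ k, Tendsto (fun n => eLpNorm (f n) 2 (mu k)) atTop (𝓝 0)

lemma LB.l2b {f : E → ℝ} (hf : LB f) : L2b f := fun k => hf.memLp (isCompact_closedBall _ _) 2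

lemma L2b.of_continuous {f : E → ℝ} (hf : Continuous f) : L2b f := (LB.of_continuous hf).l2b

lemma L2b.add {f g : E → ℝ} (hf : L2b f) (hg : L2b g) : L2b (f + g) := fun k => (hf k).add (hg k)

lemma L2b.sub {f g : E → ℝ} (hf : L2b f) (hg : L2b g) : L2b (f - g) := fun k => (hf k).sub (hg k)

lemma L2b.congr {f g : E → ℝ} (hf : L2b f) (h : f =ᵐ[volume] g) : L2b g :=
  fun k => (memLp_congr_ae (ae_restrict_of_ae h)).1 (hf k)

lemma exists_le_mu {L : Set E} (hL : IsCompact L) : ∃ k, volume.restrict L ≤ mu k := by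
  obtain ⟨R, hR⟩ := hL.isBounded.subset_closedBall (0 : E)
  exact ⟨⌈R⌉₊, Measure.restrict_mono (hR.trans (closedBall_subset_closedBall (Nat.le_ceil R)))
    le_rfl⟩

lemma L2b.li {f : E → ℝ} (hf : L2b f) : LocallyIntegrable f :=
  locallyIntegrable_iff.2 fun L hL => by
    obtain ⟨k, hk⟩ := exists_le_mu hL
    exact ((hf k).integrable (by norm_num)).mono_measure hk

lemma T0.add {f g : ℕ → E → ℝ} (hf : T0 f) (hg : T0 g) (hf' : ∀ᶠ n in atTop, L2b (f n))
    (hg' : ∀ᶠ n in atTop, L2b (g n)) : T0 fun n => f n + g n := fun k => by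
  refine tendsto_of_tendsto_of_tendsto_of_le_of_le' tendsto_const_nhds
    (by simpa using (hf k).add (hg k)) (Eventually.of_forall fun _ => bot_le) ?_
  filter_upwards [hf', hg'] with n h1 h2
  exact eLpNorm_add_le (h1 k).1 (h2 k).1 (by norm_num)

lemma T0.congr {f g : ℕ → E → ℝ} (hf : T0 f) (h : ∀ n, f n =ᵐ[volume] g n) : T0 g := fun k =>
  (hf k).congr fun n => eLpNorm_congr_ae (ae_restrict_of_ae (h n))

lemma tendstoL2loc_of {f : ℕ → E → ℝ} {F : E → ℝ} (hf : ∀ n, 1 ≤ n → L2b (f n)) (hF : L2b F)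
    (h : T0 fun n => f n - F) : TendstoL2loc f F := fun L hL => by
  obtain ⟨k, hk⟩ := exists_le_mu hL
  exact ⟨fun n hn => (hf n hn k).mono_measure hk, (hF k).mono_measure hk,
    tendsto_of_tendsto_of_tendsto_of_le_of_le tendsto_const_nhds (h k) (fun _ => bot_le)
      fun n => eLpNorm_mono_measure _ hk⟩

lemma eLp_le_n2 (k : ℕ) {f : E → ℝ} (hf : MemLp (fun z => cut (k + 1) 0 z * f z) 2 volume) :
    eLpNorm f 2 (mu k) ≤ ENNReal.ofReal (n2 fun z => cut (k + 1) 0 z * f z) := by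
  rw [n2, ENNReal.ofReal_toReal hf.2.ne]
  refine le_trans (eLpNorm_mono_ae ((ae_mu k).mono fun z hz => ?_)) (eLpNorm_restrict_le _ _ _ _)
  rw [cut_eq_one (by positivity) (by simp; linarith), one_mul]

lemma T0_of_n2 {f : ℕ → E → ℝ}
    (hf : ∀ (k : ℕ) n, MemLp (fun z => cut (k + 1) 0 z * f n z) 2 volume)
    (h : ∀ k : ℕ, Tendsto (fun n => n2 fun z => cut (k + 1) 0 z * f n z) atTop (𝓝 0)) : T0 f :=
  fun k => tendsto_of_tendsto_of_tendsto_of_le_of_le tendsto_const_nhds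
    (by simpa using ENNReal.tendsto_ofReal (h k)) (fun _ => bot_le) fun n => eLp_le_n2 k (hf k n)

lemma T0_of_unif {f : ℕ → E → ℝ} {c : ℕ → ℝ} (hc : Tendsto c atTop (𝓝 0))
    (h : ∀ᶠ n in atTop, ∀ z, |f n z| ≤ c n) : T0 f := fun k => by
  have h1 := ENNReal.Tendsto.const_mul (a := mu k Set.univ ^ (2 : ℝ≥0∞).toReal⁻¹)
    (ENNReal.tendsto_ofReal hc) (Or.inr (ENNReal.rpow_ne_top_of_nonneg (by simp)
      (measure_ne_top _ _)))
  refine tendsto_of_tendsto_of_tendsto_of_le_of_le' tendsto_const_nhds (by simpa using h1)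
    (Eventually.of_forall fun _ => bot_le) ?_
  filter_upwards [h] with n hn
  simpa using eLpNorm_le_of_ae_bound (p := 2) (μ := mu k) (Eventually.of_forall hn)

lemma eLp_le_of_sq {μ : Measure E} {f : E → ℝ} {h : E → ℝ≥0∞} {c : ℝ}
    (hf : ∀ᵐ z ∂μ, ENNReal.ofReal (f z ^ 2) ≤ ENNReal.ofReal c * h z) :
    eLpNorm f 2 μ ≤ (ENNReal.ofReal c * ∫⁻ z, h z ∂μ) ^ (1 / 2 : ℝ) := by
  rw [eLpNorm_eq_lintegral_rpow_enorm_toReal (by simp) (by simp),
    ← lintegral_const_mul' _ _ ENNReal.ofReal_ne_top]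
  simp only [ENNReal.toReal_ofNat]
  gcongr 1
  refine lintegral_mono_ae (hf.mono fun z hz => le_trans (le_of_eq ?_) hz)
  rw [← ofReal_norm, ENNReal.ofReal_rpow_of_nonneg (norm_nonneg _) (by norm_num)]
  simp

lemma exists_L2_limit {f : ℕ → E → ℝ} (hf : ∀ n, L2b (f n)) (hC : ∀ k ε, 0 < ε →
    ∀ᶠ m in atTop, ∀ᶠ n in atTop, eLpNorm (f n - f m) 2 (mu k) ≤ ENNReal.ofReal ε) :
    ∃ G, L2b G ∧ T0 fun n => f n - G := by
  have h1 : ∀ k, ∃ g : E → ℝ, MemLp g 2 (mu k) ∧
      Tendsto (fun n => eLpNorm (f n - g) 2 (mu k)) atTop (𝓝 0) := by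
    intro k
    have hc : CauchySeq fun n => (hf n k).toLp (f n) := by
      refine Metric.cauchySeq_iff.2 fun ε hε => ?_
      obtain ⟨m, hm⟩ := (hC k (ε / 3) (by positivity)).exists
      obtain ⟨N, hN⟩ := eventually_atTop.1 hm
      have hd : ∀ n ≥ N, dist ((hf n k).toLp (f n)) ((hf m k).toLp (f m)) ≤ ε / 3 := fun n hn => by
        rw [← edist_le_ofReal (by positivity), Lp.edist_toLp_toLp]; exact hN n hn
      refine ⟨N, fun a ha b hb => ?_⟩
      linarith [dist_triangle_right ((hf a k).toLp (f a)) ((hf b k).toLp (f b))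
        ((hf m k).toLp (f m)), hd a ha, hd b hb]
    obtain ⟨g, hg⟩ := cauchySeq_tendsto_of_complete hc
    refine ⟨g, Lp.memLp g, ((Lp.tendsto_Lp_iff_tendsto_eLpNorm' _ _).1 hg).congr fun n => ?_⟩
    exact eLpNorm_congr_ae ((hf n k).coeFn_toLp.sub EventuallyEq.rfl)
  choose g hg hg' using h1
  have h2 : ∀ j k, j ≤ k → g j =ᵐ[mu j] g k := by
    intro j k hjk
    have m := (hg k).mono_measure (mu_mono hjk)
    have : eLpNorm (g j - g k) 2 (mu j) = 0 := by
      refine le_antisymm (ge_of_tendsto' (by simpa using (hg' j).add (hg' k)) fun n => ?_) bot_le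
      calc _ = eLpNorm (-(f n - g j) + (f n - g k)) 2 (mu j) := by congr 1; ring
        _ ≤ _ := eLpNorm_add_le ((hf n j).sub (hg j)).neg.1 ((hf n j).sub m).1 (by norm_num)
        _ ≤ _ := by
          rw [eLpNorm_neg]
          exact add_le_add le_rfl (eLpNorm_mono_measure _ (mu_mono hjk))
    filter_upwards [(eLpNorm_eq_zero_iff ((hg j).sub m).1 (by simp)).1 this] with z hz
    exact sub_eq_zero.1 hz
  have h3 : ∀ k, g k =ᵐ[mu k] fun z => g ⌈‖z‖⌉₊ z := by
    intro k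
    have : ∀ᵐ z, ∀ j, j ≤ k → z ∈ closedBall (0 : E) j → g j z = g k z := by
      refine ae_all_iff.2 fun j => ?_
      by_cases hj : j ≤ k
      · filter_upwards [(ae_restrict_iff' measurableSet_closedBall).1 (h2 j k hj)] with z hz _
        exact hz
      · simp [hj]
    filter_upwards [ae_restrict_of_ae this, ae_mu k] with z h1 h2
    exact (h1 _ (Nat.ceil_le.2 h2) (by simpa using Nat.le_ceil _)).symm
  exact ⟨fun z => g ⌈‖z‖⌉₊ z, fun k => (memLp_congr_ae (h3 k)).1 (hg k),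
    fun k => (hg' k).congr fun n => eLpNorm_congr_ae (EventuallyEq.rfl.sub (h3 k))⟩

lemma isWeakDeriv_smooth {u : E → ℝ} (hu : ContDiff ℝ ∞ u) (v : E) : IsWeakDeriv u (D v u) v :=
  ⟨hu.continuous.locallyIntegrable, (contDiff_D hu v).continuous.locallyIntegrable,
    fun _ h1 h2 => ibp hu ⟨h1, h2⟩ v⟩

lemma tendsto_pair {f : ℕ → E → ℝ} {F : E → ℝ} (hf : ∀ n, L2b (f n)) (hF : L2b F)
    (h : T0 fun n => f n - F) {ψ : E → ℝ} (hψ : Test ψ) :
    Tendsto (fun n => ∫ z, f n z * ψ z) atTop (𝓝 (∫ z, F z * ψ z)) := by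
  obtain ⟨R, -, hR⟩ := hψ.exists_radius
  set k := ⌈R⌉₊
  have h1 := ((ENNReal.tendsto_toReal ENNReal.zero_ne_top).comp (h k)).mul_const (n2 ψ)
  rw [tendsto_iff_norm_sub_tendsto_zero]
  refine squeeze_zero (fun _ => norm_nonneg _) (fun n => ?_) (by simpa using h1)
  have m : MemLp ((closedBall (0 : E) k).indicator (f n - F)) 2 volume :=
    (memLp_indicator_iff_restrict measurableSet_closedBall).2 (((hf n).sub hF) k)
  have h2 := n2_inner m (hψ.memLp 2)
  rw [n2, eLpNorm_indicator_eq_eLpNorm_restrict measurableSet_closedBall] at h2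
  refine le_trans (le_of_eq ?_) h2
  rw [← integral_sub (integrable_mul_test (hf n).li hψ.sm.continuous hψ.cs)
    (integrable_mul_test hF.li hψ.sm.continuous hψ.cs)]
  congr 2; funext z
  by_cases hz : R < ‖z‖
  · simp [hR z hz]
  · rw [Set.indicator_of_mem (by simpa using (not_lt.1 hz).trans (Nat.le_ceil R)), Pi.sub_apply,
      sub_mul]

lemma isWeakDeriv_limit {f : ℕ → E → ℝ} {F G : E → ℝ} {v : E} (hf : ∀ n, ContDiff ℝ ∞ (f n))
    (hF : L2b F) (hG : L2b G) (h1 : T0 fun n => f n - F) (h2 : T0 fun n => D v (f n) - G) :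
    IsWeakDeriv F G v := by
  refine ⟨hF.li, hG.li, fun ψ s c => ?_⟩
  have hψ : Test ψ := ⟨s, c⟩
  refine tendsto_nhds_unique
    (tendsto_pair (fun n => L2b.of_continuous (hf n).continuous) hF h1 (hψ.D v)) ?_
  exact (tendsto_pair (fun n => L2b.of_continuous (contDiff_D (hf n) v).continuous)
    hG h2 hψ).neg.congr fun n => (ibp (hf n) hψ v).symm

lemma eLp_D_le (k : ℕ) {w : E → ℝ} (hw : ContDiff ℝ ∞ w) (v : E) {ε : ℝ} (hε : 0 ≤ ε)
    (h : En (fun z => cut (k + 1) 0 z * cut (k + 1) 0 z) v w w ≤ ε ^ 2) :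
    eLpNorm (D v w) 2 (mu k) ≤ ENNReal.ofReal ε := by
  have hη : Test (cut (k + 1) 0) := test_cut (by positivity) 0
  refine (eLp_le_n2 k ((hη.mul_right (contDiff_D hw v)).memLp 2)).trans
    (ENNReal.ofReal_le_ofReal ?_)
  have := (n2_sq_le_En hη hw v).trans_le h
  exact (pow_le_pow_iff_left₀ (n2_nonneg _) hε two_ne_zero).1 (by nlinarith)

namespace Data
variable {ι : Type} (d : Data ι)

lemma T0_rho : T0 fun n => d.rho n - d.W := by
  have hη : ∀ k : ℕ, Test (cut (k + 1) 0) := fun k => test_cut (by positivity) 0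
  refine T0_of_n2 (fun k n => ?_) fun k => ?_
  · simp only [Pi.sub_apply, mul_sub]
    exact (((hη k).mul_right (d.contDiff_rho n)).memLp 2).sub
      (by simpa only [mul_comm] using d.memLp_W_mul (hη k))
  · simpa only [mul_comm, Pi.sub_apply] using d.tendsto_n2_rho (hη k)

lemma exists_D_rho_limit (v : E) : ∃ G, L2b G ∧ T0 fun n => D v (d.rho n) - G := by
  refine exists_L2_limit (fun n => L2b.of_continuous (contDiff_D (d.contDiff_rho n) v).continuous)
    fun k ε hε => ?_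
  filter_upwards [d.En_rho_cauchy (test_cut (R := k + 1) (by positivity) 0) v
    (ε := ε ^ 2) (by positivity)] with m hm
  filter_upwards [hm] with n hn
  have := eLp_D_le k ((d.contDiff_rho n).sub (d.contDiff_rho m)) v hε.le hn
  convert this using 2
  funext z
  exact (D_sub (d.contDiff_rho n) (d.contDiff_rho m) v z).symm

end Data

end Pool.Agent.Lib.MP_29d677_an
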