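import Pool.Agent.Lib.MP_29d677_an.Prob

/-!
From orthonormal bases and the Bernstein-Markov property to the data of the analytic part.
-/

namespace Pool.Agent.Lib.MP_29d677_an

open MeasureTheory Filter Topology Complex Metric MvPolynomial
open scoped ComplexConjugate Real ENNReal

lemma Data.Vstar_real {ι : Type} (d : Data ι) (z : E) :
    (((Vstar d.K d.Q z).toReal : ℝ) : EReal) = Vstar d.K d.Q z := by
  refine EReal.coe_toReal ?_ ?_
  · obtain ⟨C, hC⟩ := d.lb_W.bdd (‖z‖ + 2)
    refine ne_top_of_le_ne_top (EReal.coe_ne_top C) (limsup_le_of_le (by isBoundedDefault) ?_)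
    filter_upwards [closedBall_mem_nhds z one_pos] with y hy
    refine (d.Vext_le_avg y one_pos).trans (EReal.coe_le_coe_iff.2 ?_)
    have hv : 0 < volume.real (closedBall y 1) :=
      ENNReal.toReal_pos (measure_closedBall_pos _ _ one_pos).ne' measure_closedBall_lt_top.ne
    have h := norm_setIntegral_le_of_norm_le_const (μ := volume) (f := d.W) (s := closedBall y 1)
      (C := C) measure_closedBall_lt_top fun x hx => hC x (by
        have h1 := norm_sub_norm_le x y
        have h2 := norm_sub_norm_le y z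
        rw [mem_closedBall, dist_eq_norm] at hx hy
        linarith)
    rw [setAverage_eq, smul_eq_mul, inv_mul_le_iff₀ hv, mul_comm]
    exact (le_abs_self _).trans h
  · refine ne_bot_of_le_ne_bot (EReal.coe_ne_bot (d.W z)) ((d.W_le_Vext z).trans ?_)
    exact le_limsup_of_frequently_le (Filter.Frequently.filter_mono
      (by simp : ∃ᶠ y in pure z, Vext d.K d.Q z ≤ Vext d.K d.Q y) (pure_le_nhds z))

lemma card_idx (n : ℕ) : (idx n).card ≤ (n + 1) ^ 2 :=
  (Finset.card_filter_le _ _).trans (by simp [sq])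

lemma norm_sq_int {K : Set E} (hK : IsCompact K) {w : E → ℝ} (hw : ContinuousOn w K)
    (τ : Measure E) [IsFiniteMeasure τ] {ι : Type} [DecidableEq ι] (s : Finset ι)
    (p : ι → MvPolynomial (Fin 2) ℂ)
    (horth : ∀ ν ∈ s, ∀ μ ∈ s, ∫ y in K, eval y (p ν) * conj (eval y (p μ)) * (w y : ℂ) ∂τ
      = if ν = μ then 1 else 0) (c : ι → ℂ) :
    ∫ y in K, ‖eval y (∑ i ∈ s, c i • p i)‖ ^ 2 * w y ∂τ = ∑ i ∈ s, ‖c i‖ ^ 2 := by
  have hi : ∀ ν μ, Integrable (fun y => c ν * conj (c μ)
      * (eval y (p ν) * conj (eval y (p μ)) * (w y : ℂ))) (τ.restrict K) := fun ν μ => by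
    refine (ContinuousOn.integrableOn_compact hK ?_).integrable.const_mul _
    exact ((hol_eval _).continuous.mul (Complex.continuous_conj.comp
      (hol_eval _).continuous)).continuousOn.mul (Complex.continuous_ofReal.comp_continuousOn hw)
  apply Complex.ofReal_injective
  rw [← integral_complex_ofReal]
  calc _ = ∫ y in K, ∑ ν ∈ s, ∑ μ ∈ s, c ν * conj (c μ)
        * (eval y (p ν) * conj (eval y (p μ)) * (w y : ℂ)) ∂τ := by
        congr 1; funext y
        push_cast
        rw [← Complex.mul_conj', map_sum, map_sum, Finset.sum_mul_sum, Finset.sum_mul]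
        refine Finset.sum_congr rfl fun ν _ => ?_
        rw [Finset.sum_mul]
        refine Finset.sum_congr rfl fun μ _ => ?_
        simp only [smul_eval, map_mul]; ring
    _ = ∑ ν ∈ s, ∑ μ ∈ s, c ν * conj (c μ) * if ν = μ then 1 else 0 := by
        rw [integral_finsetSum _ fun ν _ => integrable_finsetSum _ fun μ _ => hi ν μ]
        refine Finset.sum_congr rfl fun ν hν => ?_
        rw [integral_finsetSum _ fun μ _ => hi ν μ]
        refine Finset.sum_congr rfl fun μ hμ => ?_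
        rw [integral_const_mul, horth ν hν μ hμ]
    _ = _ := by
        push_cast
        refine Finset.sum_congr rfl fun ν hν => ?_
        simp [hν, Complex.mul_conj']

lemma eventually_M_le {M : ℕ → ℝ}
    (hM : limsup (fun n : ℕ => M n ^ (1 / (n : ℝ))) atTop = 1) {ε : ℝ} (hε : 0 < ε) :
    ∀ᶠ n : ℕ in atTop, M n ≤ Real.exp (n * ε) := by
  have hb : IsBoundedUnder (· ≤ ·) atTop fun n : ℕ => M n ^ (1 / (n : ℝ)) := by
    by_contra h
    have : {a : ℝ | ∀ᶠ n : ℕ in atTop, M n ^ (1 / (n : ℝ)) ≤ a} = ∅ :=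
      Set.eq_empty_of_forall_notMem fun a ha => h ⟨a, ha⟩
    rw [limsup_eq, this, Real.sInf_empty] at hM
    exact zero_ne_one hM
  filter_upwards [eventually_lt_of_limsup_lt (hM.trans_lt (Real.one_lt_exp_iff.2 hε)) hb,
    eventually_ge_atTop 1] with n h hn
  rcases le_or_gt (M n) 0 with h0 | h0
  · exact h0.trans (Real.exp_pos _).le
  · rw [Real.exp_nat_mul, ← Real.rpow_inv_natCast_pow h0.le (show n ≠ 0 by omega), ← one_div]
    exact pow_le_pow_left₀ (by positivity) h.le n

lemma exists_data {K : Set E} (hK : IsCompact K) {Q : E → ℝ} (hQ : ContinuousOn Q K)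
    (hV : ∃ z, Vstar K Q z ≠ ⊤) (τ : Measure E) [IsProbabilityMeasure τ] {M : ℕ → ℝ}
    (hM : limsup (fun n : ℕ => M n ^ (1 / (n : ℝ))) atTop = 1)
    (hBM : ∀ n : ℕ, 1 ≤ n → ∀ q : MvPolynomial (Fin 2) ℂ, q.totalDegree ≤ n → ∀ x ∈ K,
      ‖eval x q‖ * Real.exp (-(n * Q x))
        ≤ M n * √(∫ y in K, ‖eval y q‖ ^ 2 * Real.exp (-(2 * n * Q y)) ∂τ))
    (p : ℕ → ℕ × ℕ → MvPolynomial (Fin 2) ℂ)
    (hdeg : ∀ n, ∀ ν ∈ idx n, (p n ν).totalDegree ≤ n)
    (hspan : ∀ n, ∀ q : MvPolynomial (Fin 2) ℂ, q.totalDegree ≤ n →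
      q ∈ Submodule.span ℂ (p n '' idx n))
    (horth : ∀ n : ℕ, ∀ ν ∈ idx n, ∀ μ ∈ idx n,
      ∫ y in K, eval y (p n ν) * conj (eval y (p n μ)) * (Real.exp (-(2 * n * Q y)) : ℂ) ∂τ
        = if ν = μ then 1 else 0) :
    ∃ d : Data (ℕ × ℕ), d.K = K ∧ d.Q = Q ∧ d.s = idx ∧ d.p = p := by
  obtain ⟨m, hm⟩ := hK.bddBelow_image hQ
  have hw : ∀ n : ℕ, ContinuousOn (fun y => Real.exp (-(2 * n * Q y))) K :=
    fun n => (continuousOn_const.mul hQ).neg.rexp
  refine ⟨⟨K, Q, m, idx, p, hK, hQ, fun x hx => hm ⟨x, hx, rfl⟩, hdeg, fun ε hε => ?_,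
    fun n q hq A hA z => ?_, hV⟩, rfl, rfl, rfl, rfl⟩
  · filter_upwards [eventually_M_le hM hε, eventually_ge_atTop 1] with n h1 hn x hx
    set B := SS (idx n) (fun i z => eval z (p n i)) x with hB
    have hB0 : 0 ≤ B := SS_nonneg x
    have h2 := hBM n hn (∑ i ∈ idx n, conj (eval x (p n i)) • p n i)
      (totalDegree_finsetSum_le fun i hi => (totalDegree_smul_le _ _).trans (hdeg n i hi)) x hx
    have e1 : eval x (∑ i ∈ idx n, conj (eval x (p n i)) • p n i) = (B : ℝ) := by
      simp only [map_sum, smul_eval, hB, SS]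
      push_cast
      exact Finset.sum_congr rfl fun i _ => Complex.conj_mul' _
    rw [norm_sq_int hK (hw n) τ _ _ (horth n), e1, Complex.norm_real,
      Real.norm_of_nonneg hB0] at h2
    simp only [RCLike.norm_conj] at h2
    change _ ≤ _ * √B at h2
    have h3 : B ≤ Real.exp (n * (Q x + ε)) * √B := by
      rw [Real.exp_neg, mul_inv_le_iff₀ (Real.exp_pos _)] at h2
      refine h2.trans ?_
      rw [mul_add, Real.exp_add]
      calc _ ≤ Real.exp (n * ε) * √B * Real.exp (n * Q x) := by gcongr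
        _ = _ := by ring
    have h4 : Real.exp (2 * n * (Q x + ε)) = Real.exp (n * (Q x + ε)) ^ 2 := by
      rw [← Real.exp_nat_mul]; congr 1; push_cast; ring
    rw [h4]
    nlinarith [Real.sq_sqrt hB0, sq_nonneg (Real.exp (n * (Q x + ε)) - √B)]
  · obtain ⟨c, rfl⟩ := (Submodule.mem_span_image_finset_iff_exists_fun' ℂ).1 (hspan n q hq)
    have h1 : ∑ i ∈ idx n, ‖c i‖ ^ 2 ≤ A ^ 2 := by
      rw [← norm_sq_int hK (hw n) τ _ _ (horth n)]
      have h := norm_setIntegral_le_of_norm_le_const (μ := τ) (s := K) (C := A ^ 2)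
        (f := fun y => ‖eval y (∑ i ∈ idx n, c i • p n i)‖ ^ 2 * Real.exp (-(2 * n * Q y)))
        (measure_lt_top _ _) fun x hx => by
          rw [Real.norm_of_nonneg (by positivity), Real.exp_neg,
            mul_inv_le_iff₀ (Real.exp_pos _)]
          refine (pow_le_pow_left₀ (norm_nonneg _) (hA x hx) 2).trans (le_of_eq ?_)
          rw [mul_pow, ← Real.exp_nat_mul]; congr 2; push_cast; ring
      refine (le_abs_self _).trans (h.trans ?_)
      exact mul_le_of_le_one_right (sq_nonneg _) measureReal_le_one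
    refine le_trans ?_ (mul_le_mul_of_nonneg_right h1 (SS_nonneg z))
    simpa only [map_sum, smul_eval] using sum_mul_sq_le (idx n) c (fun i z => eval z (p n i)) z

end Pool.Agent.Lib.MP_29d677_an
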