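import Pool.Agent.Lib.MP_29d677_an.Weak

/-!
Entire functions of polynomial growth, and estimates for polynomials.
-/

namespace Pool.Agent.Lib.MP_29d677_an

open MeasureTheory Filter Topology Complex Metric MvPolynomial
open scoped ContDiff ComplexConjugate Nat

/-- Smooth solutions of the Cauchy-Riemann equations. -/
structure CR (h : E → ℂ) : Prop where
  sm : ContDiff ℝ ∞ h
  cr : ∀ j z, db j h z = 0

lemma CR.D {h : E → ℂ} (hh : CR h) (v : E) : CR (D v h) := by
  refine ⟨contDiff_D hh.sm v, fun j z => ?_⟩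
  have e : db j h = fun _ => 0 := funext (hh.cr j)
  have := D_db hh.sm j v z
  rw [e, D_const, D_comm hh.sm v, D_comm hh.sm v] at this
  exact this.symm

lemma CR.D_eq {h : E → ℂ} (hh : CR h) (v z : E) : MP_29d677_an.D v h z
    = v 0 * MP_29d677_an.D (ee 0) h z + v 1 * MP_29d677_an.D (ee 1) h z := by
  have h0 := hh.cr 0 z
  have h1 := hh.cr 1 z
  simp only [db, MP_29d677_an.D] at h0 h1 ⊢
  conv_lhs => rw [vec_eq v]
  simp only [map_add, map_smul, Complex.real_smul]
  have a0 := Complex.re_add_im (v 0)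
  have a1 := Complex.re_add_im (v 1)
  have hI := Complex.I_mul_I
  linear_combination (-I * ((v 0).im : ℂ)) * h0 + (-I * ((v 1).im : ℂ)) * h1
    + fderiv ℝ h z (ee 0) * a0 + fderiv ℝ h z (ee 1) * a1
    + (((v 0).im : ℂ) * fderiv ℝ h z (I • ee 0) + ((v 1).im : ℂ) * fderiv ℝ h z (I • ee 1)) * hI

lemma CR.hasDerivAt {h : E → ℂ} (hh : CR h) (a b : E) (w : ℂ) :
    HasDerivAt (fun w : ℂ => h (a + w • b)) (MP_29d677_an.D b h (a + w • b)) w := by
  have h1 : HasFDerivAt (fun w : ℂ => a + w • b)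
      (((1 : ℂ →L[ℂ] ℂ).smulRight b).restrictScalars ℝ) w :=
    (((hasFDerivAt_id w).smul_const b).const_add a).restrictScalars ℝ
  have h2 := (diff_of hh.sm (a + w • b)).hasFDerivAt.comp w h1
  rw [hasDerivAt_iff_hasFDerivAt]
  refine hasFDerivAt_of_restrictScalars ℝ h2 ?_
  refine ContinuousLinearMap.ext fun ζ => ?_
  have := hh.D_eq (ζ • b) (a + w • b)
  have := hh.D_eq b (a + w • b)
  simp only [MP_29d677_an.D, Pi.smul_apply, smul_eq_mul] at *
  simp [*]; ring

lemma CR.diff {h : E → ℂ} (hh : CR h) (a b : E) : Differentiable ℂ fun w : ℂ => h (a + w • b) :=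
  fun w => (hh.hasDerivAt a b w).differentiableAt

lemma exists_poly_deriv (j : ℕ) : ∀ h, CR h → ∃ P : MvPolynomial (Fin 2) ℂ, P.totalDegree ≤ j ∧
    ∀ z, iteratedDeriv j (fun w : ℂ => h (0 + w • z)) 0 = eval z P := by
  induction j with
  | zero => exact fun h _ => ⟨C (h 0), by simp, fun z => by simp⟩
  | succ j ih =>
    intro h hh
    obtain ⟨P0, d0, e0⟩ := ih _ (hh.D (ee 0))
    obtain ⟨P1, d1, e1⟩ := ih _ (hh.D (ee 1))
    refine ⟨X 0 * P0 + X 1 * P1, ?_, fun z => ?_⟩
    · refine (totalDegree_add _ _).trans (max_le ?_ ?_)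
      · refine (totalDegree_mul _ _).trans ?_
        rw [totalDegree_X]; omega
      · refine (totalDegree_mul _ _).trans ?_
        rw [totalDegree_X]; omega
    · have e : deriv (fun w : ℂ => h (0 + w • z)) = (fun w : ℂ => z 0 * D (ee 0) h (0 + w • z))
          + fun w : ℂ => z 1 * D (ee 1) h (0 + w • z) := by
        funext w
        rw [(hh.hasDerivAt 0 z w).deriv, hh.D_eq]; rfl
      have c0 : ContDiffAt ℂ j (fun w : ℂ => D (ee 0) h (0 + w • z)) 0 :=
        ((hh.D _).diff 0 z).contDiff.contDiffAt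
      have c1 : ContDiffAt ℂ j (fun w : ℂ => D (ee 1) h (0 + w • z)) 0 :=
        ((hh.D _).diff 0 z).contDiff.contDiffAt
      rw [iteratedDeriv_succ', e, iteratedDeriv_add (contDiffAt_const.mul c0)
        (contDiffAt_const.mul c1), iteratedDeriv_const_mul _ c0, iteratedDeriv_const_mul _ c1,
        e0, e1]
      simp

lemma taylor_fin {g : ℂ → ℂ} (hg : Differentiable ℂ g) {A : ℝ} {d : ℕ}
    (hb : ∀ w, ‖g w‖ ≤ A * (1 + ‖w‖) ^ d) :
    g 1 = ∑ j ∈ Finset.range (d + 1), (j ! : ℂ)⁻¹ * iteratedDeriv j g 0 := by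
  have hA : 0 ≤ A := by simpa using (norm_nonneg _).trans (hb 0)
  have h0 : ∀ j, d < j → iteratedDeriv j g 0 = 0 := by
    intro j hj
    have ht : Tendsto (fun R : ℝ => (j ! * (A * 2 ^ d)) / R) atTop (𝓝 0) :=
      tendsto_const_nhds.div_atTop tendsto_id
    refine norm_le_zero_iff.1 (ge_of_tendsto ht ?_)
    filter_upwards [eventually_ge_atTop 1] with R hR
    have h1 := Complex.norm_iteratedDeriv_le_of_forall_mem_sphere_norm_le (c := 0) (R := R)
      (C := A * (2 * R) ^ d) j (by linarith) hg.diffContOnCl fun w hw => by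
        refine (hb w).trans ?_
        rw [mem_sphere_zero_iff_norm.1 hw]
        gcongr; linarith
    refine h1.trans ?_
    rw [div_le_div_iff₀ (by positivity) (by positivity), mul_pow]
    have : R ^ d * R ≤ R ^ j := by rw [← pow_succ]; exact pow_le_pow_right₀ hR hj
    calc _ = (j ! * (A * 2 ^ d)) * (R ^ d * R) := by ring
      _ ≤ _ := by gcongr
  have h1 := Complex.hasSum_taylorSeries_of_entire hg 0 1
  simp only [sub_zero, one_pow, smul_eq_mul, one_mul] at h1
  refine h1.unique (hasSum_sum_of_ne_finset_zero fun j hj => ?_)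
  rw [h0 j (by simpa using hj), mul_zero]

/-- An entire function of polynomial growth is a polynomial. -/
theorem CR.exists_poly {h : E → ℂ} (hh : CR h) {A : ℝ} {d : ℕ}
    (hb : ∀ z, ‖h z‖ ≤ A * (1 + ‖z‖) ^ d) :
    ∃ P : MvPolynomial (Fin 2) ℂ, P.totalDegree ≤ d ∧ ∀ z, h z = eval z P := by
  have hA : 0 ≤ A := by simpa using (norm_nonneg _).trans (hb 0)
  choose P hP hP' using fun j => exists_poly_deriv j h hh
  refine ⟨∑ j ∈ Finset.range (d + 1), C (j ! : ℂ)⁻¹ * P j, ?_, fun z => ?_⟩
  · refine totalDegree_finsetSum_le fun j hj => (totalDegree_mul _ _).trans ?_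
    have := hP j
    have := Finset.mem_range.1 hj
    rw [totalDegree_C]; omega
  · have := taylor_fin (hh.diff 0 z) (A := A * (1 + ‖z‖) ^ d) (d := d) fun w => by
      refine (hb _).trans ?_
      rw [mul_assoc, ← mul_pow, zero_add, norm_smul]
      gcongr
      nlinarith [norm_nonneg z, norm_nonneg w]
    simp only [hP'] at this
    simpa using this

lemma hol_eval (q : MvPolynomial (Fin 2) ℂ) : Hol fun z => eval z q := by
  unfold Hol
  induction q using MvPolynomial.induction_on with
  | C a => simpa using contDiff_const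
  | add p q hp hq => simpa using hp.add hq
  | mul_X p i hp => simpa using hp.mul (contDiff_apply ℂ ℂ i)

lemma Hol.diff {h : E → ℂ} (hh : Hol h) (a b : E) :
    Differentiable ℂ fun w : ℂ => h (a + w • b) :=
  (ContDiff.differentiable hh (by simp)).comp (by fun_prop)

lemma exists_poly_bound (q : MvPolynomial (Fin 2) ℂ) {n : ℕ} (hq : q.totalDegree ≤ n) :
    ∃ A, 0 < A ∧ ∀ z : E, ‖eval z q‖ ≤ A * (1 + ‖z‖) ^ n := by
  refine ⟨∑ d ∈ q.support, ‖q.coeff d‖ + 1, by positivity, fun z => ?_⟩
  have h1 : (1 : ℝ) ≤ 1 + ‖z‖ := by linarith [norm_nonneg z]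
  rw [eval_eq', add_mul, Finset.sum_mul]
  refine ((norm_sum_le _ _).trans (Finset.sum_le_sum fun d hd => ?_)).trans
    (le_add_of_nonneg_right (by positivity))
  rw [norm_mul, norm_prod]
  gcongr
  calc _ ≤ ∏ i, (1 + ‖z‖) ^ d i := by
        refine Finset.prod_le_prod (fun _ _ => norm_nonneg _) fun i _ => ?_
        rw [norm_pow]
        gcongr
        linarith [norm_le_pi_norm z i]
    _ = (1 + ‖z‖) ^ (d.sum fun _ e => e) := by
        rw [Finset.prod_pow_eq_pow_sum, Finsupp.sum_fintype _ _ (fun _ => rfl)]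
    _ ≤ _ := pow_le_pow_right₀ h1 ((le_totalDegree hd).trans hq)

/-- A crude Bernstein-Walsh inequality. -/
lemma bernstein_walsh (q : MvPolynomial (Fin 2) ℂ) {n : ℕ} (hq : q.totalDegree ≤ n) {c : E}
    {r M : ℝ} (hr : 0 < r) (hM : ∀ z ∈ closedBall c r, ‖eval z q‖ ≤ M) (z : E) :
    ‖eval z q‖ ≤ M * (1 + (‖z - c‖ + 1) / r) ^ n := by
  obtain ⟨A, hA, hb⟩ := exists_poly_bound q hq
  have hM0 : 0 ≤ M := (norm_nonneg _).trans (hM c (by simp [hr.le]))
  have hd := (hol_eval q).diff c (z - c)
  have h1 := taylor_fin hd (A := A * (1 + ‖c‖ + ‖z - c‖) ^ n) (d := n) fun w => by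
    refine (hb _).trans ?_
    rw [mul_assoc, ← mul_pow]
    gcongr
    have := norm_add_le c (w • (z - c))
    rw [norm_smul] at this
    nlinarith [norm_nonneg (z - c), norm_nonneg w, norm_nonneg c,
      mul_nonneg (norm_nonneg c) (norm_nonneg w)]
  simp only [one_smul, add_sub_cancel] at h1
  set x := (‖z - c‖ + 1) / r with hx
  have hx0 : 0 < x := by positivity
  rw [h1, add_comm 1 x, add_pow, Finset.mul_sum]
  refine (norm_sum_le _ _).trans (Finset.sum_le_sum fun j hj => ?_)
  have h2 := Complex.norm_iteratedDeriv_le_of_forall_mem_sphere_norm_le (c := 0) (R := x⁻¹)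
    (C := M) j (by positivity) hd.diffContOnCl fun w hw => hM _ (by
      rw [mem_closedBall, dist_eq_norm, add_sub_cancel_left, norm_smul,
        mem_sphere_zero_iff_norm.1 hw, hx, inv_div, div_mul_eq_mul_div, div_le_iff₀ (by positivity)]
      nlinarith)
  have h3 : (1 : ℝ) ≤ n.choose j := by
    exact_mod_cast Nat.choose_pos (Nat.lt_succ_iff.1 (Finset.mem_range.1 hj))
  have h4 : (0 : ℝ) < j ! := by exact_mod_cast Nat.factorial_pos j
  rw [norm_mul, norm_inv, Complex.norm_natCast, one_pow, mul_one]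
  calc _ ≤ (j ! : ℝ)⁻¹ * (j ! * M / x⁻¹ ^ j) := by gcongr
    _ = M * (x ^ j * 1) := by rw [inv_pow]; field_simp
    _ ≤ _ := by gcongr

/-- Jensen's inequality for entire functions. -/
lemma log_norm_le_circleAverage {g : ℂ → ℂ} (hg : Differentiable ℂ g) (h0 : g 0 ≠ 0)
    {u : ℂ → ℝ} (hu : Continuous u) (hgu : ∀ w, g w ≠ 0 → Real.log ‖g w‖ ≤ u w) :
    Real.log ‖g 0‖ ≤ Real.circleAverage u 0 1 := by
  have ha : AnalyticOnNhd ℂ g Set.univ := hg.differentiableOn.analyticOnNhd isOpen_univ
  have ha' : AnalyticOnNhd ℂ g (closedBall 0 |1|) := ha.mono (Set.subset_univ _)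
  have h1 := ha'.circleAverage_log_norm one_ne_zero h0
  have h2 : 0 ≤ ∑ᶠ u, (MeromorphicOn.divisor g (closedBall 0 |1|) u : ℝ)
      * Real.log (1 * ‖0 - u‖⁻¹) := by
    refine finsum_nonneg fun w => ?_
    by_cases hw : w ∈ closedBall (0 : ℂ) |1|
    · refine mul_nonneg (mod_cast MeromorphicOn.AnalyticOnNhd.divisor_nonneg ha' w) ?_
      by_cases hw0 : w = 0
      · simp [hw0]
      · refine Real.log_nonneg ?_
        have : ‖w‖ ≤ 1 := by simpa using hw
        simpa using (one_le_inv₀ (norm_pos_iff.2 hw0)).2 this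
    · rw [Function.locallyFinsuppWithin.apply_eq_zero_of_notMem _ hw]; simp
  have h3 : ∀ᶠ w in codiscreteWithin (sphere (0 : ℂ) |1|), g w ≠ 0 := by
    rcases ha.eqOn_zero_or_eventually_ne_zero_of_preconnected isPreconnected_univ with h | h
    · exact absurd (h (Set.mem_univ 0)) h0
    · exact Filter.codiscreteWithin_mono (Set.subset_univ _) h
  classical
  have h4 : Real.circleAverage (fun w => Real.log ‖g w‖) 0 1
      = Real.circleAverage (fun w => if g w = 0 then u w else Real.log ‖g w‖) 0 1 := by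
    refine Real.circleAverage_congr_codiscreteWithin ?_ one_ne_zero
    filter_upwards [h3] with w hw
    simp [hw]
  have hi : CircleIntegrable (fun w => Real.log ‖g w‖) 0 1 :=
    (ha'.mono sphere_subset_closedBall).meromorphicOn.circleIntegrable_log_norm
  have h5 : Real.circleAverage (fun w => if g w = 0 then u w else Real.log ‖g w‖) 0 1
      ≤ Real.circleAverage u 0 1 := by
    refine Real.circleAverage_mono ?_ (hu.continuousOn.circleIntegrable' ) fun w _ => ?_
    · refine (CircleIntegrable.congr_codiscreteWithin ?_ hi)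
      filter_upwards [h3] with w hw
      simp [hw]
    · split_ifs with hw
      · exact le_rfl
      · exact hgu w hw
  linarith

lemma subMean_log_SS {ι : Type*} {s : Finset ι} {f : ι → E → ℂ} (hf : ∀ i ∈ s, Hol (f i))
    (hp : ∀ z, 0 < SS s f z) : SubMean fun z => Real.log (SS s f z) := by
  intro a b
  have hc := (contDiff_log (contDiff_SS hf) hp).continuous
  have hcS := (contDiff_SS hf).continuous
  set g : ℂ → ℂ := fun w => (∑ i ∈ s, conj (f i a) * f i (a + w • b)) ^ 2 with hg
  have hd : Differentiable ℂ g :=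
    (Differentiable.fun_sum fun i hi => ((hf i hi).diff a b).const_mul _).pow 2
  have h0 : ‖g 0‖ = SS s f a ^ 2 := by
    simp only [hg, zero_smul, add_zero, Complex.conj_mul', ← Complex.ofReal_pow,
      ← Complex.ofReal_sum, Complex.norm_real, SS]
    exact Real.norm_of_nonneg (by positivity)
  have h1 := log_norm_le_circleAverage hd (by rw [← norm_ne_zero_iff, h0]; have := hp a; positivity)
    (u := fun w => Real.log (SS s f a) + Real.log (SS s f (a + w • b)))
    (continuous_const.add (hc.comp (by fun_prop))) fun w hw => by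
      rw [← Real.log_mul (hp _).ne' (hp _).ne']
      refine Real.log_le_log (norm_pos_iff.2 hw) ?_
      rw [hg, norm_pow]
      refine le_trans ?_ (Finset.sum_mul_sq_le_sq_mul_sq s (fun i => ‖f i a‖)
        fun i => ‖f i (a + w • b)‖)
      gcongr
      refine (norm_sum_le _ _).trans (le_of_eq ?_)
      simp
  have hc' : Continuous fun w : ℂ => Real.log (SS s f (a + w • b)) := hc.comp (by fun_prop)
  rw [h0, Real.log_pow, Real.circleAverage_fun_add (circleIntegrable_const _ _ _)
    hc'.continuousOn.circleIntegrable', Real.circleAverage_const] at h1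
  push_cast at h1
  linarith

/-- The mollification of a weakly holomorphic function is entire. -/
lemma cr_moll (ρ : ContDiffBump (0 : E)) {p : E → ℂ} (hp : LocallyIntegrable p)
    (h : ∀ j ζ, Test ζ → ∫ z, p z * db j ζ z = 0) : CR (moll ρ p) :=
  ⟨contDiff_moll ρ hp, fun j z => by rw [db_moll ρ hp, h j _ (test_ker ρ z), neg_zero]⟩

end Pool.Agent.Lib.MP_29d677_an
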