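import Pool.Agent.Lib.MP_29d677_an.Horm
import Pool.Agent.Lib.MP_29d677_an.Poly

/-!
Construction of peak entire functions adapted to a smooth plurisubharmonic function.
-/

namespace Pool.Agent.Lib.MP_29d677_an

open MeasureTheory Filter Topology Complex Metric
open scoped ContDiff ComplexConjugate

lemma finrank_E : Module.finrank ℝ E = 4 := by
  simp [Module.finrank_pi_fintype]

lemma Lev_const (c : ℝ) (z ξ : E) : Lev (fun _ => c) z ξ = 0 := by
  have h : ∀ v, D v (fun _ : E => c) = fun _ => 0 := fun v => funext fun x => D_const c v x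
  simp [Lev, h, D_const]

lemma Lev_log_SS_add {ι : Type*} {s : Finset ι} {f : ι → E → ℂ} (hf : ∀ i ∈ s, Hol (f i))
    {τ : ℝ} (hτ : 0 < τ) (z v : E) :
    4 * τ * SS s (fun i => D v (f i)) z / (SS s f z + τ) ^ 2
      ≤ Lev (fun x => Real.log (SS s f x + τ)) z v := by
  have hS := contDiff_SS hf
  have hp : ∀ x, 0 < SS s f x + τ := fun x => by have := SS_nonneg (s := s) (f := f) x; positivity
  rw [Lev_log (hS.add contDiff_const) hp, Lev_add hS contDiff_const, Lev_const,
    D_add hS contDiff_const, D_add hS contDiff_const, D_const, D_const, add_zero, add_zero,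
    add_zero, Lev_SS hf, D_SS_sq hf]
  have h1 := AA_sq_le (s := s) (f := f) v z
  have h2 := hp z
  rw [div_sub_div _ _ h2.ne' (by positivity), div_le_div_iff₀ (by positivity) (by positivity)]
  have : 0 ≤ (SS s f z + τ) ^ 3 * (4 * (SS s f z * SS s (fun i => D v (f i)) z
    - ‖AA s f v z‖ ^ 2)) := mul_nonneg (by positivity) (by linarith)
  nlinarith

/-- The coordinate functions centred at `c`. -/
noncomputable def co (c : E) (j : Fin 2) : E → ℂ := fun z => z j - c j

lemma hol_co (c : E) (j : Fin 2) : Hol (co c j) :=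
  (contDiff_apply ℂ ℂ j).sub contDiff_const

lemma D_co (c v z : E) (j : Fin 2) : D v (co c j) z = v j := by
  have h : HasFDerivAt (co c j) (ContinuousLinearMap.proj j : E →L[ℝ] ℂ) z :=
    (hasFDerivAt_apply j z).sub_const (c j)
  simp [D, h.fderiv]

/-- The square of the Euclidean distance to `c`. -/
noncomputable def NN (c : E) : E → ℝ := SS Finset.univ (co c)

lemma NN_nonneg (c z : E) : 0 ≤ NN c z := SS_nonneg z

lemma NN_le (c z : E) : NN c z ≤ 2 * dist z c ^ 2 := by
  have h : ∀ j, ‖z j - c j‖ ^ 2 ≤ dist z c ^ 2 := fun j => by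
    rw [← dist_eq_norm]; gcongr; exact dist_le_pi_dist z c j
  simp only [NN, SS, co, Fin.sum_univ_two]
  linarith [h 0, h 1]

lemma le_NN (c z : E) : dist z c ^ 2 ≤ NN c z := by
  rw [← Real.sq_sqrt (NN_nonneg c z)]
  gcongr
  refine (dist_pi_le_iff (Real.sqrt_nonneg _)).2 fun j => Real.le_sqrt_of_sq_le ?_
  rw [dist_eq_norm]
  exact Finset.single_le_sum (f := fun j => ‖co c j z‖ ^ 2) (fun _ _ => by positivity)
    (Finset.mem_univ j)

lemma contDiff_logNN (c : E) {τ : ℝ} (hτ : 0 < τ) :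
    ContDiff ℝ ∞ fun z => Real.log (NN c z + τ) :=
  contDiff_log ((contDiff_SS fun j _ => hol_co c j).add contDiff_const) fun z => by
    have := NN_nonneg c z; positivity

lemma Lev_logNN (c : E) {τ : ℝ} (hτ : 0 < τ) (z v : E) :
    4 * τ * (‖v 0‖ ^ 2 + ‖v 1‖ ^ 2) / (NN c z + τ) ^ 2
      ≤ Lev (fun x => Real.log (NN c x + τ)) z v := by
  have := Lev_log_SS_add (s := Finset.univ) (fun j _ => hol_co c j) hτ z v
  simpa only [SS, D_co, Fin.sum_univ_two, NN] using this

lemma exists_moll_bound : ∃ κ : ℝ, 0 < κ ∧ ∀ (φ : E → ℝ), ContDiff ℝ ∞ φ → ∀ (t : ℝ) (ht : 0 < t)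
    (a : E → ℂ), MemLp (fun z => a z * om φ z) 2 volume → ∀ (x : E) (Φ : ℝ),
    (∀ y ∈ ball x t, φ y ≤ Φ) →
    ‖moll (bump ht) a x‖ ^ 2 ≤ κ / t ^ 4 * Real.exp Φ * n2 (fun z => a z * om φ z) ^ 2 := by
  have hv : 0 < volume.real (closedBall (0 : E) 1) :=
    ENNReal.toReal_pos (measure_closedBall_pos _ _ one_pos).ne' measure_closedBall_lt_top.ne
  refine ⟨16 / volume.real (closedBall (0 : E) 1), by positivity, fun φ hφ t ht a ha x Φ hΦ => ?_⟩
  set κ := 16 / volume.real (closedBall (0 : E) 1) with hκ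
  have hρ : ∀ y, (bump ht).normed volume y ≤ κ / t ^ 4 := fun y => by
    refine ((bump ht).normed_le_div_measure_closedBall_rIn volume y).trans (le_of_eq ?_)
    rw [Measure.addHaar_real_closedBall' _ _ (bump ht).rIn_pos.le, finrank_E, hκ]
    simp only [bump]; field_simp; norm_num
  have hk : Test fun y => (om φ y)⁻¹ * ker (bump ht) x y :=
    (test_ker _ x).mul_left ((contDiff_om hφ).inv om_ne_zero)
  have e : moll (bump ht) a x = ∫ y, a y * om φ y * ((om φ y)⁻¹ * ker (bump ht) x y) := by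
    rw [moll_ker]; congr 1; funext y
    have := om_ne_zero (φ := φ) y; field_simp
  have h1 : n2 (fun y => (om φ y)⁻¹ * ker (bump ht) x y) ^ 2 ≤ κ / t ^ 4 * Real.exp Φ := by
    rw [n2_sq (hk.memLp 2), ← mul_one (κ / t ^ 4 * Real.exp Φ), ← integral_kernel (bump ht) x,
      ← integral_const_mul]
    refine integral_mono (integrable_sq (hk.memLp 2))
      ((test_kernel _ x).integrable.const_mul _) fun y => ?_
    by_cases hy : y ∈ ball x t
    · have h0 := (bump ht).nonneg_normed (μ := volume) (x - y)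
      simp only [ker, norm_mul, mul_pow, norm_inv, inv_pow, norm_om_sq, Complex.norm_real,
        Real.norm_of_nonneg h0, ← Real.exp_neg, neg_neg]
      calc _ = (bump ht).normed volume (x - y) * Real.exp (φ y)
            * (bump ht).normed volume (x - y) := by ring
        _ ≤ _ := by gcongr; exacts [hρ _, hΦ y hy]
    · simp [ker, kernel_eq_zero (bump ht) (x := x) (t := y) (not_lt.1 hy)]
  rw [e]
  calc _ ≤ (n2 (fun z => a z * om φ z) * n2 (fun y => (om φ y)⁻¹ * ker (bump ht) x y)) ^ 2 := by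
        gcongr; exact n2_inner ha (hk.memLp 2)
    _ = n2 (fun y => (om φ y)⁻¹ * ker (bump ht) x y) ^ 2 * n2 (fun z => a z * om φ z) ^ 2 := by
        ring
    _ ≤ _ := by gcongr

lemma n2_om_le {φ : E → ℝ} {g : E → ℂ} (hg : Test g) {m : ℝ} (h : ∀ z, g z ≠ 0 → m ≤ φ z) :
    n2 (fun z => g z * om φ z) ^ 2 ≤ Real.exp (-m) * n2 g ^ 2 := by
  have h1 := n2_le_mul (f := fun z => g z * om φ z) (C := Real.exp (-m / 2)) (Real.exp_pos _).le
    (hg.memLp 2) (Eventually.of_forall fun z => by
      by_cases hz : g z = 0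
      · simp [hz]
      · rw [norm_mul, norm_om, mul_comm]
        gcongr; exact h z hz)
  calc _ ≤ (Real.exp (-m / 2) * n2 g) ^ 2 := by gcongr; exact n2_nonneg _
    _ = _ := by rw [mul_pow, sq (Real.exp _), ← Real.exp_add, add_halves]

theorem exists_peak {u : E → ℝ} (hu : ContDiff ℝ ∞ u) (hL : ∀ z ξ, 0 ≤ Lev u z ξ) (c : E)
    {ε r : ℝ} (hε : 0 < ε) (hr : 0 < r) : ∃ C, 0 < C ∧ ∀ n : ℕ, ∃ f, CR f ∧ 1 / 2 ≤ ‖f c‖ ∧
      ∀ x A, (∀ y ∈ ball x r, u y ≤ A) →
        ‖f x‖ ≤ C * (1 + ‖x - c‖) ^ 4 * Real.exp (n * (A - u c + 11 * ε)) := by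
  obtain ⟨κ, hκ, hmoll⟩ := exists_moll_bound
  obtain ⟨δ, hδ, hcont⟩ := Metric.continuous_iff.1 hu.continuous c ε hε
  set s := min (δ / 3) (1 / 2) with hs
  have hs0 : 0 < s := by positivity
  have hs1 : s ≤ 1 / 2 := min_le_right _ _
  have hsδ : s ≤ δ / 3 := min_le_left _ _
  have hosc : ∀ y, dist y c ≤ 2 * s → u c - ε ≤ u y ∧ u y ≤ u c + ε := fun y hy => by
    have := abs_lt.1 (hcont y (by linarith))
    constructor <;> linarith [this.1, this.2]
  have hg : Test fun x => (cut s c x : ℂ) := (test_cut hs0 c).ofReal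
  set g := fun x => (cut s c x : ℂ) with hgdef
  have hgs : ∀ z, g z ≠ 0 → dist z c ≤ 2 * s := fun z hz => by
    by_contra h; exact hz (by simp [hgdef, cut_eq_zero hs0 (not_le.1 h).le])
  have hdb : ∀ j z, db j g z ≠ 0 → s ≤ dist z c ∧ dist z c ≤ 2 * s := fun j z hz => by
    constructor
    · by_contra h
      exact hz (by simp [hgdef, db, D_ofReal (contDiff_cut s c), D_cut_eq_zero_near hs0 (not_le.1 h)])
    · by_contra h
      exact hz (by simp [hgdef, db, D_ofReal (contDiff_cut s c), D_cut_eq_zero_far hs0 (not_le.1 h)])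
  set C1 := (n2 (db 0 g) ^ 2 + n2 (db 1 g) ^ 2) / s ^ 6 with hC1
  have hC10 : 0 ≤ C1 := by positivity
  set t0 := min (min s r) (1 / (1000 * (κ * C1 + 1))) with ht0
  have ht00 : 0 < t0 := by positivity
  have ht0s : t0 ≤ s := (min_le_left _ _).trans (min_le_left _ _)
  have ht0r : t0 ≤ r := (min_le_left _ _).trans (min_le_right _ _)
  have ht01 : t0 * (1000 * (κ * C1 + 1)) ≤ 1 :=
    (le_div_iff₀ (by positivity)).1 (min_le_right _ _)
  refine ⟨Real.sqrt κ / t0 ^ 5 * 9 * (n2 g + 1), by have := n2_nonneg g; positivity, fun n => ?_⟩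
  set e := Real.exp (n * ε) with he
  have he1 : 1 ≤ e := Real.one_le_exp (by positivity)
  set t := t0 / e ^ 2 with ht
  have htp : 0 < t := by positivity
  have htt : t ≤ t0 := div_le_self ht00.le (one_le_pow₀ he1)
  set φ := fun z => 2 * (n : ℝ) * u z + (3 * Real.log (NN c z + t ^ 2) + Real.log (NN c z + 1))
    with hφdef
  have s1 := contDiff_logNN c (τ := t ^ 2) (by positivity)
  have s2 := contDiff_logNN c one_pos
  have hφ : ContDiff ℝ ∞ φ := (contDiff_const.mul hu).add ((contDiff_const.mul s1).add s2)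
  have hLev : ∀ z ξ, 4 * (‖ξ 0‖ ^ 2 + ‖ξ 1‖ ^ 2) / (NN c z + 1) ^ 2 ≤ Lev φ z ξ := fun z ξ => by
    rw [hφdef, Lev_add (contDiff_const.mul hu) ((contDiff_const.mul s1).add s2),
      Lev_add (contDiff_const.mul s1) s2, Lev_const_mul _ hu, Lev_const_mul _ s1]
    have a1 := Lev_logNN c (τ := t ^ 2) (by positivity) z ξ
    have a2 := Lev_logNN c one_pos z ξ
    have a3 : 0 ≤ 4 * t ^ 2 * (‖ξ 0‖ ^ 2 + ‖ξ 1‖ ^ 2) / (NN c z + t ^ 2) ^ 2 := by positivity
    have a4 : 0 ≤ 2 * (n : ℝ) * Lev u z ξ := mul_nonneg (by positivity) (hL z ξ)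
    rw [mul_one] at a2
    linarith
  have hexp : ∀ y, Real.exp (φ y)
      = Real.exp (2 * n * u y) * ((NN c y + t ^ 2) ^ 3 * (NN c y + 1)) := fun y => by
    have := NN_nonneg c y
    rw [hφdef, Real.exp_add, Real.exp_add, Real.exp_log (by positivity),
      show (3 : ℝ) = (3 : ℕ) by norm_num, ← Real.log_pow, Real.exp_log (by positivity)]
  have hup : ∀ (y : E) (A B : ℝ), u y ≤ A → (NN c y + t ^ 2) ^ 3 * (NN c y + 1) ≤ B →
      φ y ≤ 2 * n * A + Real.log B := fun y A B h1 h2 => by
    have := NN_nonneg c y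
    have hB : 0 < B := lt_of_lt_of_le (by positivity) h2
    rw [← Real.exp_le_exp, hexp, Real.exp_add, Real.exp_log hB]
    gcongr
  have hlo : ∀ (y : E) (B : ℝ), 0 < B → dist y c ≤ 2 * s → B ≤ NN c y + t ^ 2 →
      2 * n * (u c - ε) + Real.log (B ^ 3) ≤ φ y := fun y B hB h1 h2 => by
    have := NN_nonneg c y
    rw [← Real.exp_le_exp, hexp, Real.exp_add, Real.exp_log (by positivity), ← mul_one (B ^ 3)]
    gcongr
    exacts [(hosc y h1).1, by linarith]
  obtain ⟨p, hp, hpw, hp1, hp2⟩ := hormander hφ (lam := 4 / 9) (by norm_num) hg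
    (fun z ξ => le_trans (by positivity) (hLev z ξ)) (fun z hz ξ => by
      refine le_trans ?_ (hLev z ξ)
      have h1 : dist z c ≤ 1 := by
        rcases hz with hz | hz <;> linarith [(hdb _ z hz).2]
      have h2 : NN c z + 1 ≤ 3 := by
        have := NN_le c z
        nlinarith [dist_nonneg (x := z) (y := c)]
      have := NN_nonneg c z
      rw [le_div_iff₀ (by positivity)]
      have h3 : (NN c z + 1) ^ 2 ≤ 3 ^ 2 := by gcongr
      nlinarith [mul_le_mul_of_nonneg_left h3 (show 0 ≤ ‖ξ 0‖ ^ 2 + ‖ξ 1‖ ^ 2 by positivity)])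
  have hpl := li_of_om hφ hp
  have hE : ∀ a b : ℝ, 0 < b → Real.exp (-(2 * n * a + Real.log b))
      = Real.exp (-(2 * n * a)) / b := fun a b hb => by
    rw [neg_add, Real.exp_add, Real.exp_neg (Real.log b), Real.exp_log hb, div_eq_mul_inv]
  refine ⟨moll (bump htp) p, cr_moll _ hpl hpw, ?_, fun x A hA => ?_⟩
  · have hv : MemLp (fun z => (g z - p z) * om φ z) 2 volume := by
      simp only [sub_mul]; exact (memLp_om hφ hg).sub hp
    have h1 := hmoll φ hφ t htp _ hv c (2 * n * (u c + ε) + Real.log (81 * t ^ 6)) fun y hy => by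
      have hy' : dist y c < t := hy
      refine hup y _ _ (hosc y (by linarith)).2 ?_
      have a1 := NN_le c y
      have a2 : dist y c ^ 2 ≤ t ^ 2 := by gcongr
      have a3 : t ^ 2 ≤ 1 := pow_le_one₀ htp.le (by linarith)
      have := NN_nonneg c y
      calc _ ≤ (3 * t ^ 2) ^ 3 * 3 := by gcongr <;> linarith
        _ = _ := by ring
    have h2 : ∀ j, n2 (fun z => db j g z * om φ z) ^ 2
        ≤ Real.exp (-(2 * n * (u c - ε))) / s ^ 6 * n2 (db j g) ^ 2 := fun j => by
      have := n2_om_le (φ := φ) (hg.db j) fun z hz => hlo z (s ^ 2) (by positivity) (hdb j z hz).2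
        (by
          have a1 := le_NN c z
          have a2 : s ^ 2 ≤ dist z c ^ 2 := by gcongr; exact (hdb j z hz).1
          nlinarith [sq_nonneg t])
      rwa [hE _ _ (by positivity), ← pow_mul] at this
    have h3 : n2 (fun z => (g z - p z) * om φ z) ^ 2
        ≤ Real.exp (-(2 * n * (u c - ε))) * C1 * (9 / 4) := by
      refine hp2.trans ?_
      rw [div_le_iff₀ (by norm_num), hC1]
      refine (add_le_add (h2 0) (h2 1)).trans (le_of_eq ?_)
      ring
    have h4 : ‖moll (bump htp) (fun z => g z - p z) c‖ ^ 2 ≤ (1 / 2) ^ 2 := by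
      refine h1.trans ((mul_le_mul_of_nonneg_left h3 (by positivity)).trans ?_)
      have a1 : Real.exp (2 * n * (u c + ε)) * Real.exp (-(2 * n * (u c - ε))) = e ^ 4 := by
        rw [he, ← Real.exp_add, ← Real.exp_nat_mul]; congr 1; push_cast; ring
      rw [Real.exp_add, Real.exp_log (by positivity)]
      calc _ = (Real.exp (2 * n * (u c + ε)) * Real.exp (-(2 * n * (u c - ε)))) * t ^ 2
            * (κ * C1) * (81 * 9 / 4) := by field_simp
        _ = t0 * (t0 * (κ * C1)) * (81 * 9 / 4) := by rw [a1, ht]; field_simp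
        _ ≤ 1 * (1 / 1000) * (81 * 9 / 4) := by
            gcongr
            · linarith
            · nlinarith
        _ ≤ _ := by norm_num
    have h5 := (pow_le_pow_iff_left₀ (norm_nonneg _) (by norm_num) two_ne_zero).1 h4
    have h6 : moll (bump htp) g c = 1 := by
      have a1 : moll (bump htp) (fun z => g z - 1) c = 0 := moll_eq_zero _ fun y hy => by
        have hy' : dist y c < t := hy
        simp [hgdef, cut_eq_one hs0 (c := c) (z := y) (by linarith)]
      rw [moll_sub _ hg.integrable.locallyIntegrable (locallyIntegrable_const _), moll_eq _ (fun _ => 1),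
        integral_smul_const, integral_kernel, one_smul, sub_eq_zero] at a1
      exact a1
    rw [moll_sub _ hg.integrable.locallyIntegrable hpl, h6] at h5
    have := norm_sub_norm_le (1 : ℂ) (moll (bump htp) p c)
    rw [norm_one] at this
    linarith
  · have h1 := hmoll φ hφ t htp _ hp x
      (2 * n * A + Real.log (81 * (1 + ‖x - c‖) ^ 8)) fun y hy => by
      have hy' : dist y x < t := hy
      refine hup y _ _ (hA y (by simp only [mem_ball]; linarith)) ?_
      have a1 := NN_le c y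
      have a2 : dist y c ^ 2 ≤ (1 + ‖x - c‖) ^ 2 := by
        gcongr
        have := dist_triangle y x c
        rw [dist_eq_norm x c] at this
        linarith
      have a3 : t ^ 2 ≤ 1 := pow_le_one₀ htp.le (by linarith)
      have a4 : 1 ≤ (1 + ‖x - c‖) ^ 2 := one_le_pow₀ (by linarith [norm_nonneg (x - c)])
      have := NN_nonneg c y
      calc _ ≤ (3 * (1 + ‖x - c‖) ^ 2) ^ 3 * (3 * (1 + ‖x - c‖) ^ 2) := by gcongr <;> linarith
        _ = _ := by ring
    have h2 := n2_om_le (φ := φ) hg fun z hz => hlo z (t ^ 2) (by positivity) (hgs z hz)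
      (by linarith [NN_nonneg c z])
    rw [hE _ _ (by positivity), ← pow_mul] at h2
    have h3 : n2 (fun z => p z * om φ z) ^ 2
        ≤ Real.exp (-(2 * n * (u c - ε))) / t ^ (2 * 3) * (n2 g + 1) ^ 2 := by
      refine (pow_le_pow_left₀ (n2_nonneg _) hp1 2).trans (h2.trans ?_)
      gcongr
      exacts [n2_nonneg _, by linarith]
    have := n2_nonneg g
    refine (pow_le_pow_iff_left₀ (norm_nonneg _) (by positivity) two_ne_zero).1
      (h1.trans ((mul_le_mul_of_nonneg_left h3 (by positivity)).trans (le_of_eq ?_)))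
    have a1 : Real.exp (n * (A - u c + 11 * ε)) ^ 2
        = Real.exp (2 * n * A) * Real.exp (-(2 * n * (u c - ε))) * e ^ 20 := by
      rw [he, ← Real.exp_add, ← Real.exp_nat_mul, ← Real.exp_nat_mul, ← Real.exp_add]
      congr 1; push_cast; ring
    rw [Real.exp_add, Real.exp_log (by positivity), mul_pow, a1, mul_pow, mul_pow, mul_pow,
      div_pow (Real.sqrt κ), Real.sq_sqrt hκ.le, ht]
    field_simp
    norm_num
    field_simp

end Pool.Agent.Lib.MP_29d677_an
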