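import Pool.Agent.Lib.MP_29d677_an.Det

/-!
The probabilistic estimates.
-/

namespace Pool.Agent.Lib.MP_29d677_an

open MeasureTheory Filter Topology Complex Metric ProbabilityTheory Function
open scoped ContDiff ComplexConjugate Real ENNReal

/-- The function `|w|^(-3/2)`. -/
noncomputable def psi (w : ℂ) : ℝ≥0∞ := (ENNReal.ofReal √‖w‖)⁻¹ ^ 3

lemma measurable_psi : Measurable psi :=
  (measurable_norm.sqrt.ennreal_ofReal.inv).pow_const 3

lemma psi_int : ∫⁻ w in ball (0 : ℂ) 1, psi w ≠ ⊤ := by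
  have h := integrableOn_ball_of_norm_le_rpow (μ := (volume : Measure ℂ)) (E := ℂ) (by simp)
    (f := fun w => ‖w‖ ^ (-(3 / 2 : ℝ))) (C := 1) (α := 3 / 2) (r := 1) (by norm_num)
    (Eventually.of_forall fun w => by
      rw [Real.norm_of_nonneg (by positivity), one_mul])
    (measurable_norm.pow_const _).aestronglyMeasurable
  refine ne_top_of_le_ne_top h.2.ne (lintegral_mono_ae ?_)
  filter_upwards [ae_restrict_of_ae (compl_mem_ae_iff.2 (measure_singleton (0 : ℂ)))] with w hw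
  have h0 : 0 < ‖w‖ := norm_pos_iff.2 hw
  rw [psi, ← ENNReal.ofReal_inv_of_pos (Real.sqrt_pos.2 h0), ← ENNReal.ofReal_pow (by positivity),
    ← ofReal_norm, Real.norm_of_nonneg (by positivity), Real.sqrt_eq_rpow, ← Real.rpow_neg h0.le,
    ← Real.rpow_natCast, ← Real.rpow_mul h0.le]
  norm_num

lemma exists_psi_bound (ν : Measure ℂ) [IsProbabilityMeasure ν] {T : ℝ}
    (hν : ν ≤ ENNReal.ofReal T • volume) :
    ∃ C : ℝ, 0 ≤ C ∧ ∀ r, ∫⁻ w, psi (w + r) ∂ν ≤ ENNReal.ofReal C := by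
  have hne : 1 + ENNReal.ofReal T * ∫⁻ w in ball (0 : ℂ) 1, psi w ≠ ⊤ :=
    ENNReal.add_ne_top.2 ⟨by simp, ENNReal.mul_ne_top (by simp) psi_int⟩
  refine ⟨_, ENNReal.toReal_nonneg, fun r => le_trans ?_ (ENNReal.ofReal_toReal hne).ge⟩
  calc _ ≤ ∫⁻ w, (1 + (ball 0 1).indicator psi (w + r)) ∂ν := by
        refine lintegral_mono fun w => ?_
        by_cases hw : w + r ∈ ball (0 : ℂ) 1
        · simp [hw]
        · simp only [hw, not_false_eq_true, Set.indicator_of_notMem, add_zero, psi]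
          refine pow_le_one₀ (by simp) (ENNReal.inv_le_one.2 (ENNReal.one_le_ofReal.2 ?_))
          exact Real.one_le_sqrt.2 (by simpa using hw)
    _ = 1 + ∫⁻ w, (ball 0 1).indicator psi (w + r) ∂ν := by
        rw [lintegral_add_left measurable_const]; simp
    _ ≤ _ := by
        gcongr
        refine (lintegral_mono' hν le_rfl).trans (le_of_eq ?_)
        rw [lintegral_smul_measure, lintegral_add_right_eq_self, lintegral_indicator
          measurableSet_ball, smul_eq_mul]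

lemma pi_step {I : Type} [Fintype I] [DecidableEq I] (ν : Measure ℂ) [IsProbabilityMeasure ν]
    {C : ℝ≥0∞} (hC : ∀ r, ∫⁻ w, psi (w + r) ∂ν ≤ C) (x0 : I) {G : (I → ℂ) → ℂ}
    {h : (I → ℂ) → ℝ≥0∞} (hG : Measurable G) (hh : Measurable h)
    (h1 : ∀ b, ∃ r, ∀ w, G (update b x0 w) = w + r) (h2 : ∀ b w, h (update b x0 w) = h b) :
    ∫⁻ b, psi (G b) * h b ∂(Measure.pi fun _ => ν) ≤ C * ∫⁻ b, h b ∂(Measure.pi fun _ => ν) := by
  rw [← lintegral_const_mul _ hh]
  refine lintegral_le_of_lmarginal_le {x0} ((measurable_psi.comp hG).mul hh) (hh.const_mul _) ?_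
  simp only [lmarginal_singleton]
  intro b
  obtain ⟨r, hr⟩ := h1 b
  simp only [hr, h2, lintegral_const, measure_univ, mul_one]
  exact (lintegral_mul_const _ (measurable_psi.comp (measurable_add_const r))).trans_le
    (mul_le_mul_left (hC r) _)

lemma borel_cantelli {Ω : Type*} [MeasurableSpace Ω] {P : Measure Ω} {s : ℕ → Set Ω} {C : ℝ}
    (h : ∀ᶠ n : ℕ in atTop, P (s n) ≤ ENNReal.ofReal (C / ((n : ℝ) + 1) ^ 2)) :
    ∀ᵐ o ∂P, ∀ᶠ n in atTop, o ∉ s n := by
  obtain ⟨N, hN⟩ := eventually_atTop.1 h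
  have hs : Summable fun n : ℕ => |C| / ((n : ℝ) + 1) ^ 2 := by
    have := ((summable_nat_add_iff 1).2 (Real.summable_nat_pow_inv.2 one_lt_two)).mul_left |C|
    simpa [div_eq_mul_inv] using this
  have h1 := ae_eventually_notMem (μ := P) (s := fun n => if N ≤ n then s n else ∅)
    (ne_top_of_le_ne_top ENNReal.ofReal_ne_top ((ENNReal.tsum_le_tsum fun n => ?_).trans
      (ENNReal.ofReal_tsum_of_nonneg (fun n => by positivity) hs).ge))
  · filter_upwards [h1] with o ho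
    filter_upwards [ho, eventually_ge_atTop N] with n h2 h3
    simpa [h3] using h2
  · split_ifs with hn
    · refine (hN n hn).trans (ENNReal.ofReal_le_ofReal ?_)
      gcongr; exact le_abs_self C
    · simp

lemma Y_le_aux {N : ℕ} (hN' : 0 < N) {G0 G1 : ℂ} {p S B : ℝ} (hB : 0 < B) (hBN : B ≤ N * p ^ 2)
    (hS : S = (‖G0‖ ^ 2 + ‖G1‖ ^ 2) * p ^ 2) :
    (ENNReal.ofReal √(S / B))⁻¹ ^ 3 ≤ (N : ℝ≥0∞) ^ 3 * (psi G0 * psi G1) := by
  have hN : (1 : ℝ) ≤ N := by exact_mod_cast hN'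
  have h1 : √‖G0‖ * √‖G1‖ ≤ N * √(S / B) := by
    rw [← Real.sqrt_mul (norm_nonneg _), ← Real.sqrt_sq (zero_le_one.trans hN),
      ← Real.sqrt_mul (sq_nonneg _)]
    refine Real.sqrt_le_sqrt ?_
    rw [← mul_div_assoc, le_div_iff₀ hB, hS]
    have a1 : ‖G0‖ * ‖G1‖ ≤ ‖G0‖ ^ 2 + ‖G1‖ ^ 2 := by
      nlinarith [sq_nonneg (‖G0‖ - ‖G1‖), norm_nonneg G0, norm_nonneg G1]
    calc _ ≤ (‖G0‖ ^ 2 + ‖G1‖ ^ 2) * (N ^ 2 * p ^ 2) := by
          gcongr
          exact hBN.trans (by gcongr; nlinarith)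
      _ = _ := by ring
  have h2 := ENNReal.ofReal_le_ofReal h1
  rw [ENNReal.ofReal_mul (Real.sqrt_nonneg _), ENNReal.ofReal_mul (by positivity),
    ENNReal.ofReal_natCast] at h2
  have hN0 : (N : ℝ≥0∞) ≠ 0 := by exact_mod_cast hN'.ne'
  simp only [psi, ← mul_pow]
  gcongr
  rw [← ENNReal.mul_inv (by simp) (by simp)]
  calc _ = (N : ℝ≥0∞) * ((N : ℝ≥0∞) * ENNReal.ofReal √(S / B))⁻¹ := by
        rw [ENNReal.mul_inv (by simp) (by simp), ← mul_assoc,
          ENNReal.mul_inv_cancel hN0 (by simp), one_mul]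
    _ ≤ _ := by gcongr

lemma exp_GG {J : Type} [Fintype J] (ν : Measure ℂ) [IsProbabilityMeasure ν]
    {C : ℝ≥0∞} (hC : ∀ r, ∫⁻ w, psi (w + r) ∂ν ≤ C) (c : J → ℂ) (i0 : J) (h0 : c i0 ≠ 0) :
    ∫⁻ b : Fin 2 × J → ℂ, psi ((∑ i, b (0, i) * c i) / c i0) * psi ((∑ i, b (1, i) * c i) / c i0)
      ∂(Measure.pi fun _ => ν) ≤ C * C := by
  classical
  have mG : ∀ j, Measurable fun b : Fin 2 × J → ℂ => (∑ i, b (j, i) * c i) / c i0 :=
    fun j => Continuous.measurable (by fun_prop)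
  have u1 : ∀ (j : Fin 2) (b : Fin 2 × J → ℂ), ∃ r, ∀ w,
      (∑ i, update b (j, i0) w (j, i) * c i) / c i0 = w + r := fun j b => by
    refine ⟨(∑ i ∈ Finset.univ.erase i0, b (j, i) * c i) / c i0, fun w => ?_⟩
    rw [← Finset.add_sum_erase _ _ (Finset.mem_univ i0), update_self, add_div,
      mul_div_cancel_right₀ _ h0]
    congr 2
    exact Finset.sum_congr rfl fun i hi => by
      rw [update_of_ne (by simpa using Finset.ne_of_mem_erase hi)]
  have s1 := pi_step ν hC (0, i0) (mG 0)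
    (h := fun b => psi ((∑ i, b (1, i) * c i) / c i0)) (measurable_psi.comp (mG 1)) (u1 0)
    fun b w => by rw [Finset.sum_congr rfl fun i _ => by rw [update_of_ne (by simp)]]
  have s2 := pi_step ν hC (1, i0) (mG 1) (h := fun _ => 1) measurable_const (u1 1)
    fun _ _ => rfl
  simp only [mul_one, lintegral_const, measure_univ] at s2
  exact s1.trans (mul_le_mul_right s2 _)

namespace Data
variable {ι : Type} (d : Data ι) (n : ℕ)

open Classical in
/-- Extension by zero of a coefficient vector. -/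
noncomputable def ex (b : Fin 2 × d.s n → ℂ) : Fin 2 → ι → ℂ :=
  fun j i => if h : i ∈ d.s n then b (j, ⟨i, h⟩) else 0

lemma H_ex (b : Fin 2 × d.s n → ℂ) (j : Fin 2) (z : E) :
    d.H n (d.ex n b) j z = ∑ i : d.s n, b (j, i) * d.P n i z := by
  rw [H, ← Finset.sum_coe_sort]
  simp [ex]

lemma Z_ex (a : Fin 2 → ι → ℂ) (k : ℕ) : d.Z n (d.ex n fun x => a x.1 x.2) k = d.Z n a k := by
  have : d.H n (d.ex n fun x => a x.1 x.2) = d.H n a := by
    funext j z
    rw [H_ex, H, ← Finset.sum_coe_sort (d.s n)]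
  simp only [Z, Y, S, this]

lemma measurable_Y_ex : Measurable fun p : (Fin 2 × d.s n → ℂ) × E => d.Y n (d.ex n p.1) p.2 := by
  have h1 : Continuous fun p : (Fin 2 × d.s n → ℂ) × E => d.S n (d.ex n p.1) p.2 := by
    simp only [S, SS, H_ex]
    refine continuous_finsetSum _ fun j _ => (continuous_finsetSum _ fun i _ => ?_).norm.pow 2
    exact ((continuous_apply _).comp continuous_fst).mul
      ((d.hol_P n i i.2).continuous.comp continuous_snd)
  exact (((h1.measurable.div ((d.contDiff_B n).continuous.comp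
    continuous_snd).measurable).sqrt.ennreal_ofReal).inv).pow_const 3

lemma exp_Y_le (ν : Measure ℂ) [IsProbabilityMeasure ν] {C : ℝ≥0∞}
    (hC : ∀ r, ∫⁻ w, psi (w + r) ∂ν ≤ C) (z : E) :
    ∫⁻ b, d.Y n (d.ex n b) z ∂(Measure.pi fun _ => ν) ≤ ((d.s n).card : ℝ≥0∞) ^ 3 * (C * C) := by
  classical
  have hB := d.B_pos n z
  have hne : (d.s n).Nonempty := by
    by_contra h
    rw [Finset.not_nonempty_iff_eq_empty] at h
    simp [B, SS, h] at hB
  obtain ⟨i0, hi0, hmax⟩ := Finset.exists_max_image (d.s n) (fun i => ‖d.P n i z‖) hne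
  have hN : (1 : ℝ) ≤ (d.s n).card := by exact_mod_cast hne.card_pos
  have hBN : d.B n z ≤ (d.s n).card * ‖d.P n i0 z‖ ^ 2 := by
    rw [← nsmul_eq_mul]
    exact Finset.sum_le_card_nsmul _ _ _ fun i hi => pow_le_pow_left₀ (norm_nonneg _) (hmax i hi) 2
  have hP : d.P n i0 z ≠ 0 := by
    intro h; rw [h] at hBN; simp at hBN; linarith
  have s3 := mul_le_mul_right (exp_GG ν hC (fun i : d.s n => d.P n i z) ⟨i0, hi0⟩ hP)
    (((d.s n).card : ℝ≥0∞) ^ 3)
  rw [← lintegral_const_mul' _ _ (by simp)] at s3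
  refine le_trans (lintegral_mono fun b => ?_) s3
  refine Y_le_aux hne.card_pos hB hBN ?_
  have := norm_pos_iff.2 hP
  simp only [S, SS, Fin.sum_univ_two, H_ex, norm_div]
  field_simp

lemma measurable_Z_ex (k : ℕ) : Measurable fun b => d.Z n (d.ex n b) k :=
  Measurable.lintegral_prod_right' (((d.contDiff_T n).continuous.comp
    continuous_snd).measurable.ennreal_ofReal.mul (measurable_const.add (d.measurable_Y_ex n)))

lemma exp_Z_le (ν : Measure ℂ) [IsProbabilityMeasure ν] {C : ℝ≥0∞}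
    (hC : ∀ r, ∫⁻ w, psi (w + r) ∂ν ≤ C) (k : ℕ) :
    ∫⁻ b, d.Z n (d.ex n b) k ∂(Measure.pi fun _ => ν)
      ≤ (∫⁻ z, ENNReal.ofReal (d.T n z) ∂mu k) * (1 + ((d.s n).card : ℝ≥0∞) ^ 3 * (C * C)) := by
  have mT := (d.contDiff_T n).continuous.measurable.ennreal_ofReal
  unfold Z
  rw [lintegral_lintegral_swap (((mT.comp measurable_snd).mul
    (measurable_const.add (d.measurable_Y_ex n))).aemeasurable), ← lintegral_mul_const _ mT]
  refine lintegral_mono fun z => ?_
  rw [lintegral_const_mul' _ _ ENNReal.ofReal_ne_top, lintegral_add_left measurable_const,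
    lintegral_const, measure_univ, mul_one]
  gcongr
  exact d.exp_Y_le n ν hC z

lemma int_T_ne_top (k : ℕ) : ∫⁻ z, ENNReal.ofReal (d.T n z) ∂mu k ≠ ⊤ :=
  ((L2b.of_continuous (d.contDiff_T n).continuous k).integrable
    (by norm_num)).lintegral_lt_top.ne

variable {n}

lemma Bv_div (hn : 1 ≤ n) (v z : E) : d.Bv n v z / d.B n z
    = n / 2 * Lev (d.rho n) z v + n ^ 2 * Gr v (d.rho n) (d.rho n) z := by
  have hl := contDiff_log (d.contDiff_B n) (d.B_pos n)
  have hB := (d.B_pos n z).ne'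
  have hn' : (n : ℝ) ≠ 0 := by positivity
  have h1 : Lev (d.B n) z v = 4 * d.Bv n v z := Lev_SS (d.hol_P n) z v
  unfold rho Gr
  rw [Lev_const_mul _ hl, Lev_log (d.contDiff_B n) (d.B_pos n), D_const_mul _ hl, D_const_mul _ hl,
    D_log (d.contDiff_B n) _ _ hB, D_log (d.contDiff_B n) _ _ hB, h1]
  field_simp; ring

lemma int_Bv_le {η : E → ℝ} (hη : Test η) (v : E) : ∃ C, 0 ≤ C ∧ ∀ᶠ n : ℕ in atTop,
    ∫ z, η z * η z * (d.Bv n v z / d.B n z) ≤ C * (n : ℝ) ^ 2 := by
  obtain ⟨R, hR⟩ := exists_radius_sq hη v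
  obtain ⟨M, hM0, hM⟩ := d.rho_abs_bdd R
  have hχ := hη.mul_right hη.sm
  set C := ∫ z, |Lev (fun z => η z * η z) z v| with hC
  have hC0 : 0 ≤ C := integral_nonneg fun z => abs_nonneg _
  refine ⟨M * C + (2 * M * M + M ^ 2 / 2) * C, by positivity, ?_⟩
  filter_upwards [hM, eventually_ge_atTop 1] with n h1 hn
  have s := d.contDiff_rho n
  have a1 := (int_Lev hχ v s).trans_le (int_Lev_le hχ v (fun z hz => (hR z hz).2) s h1)
  have a2 := En_bdd hχ v (fun z => mul_self_nonneg _) hM0 hR s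
    (fun z => d.Lev_rho_nonneg n z v) h1
  have e : ∫ z, η z * η z * (d.Bv n v z / d.B n z) = n / 2 * (∫ z, η z * η z * Lev (d.rho n) z v)
      + n ^ 2 * En (fun z => η z * η z) v (d.rho n) (d.rho n) := by
    rw [En, ← integral_const_mul, ← integral_const_mul, ← integral_add
      ((hχ.mul_right (contDiff_Lev s v)).integrable.const_mul _)
      ((hχ.mul_right (contDiff_Gr s s v)).integrable.const_mul _)]
    congr 1; funext z
    rw [d.Bv_div hn]; ring
  have hn' : (1 : ℝ) ≤ n := by exact_mod_cast hn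
  rw [e, add_mul, mul_comm (M * C), mul_comm _ ((n : ℝ) ^ 2)]
  refine add_le_add ((mul_le_mul_of_nonneg_left a1 (by positivity)).trans ?_) (by gcongr)
  gcongr; nlinarith

lemma int_T_le (k : ℕ) : ∃ C, 0 ≤ C ∧ ∀ᶠ n : ℕ in atTop,
    ∫⁻ z, ENNReal.ofReal (d.T n z) ∂mu k ≤ ENNReal.ofReal (C * ((n : ℝ) + 1) ^ 2) := by
  have hη : Test (cut (k + 1) 0) := test_cut (by positivity) 0
  have hχ := hη.mul_right hη.sm
  obtain ⟨C0, h0, h0'⟩ := d.int_Bv_le hη (ee 0)
  obtain ⟨C1, h1, h1'⟩ := d.int_Bv_le hη (ee 1)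
  set C2 := ∫ z, cut (k + 1) 0 z * cut (k + 1) 0 z with hC2
  have h2 : 0 ≤ C2 := integral_nonneg fun z => mul_self_nonneg _
  refine ⟨C2 + (C0 + C1), by positivity, ?_⟩
  filter_upwards [h0', h1'] with n a0 a1
  have s : ∀ v, ContDiff ℝ ∞ fun z => d.Bv n v z / d.B n z :=
    fun v => (d.contDiff_Bv n v).div (d.contDiff_B n) fun z => (d.B_pos n z).ne'
  calc _ ≤ ∫⁻ z, ENNReal.ofReal (cut (k + 1) 0 z * cut (k + 1) 0 z * d.T n z) := by
        refine le_trans (lintegral_mono_ae ((ae_mu k).mono fun z hz => ?_))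
          (lintegral_mono' Measure.restrict_le_self le_rfl)
        rw [cut_eq_one (by positivity) (by simp; linarith), one_mul, one_mul]
    _ = ENNReal.ofReal (∫ z, cut (k + 1) 0 z * cut (k + 1) 0 z * d.T n z) :=
        (ofReal_integral_eq_lintegral_ofReal (hχ.mul_right (d.contDiff_T n)).integrable
          (Eventually.of_forall fun z => mul_nonneg (mul_self_nonneg _)
            (zero_le_one.trans (d.one_le_T n z)))).symm
    _ ≤ _ := by
        refine ENNReal.ofReal_le_ofReal ?_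
        simp only [T, add_div, mul_add, mul_one]
        rw [integral_add hχ.integrable (iadd (hχ.mul_right (s _)).integrable
          (hχ.mul_right (s _)).integrable), integral_add (hχ.mul_right (s _)).integrable
          (hχ.mul_right (s _)).integrable, ← hC2]
        have hn : (0 : ℝ) ≤ n := Nat.cast_nonneg n
        nlinarith [mul_nonneg h0 hn, mul_nonneg h1 hn, mul_nonneg h2 hn, mul_nonneg h2 (sq_nonneg (n : ℝ))]

theorem prob_main (hcard : ∀ n, (d.s n).card ≤ (n + 1) ^ 2) (ν : Measure ℂ)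
    [IsProbabilityMeasure ν] {T R0 : ℝ} (hν : ν ≤ ENNReal.ofReal T • volume)
    (htail : ∀ R, R0 ≤ R → ν {w | R ≤ ‖w‖} ≤ ENNReal.ofReal (T / R ^ 2))
    {Ω : Type*} [MeasurableSpace Ω] {P : Measure Ω} (a : ℕ → Fin 2 → ι → Ω → ℂ)
    (hind : ∀ n, 1 ≤ n → iIndepFun (fun x : Fin 2 × d.s n => a n x.1 x.2) P)
    (hlaw : ∀ n, 1 ≤ n → ∀ j, ∀ i ∈ d.s n, HasLaw (a n j i) ν P) :
    ∀ᵐ o ∂P, TendstoW12loc (fun n => d.u n fun j i => a n j i o)
      fun z => (Vstar d.K d.Q z).toReal := by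
  obtain ⟨C, hC0, hC⟩ := exists_psi_bound ν hν
  have hX : ∀ n, 1 ≤ n →
      HasLaw (fun o (x : Fin 2 × d.s n) => a n x.1 x.2 o) (Measure.pi fun _ => ν) P :=
    fun n hn => (hind n hn).hasLaw_pi fun x => hlaw n hn x.1 x.2 x.2.2
  have hcard' : ∀ n, ((d.s n).card : ℝ) ≤ ((n : ℝ) + 1) ^ 2 := fun n => by exact_mod_cast hcard n
  have h1 : ∀ᵐ o ∂P, ∀ n, 1 ≤ n → ∀ k, d.Z n (fun j i => a n j i o) k ≠ ⊤ := by
    refine ae_all_iff.2 fun n => ae_all_iff.2 fun hn => ae_all_iff.2 fun k => ?_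
    have := ae_lt_top (d.measurable_Z_ex n k) (ne_top_of_le_ne_top (ENNReal.mul_ne_top
      (d.int_T_ne_top n k) (by finiteness)) (d.exp_Z_le n ν hC k))
    rw [← (hX n hn).map_eq] at this
    filter_upwards [ae_of_ae_map (hX n hn).aemeasurable this] with o ho
    rw [← Z_ex]; exact ho.ne
  have h2 : ∀ᵐ o ∂P, ∀ k, ∀ᶠ n : ℕ in atTop,
      d.Z n (fun j i => a n j i o) k ≤ ENNReal.ofReal (((n : ℝ) + 1) ^ 10) := by
    refine ae_all_iff.2 fun k => ?_
    obtain ⟨C', hC'0, hC'⟩ := d.int_T_le k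
    have := borel_cantelli (P := P) (C := C' * (1 + C * C)) (s := fun n => {o |
      ENNReal.ofReal (((n : ℝ) + 1) ^ 10) ≤ d.Z n (d.ex n fun x => a n x.1 x.2 o) k}) (by
      filter_upwards [hC', eventually_ge_atTop 1] with n hn hn1
      rw [(hX n hn1).measure_eq (p := fun b => ENNReal.ofReal (((n : ℝ) + 1) ^ 10)
        ≤ d.Z n (d.ex n b) k) (measurableSet_le measurable_const (d.measurable_Z_ex n k))]
      have hp : (1 : ℝ) ≤ (n : ℝ) + 1 := by linarith [(Nat.cast_nonneg n : (0 : ℝ) ≤ n)]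
      refine (meas_ge_le_lintegral_div (d.measurable_Z_ex n k).aemeasurable
        (by simp; positivity) (by simp)).trans (ENNReal.div_le_of_le_mul ?_)
      refine (d.exp_Z_le n ν hC k).trans ((mul_le_mul_left hn _).trans ?_)
      rw [← ENNReal.ofReal_natCast, ← ENNReal.ofReal_pow (by positivity),
        ← ENNReal.ofReal_mul hC0, ← ENNReal.ofReal_mul (by positivity), ← ENNReal.ofReal_one,
        ← ENNReal.ofReal_add zero_le_one (by positivity), ← ENNReal.ofReal_mul (by positivity),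
        ← ENNReal.ofReal_mul (by positivity)]
      refine ENNReal.ofReal_le_ofReal ?_
      calc _ ≤ C' * ((n : ℝ) + 1) ^ 2 * ((((n : ℝ) + 1) ^ 2) ^ 3
            + (((n : ℝ) + 1) ^ 2) ^ 3 * (C * C)) := by
            gcongr
            exacts [one_le_pow₀ (one_le_pow₀ hp), hcard' n]
        _ = _ := by field_simp)
    filter_upwards [this] with o ho
    filter_upwards [ho] with n hn
    rw [← Z_ex]; exact (not_le.1 hn).le
  have h3 : ∀ᵐ o ∂P, ∀ᶠ n : ℕ in atTop,
      d.A n (fun j i => a n j i o) ≤ ((n : ℝ) + 1) ^ 10 := by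
    have := borel_cantelli (P := P) (C := 2 * |T|) (s := fun n =>
      ⋃ x : Fin 2 × d.s n, {o | ((n : ℝ) + 1) ^ 2 ≤ ‖a n x.1 x.2 o‖}) (by
      filter_upwards [tendsto_natCast_atTop_atTop.eventually_ge_atTop R0, eventually_ge_atTop 1]
        with n hn hn1
      have hp : (1 : ℝ) ≤ (n : ℝ) + 1 := by linarith [(Nat.cast_nonneg n : (0 : ℝ) ≤ n)]
      refine (measure_iUnion_fintype_le _ _).trans ((Finset.sum_le_card_nsmul _ _
        (ENNReal.ofReal (|T| / (((n : ℝ) + 1) ^ 2) ^ 2)) fun x _ => ?_).trans ?_)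
      · rw [(hlaw n hn1 x.1 x.2 x.2.2).measure_eq (p := fun w => ((n : ℝ) + 1) ^ 2 ≤ ‖w‖)
          (measurableSet_le measurable_const measurable_norm)]
        refine (htail _ (by nlinarith)).trans (ENNReal.ofReal_le_ofReal ?_)
        gcongr; exact le_abs_self T
      · rw [nsmul_eq_mul, ← ENNReal.ofReal_natCast, ← ENNReal.ofReal_mul (by positivity)]
        refine ENNReal.ofReal_le_ofReal ?_
        simp only [Finset.card_univ, Fintype.card_prod, Fintype.card_fin, Fintype.card_coe]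
        push_cast
        calc _ ≤ 2 * ((n : ℝ) + 1) ^ 2 * (|T| / (((n : ℝ) + 1) ^ 2) ^ 2) := by
              gcongr; exact hcard' n
          _ = _ := by field_simp)
    filter_upwards [this] with o ho
    filter_upwards [ho, eventually_ge_atTop 1] with n hn hn1
    simp only [Set.mem_iUnion, Set.mem_ofPred_eq, not_exists, not_le] at hn
    have hp : (2 : ℝ) ≤ (n : ℝ) + 1 := by
      have : (1 : ℝ) ≤ n := by exact_mod_cast hn1
      linarith
    have a1 : ∀ j, ∑ i ∈ d.s n, ‖a n j i o‖ ^ 2 ≤ ((n : ℝ) + 1) ^ 2 * (((n : ℝ) + 1) ^ 2) ^ 2 :=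
      fun j => (Finset.sum_le_card_nsmul _ _ _ fun i hi =>
        pow_le_pow_left₀ (norm_nonneg _) (hn (j, ⟨i, hi⟩)).le 2).trans (by
          rw [nsmul_eq_mul]; gcongr; exact hcard' n)
    simp only [A, Fin.sum_univ_two]
    calc _ ≤ 2 * ((n : ℝ) + 1) ^ 6 := by linarith [a1 0, a1 1]
      _ ≤ ((n : ℝ) + 1) ^ 4 * ((n : ℝ) + 1) ^ 6 := by
          gcongr
          exact hp.trans (le_self_pow₀ (by linarith) (by norm_num))
      _ = _ := by ring
  have hl : Tendsto (fun n : ℕ => (n : ℝ) + 1) atTop atTop :=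
    tendsto_atTop_add_const_right _ _ tendsto_natCast_atTop_atTop
  filter_upwards [h1, h2, h3] with o h1 h2 h3
  refine d.det_main _ (L := fun n => ((n : ℝ) + 1) ^ 10)
    (fun n => one_le_pow₀ (by linarith [(Nat.cast_nonneg n : (0 : ℝ) ≤ n)]))
    ((tendsto_pow_atTop (n := 10) (by norm_num)).comp hl) ?_ h3 h1 h2
  have := ((Real.tendsto_pow_log_div_mul_add_atTop 1 (-1) 1 one_ne_zero).comp hl).const_mul 10
  simpa [Real.log_pow, mul_div_assoc] using this

end Data

end Pool.Agent.Lib.MP_29d677_an
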