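import Pool.Agent.Lib.MP_29d677_an.Sub

/-!
Convergence of the normalized logarithms of Bergman functions to the extremal function.
-/

namespace Pool.Agent.Lib.MP_29d677_an

open MeasureTheory Filter Topology Complex Metric MvPolynomial
open scoped ContDiff ComplexConjugate Real

lemma tendsto_of_almost_mono {x : ℕ → ℝ} {C : ℝ} (hb : ∀ᶠ n in atTop, x n ≤ C)
    (h : ∀ ε, 0 < ε → ∀ᶠ m in atTop, ∀ᶠ n in atTop, x m - ε ≤ x n) :
    Tendsto x atTop (𝓝 (limsup x atTop)) := by
  have hb' : IsBoundedUnder (· ≤ ·) atTop x := ⟨C, hb⟩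
  obtain ⟨m, hm⟩ := (h 1 one_pos).exists
  have hc : IsCoboundedUnder (· ≤ ·) atTop x :=
    IsBoundedUnder.isCoboundedUnder_le ⟨x m - 1, hm⟩
  rw [tendsto_order]
  refine ⟨fun a ha => ?_, fun a ha => eventually_lt_of_limsup_lt ha hb'⟩
  obtain ⟨m, h1, h2⟩ := ((frequently_lt_of_lt_limsup hc
    (show (a + limsup x atTop) / 2 < limsup x atTop by linarith)).and_eventually
    (h ((limsup x atTop - a) / 2) (by linarith))).exists
  filter_upwards [h2] with n hn
  linarith

lemma SubMean.affine {v : E → ℝ} (hs : SubMean v) (hv : Continuous v) {c : ℝ} (hc : 0 ≤ c)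
    (d : ℝ) : SubMean fun z => c * v z + d := by
  intro a b
  have hi := (LB.of_continuous hv).circleIntegrable a b
  show c * v a + d ≤ Real.circleAverage (fun w : ℂ => c • v (a + w • b) + d) 0 1
  rw [Real.circleAverage_fun_add (hi.const_fun_smul (a := c)) (circleIntegrable_const _ _ _),
    Real.circleAverage_const, Real.circleAverage_fun_smul, smul_eq_mul]
  have := mul_le_mul_of_nonneg_left (hs a b) hc
  linarith

lemma le_Vext {K : Set E} {Q : E → ℝ} {u : E → EReal} (h1 : InLelong u)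
    (h2 : ∀ x ∈ K, u x ≤ Q x) (z : E) : u z ≤ Vext K Q z :=
  le_iSup_of_le u (le_iSup_of_le h1 (le_iSup_of_le h2 le_rfl))

/-- The data of the problem, as used in the analytic part of the proof. -/
structure Data (ι : Type) where
  K : Set E
  Q : E → ℝ
  m : ℝ
  s : ℕ → Finset ι
  p : ℕ → ι → MvPolynomial (Fin 2) ℂ
  hK : IsCompact K
  hQ : ContinuousOn Q K
  hm : ∀ x ∈ K, m ≤ Q x
  deg : ∀ n, ∀ i ∈ s n, (p n i).totalDegree ≤ n
  upper : ∀ ε, 0 < ε → ∀ᶠ n : ℕ in atTop, ∀ x ∈ K,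
    SS (s n) (fun i z => eval z (p n i)) x ≤ Real.exp (2 * n * (Q x + ε))
  extr : ∀ (n : ℕ) (q : MvPolynomial (Fin 2) ℂ), q.totalDegree ≤ n → ∀ A,
    (∀ x ∈ K, ‖eval x q‖ ≤ A * Real.exp (n * Q x)) →
    ∀ z, ‖eval z q‖ ^ 2 ≤ A ^ 2 * SS (s n) (fun i z => eval z (p n i)) z
  np : ∃ z, Vstar K Q z ≠ ⊤

namespace Data
variable {ι : Type} (d : Data ι)

/-- The basis polynomials as functions. -/
noncomputable def P (n : ℕ) (i : ι) : E → ℂ := fun z => eval z (d.p n i)

/-- The Bergman function. -/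
noncomputable def B (n : ℕ) : E → ℝ := SS (d.s n) (d.P n)

/-- The normalized logarithm of the Bergman function. -/
noncomputable def rho (n : ℕ) : E → ℝ := fun z => (2 * (n : ℝ))⁻¹ * Real.log (d.B n z)

/-- The limit function. -/
noncomputable def W : E → ℝ := fun z => limsup (fun n => d.rho n z) atTop

lemma hol_P (n : ℕ) : ∀ i ∈ d.s n, Hol (d.P n i) := fun i _ => hol_eval _

lemma B_pos (n : ℕ) (z : E) : 0 < d.B n z := by
  have h := d.extr n 1 (by simp) (Real.exp (-(n * d.m))) (fun x hx => by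
    rw [map_one, norm_one, ← Real.exp_add]
    refine Real.one_le_exp ?_
    nlinarith [d.hm x hx, (Nat.cast_nonneg n : (0 : ℝ) ≤ n)]) z
  rw [map_one, norm_one, one_pow] at h
  change 1 ≤ _ * d.B n z at h
  by_contra hb
  nlinarith [sq_nonneg (Real.exp (-(n * d.m)))]

lemma contDiff_B (n : ℕ) : ContDiff ℝ ∞ (d.B n) := contDiff_SS (d.hol_P n)

lemma contDiff_rho (n : ℕ) : ContDiff ℝ ∞ (d.rho n) :=
  contDiff_const.mul (contDiff_log (d.contDiff_B n) (d.B_pos n))

lemma exp_rho {n : ℕ} (hn : 1 ≤ n) (z : E) : Real.exp (2 * n * d.rho n z) = d.B n z := by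
  have : (n : ℝ) ≠ 0 := by positivity
  rw [rho, mul_inv_cancel_left₀ (by positivity), Real.exp_log (d.B_pos n z)]

lemma rho_ge {n : ℕ} (hn : 1 ≤ n) {q : MvPolynomial (Fin 2) ℂ} (hq : q.totalDegree ≤ n) {a b : ℝ}
    (ha : ∀ x ∈ d.K, ‖eval x q‖ ≤ Real.exp a * Real.exp (n * d.Q x)) {z : E}
    (hb : Real.exp b ≤ ‖eval z q‖) : b - a ≤ n * d.rho n z := by
  have h1 := (pow_le_pow_left₀ (Real.exp_pos _).le hb 2).trans (d.extr n q hq _ ha z)
  change _ ≤ _ * d.B n z at h1
  rw [← d.exp_rho hn, ← Real.exp_nat_mul, ← Real.exp_nat_mul, ← Real.exp_add, Real.exp_le_exp] at h1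
  push_cast at h1
  linarith

lemma m_le_rho {n : ℕ} (hn : 1 ≤ n) (z : E) : d.m ≤ d.rho n z := by
  have h := d.rho_ge hn (q := 1) (by simp) (a := -(n * d.m)) (b := 0) (fun x hx => by
    rw [map_one, norm_one, ← Real.exp_add]
    refine Real.one_le_exp ?_
    nlinarith [d.hm x hx, (Nat.cast_nonneg n : (0 : ℝ) ≤ n)]) (z := z) (by simp)
  have : (0 : ℝ) < n := by positivity
  nlinarith

lemma rho_growth {n : ℕ} (hn : 1 ≤ n) : ∃ C, ∀ z, d.rho n z ≤ Real.log (1 + ‖z‖) + C := by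
  choose! A hA0 hA using fun i (hi : i ∈ d.s n) => exists_poly_bound _ (d.deg n i hi)
  have hn' : (0 : ℝ) < 2 * n := by positivity
  refine ⟨Real.log (∑ i ∈ d.s n, A i ^ 2 + 1) / (2 * n), fun z => ?_⟩
  rw [← mul_le_mul_iff_of_pos_left hn', ← Real.exp_le_exp, d.exp_rho hn, mul_add,
    mul_div_cancel₀ _ hn'.ne', Real.exp_add, Real.exp_log (by positivity),
    show (2 * n : ℝ) = ((n * 2 : ℕ) : ℝ) by push_cast; ring, ← Real.log_pow,
    Real.exp_log (by positivity), mul_add, Finset.mul_sum]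
  refine le_trans (Finset.sum_le_sum fun i hi => ?_) (le_add_of_nonneg_right (by positivity))
  rw [pow_mul, ← mul_pow, mul_comm]
  exact pow_le_pow_left₀ (norm_nonneg _) (hA i hi z) 2

lemma subMean_rho (n : ℕ) (c : ℝ) : SubMean fun z => d.rho n z + c :=
  (subMean_log_SS (d.hol_P n) (d.B_pos n)).affine
    (contDiff_log (d.contDiff_B n) (d.B_pos n)).continuous (by positivity) c

lemma rho_le_Vext {ε : ℝ} (hε : 0 < ε) :
    ∀ᶠ n in atTop, ∀ z, ((d.rho n z + -ε : ℝ) : EReal) ≤ Vext d.K d.Q z := by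
  filter_upwards [d.upper ε hε, eventually_ge_atTop 1] with n h1 hn
  obtain ⟨C, hC⟩ := d.rho_growth hn
  refine le_Vext (inLelong_coe ((d.contDiff_rho n).continuous.add continuous_const)
    (d.subMean_rho n _) (C := C + -ε) fun z => by linarith [hC z]) fun x hx => ?_
  have h2 := h1 x hx
  change d.B n x ≤ _ at h2
  rw [← d.exp_rho hn, Real.exp_le_exp, mul_le_mul_iff_of_pos_left (by positivity)] at h2
  exact EReal.coe_le_coe_iff.2 (by linarith)

/-- The reproducing polynomial. -/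
noncomputable def q (n : ℕ) (z : E) : MvPolynomial (Fin 2) ℂ :=
  ∑ i ∈ d.s n, C (conj (d.P n i z)) * d.p n i

lemma q_deg (n : ℕ) (z : E) : (d.q n z).totalDegree ≤ n :=
  totalDegree_finsetSum_le fun i hi => (totalDegree_mul _ _).trans (by
    rw [totalDegree_C, zero_add]; exact d.deg n i hi)

lemma q_self {n : ℕ} (hn : 1 ≤ n) (z : E) :
    ‖eval z (d.q n z)‖ = Real.exp (2 * n * d.rho n z) := by
  rw [d.exp_rho hn]
  have : eval z (d.q n z) = (d.B n z : ℝ) := by
    simp only [q, map_sum, map_mul, eval_C, B, SS]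
    push_cast
    exact Finset.sum_congr rfl fun i _ => Complex.conj_mul' _
  rw [this, Complex.norm_real, Real.norm_of_nonneg (d.B_pos n z).le]

lemma q_le {n : ℕ} (hn : 1 ≤ n) (z x : E) :
    ‖eval x (d.q n z)‖ ≤ Real.exp (n * (d.rho n z + d.rho n x)) := by
  refine (pow_le_pow_iff_left₀ (norm_nonneg _) (Real.exp_pos _).le two_ne_zero).1 ?_
  rw [← Real.exp_nat_mul, show ((2 : ℕ) : ℝ) * (n * (d.rho n z + d.rho n x))
    = 2 * n * d.rho n z + 2 * n * d.rho n x by push_cast; ring, Real.exp_add, d.exp_rho hn,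
    d.exp_rho hn]
  refine le_trans ?_ (Finset.sum_mul_sq_le_sq_mul_sq (d.s n) (fun i => ‖d.P n i z‖)
    fun i => ‖d.P n i x‖)
  gcongr
  rw [q, map_sum]
  refine (norm_sum_le _ _).trans (le_of_eq ?_)
  simp [P]

lemma rho_bdd (R : ℝ) : ∃ C, d.m ≤ C ∧ ∀ᶠ n in atTop, ∀ z, ‖z‖ ≤ R → d.rho n z ≤ C := by
  obtain ⟨z1, hz1⟩ := d.np
  obtain ⟨c, hc, -⟩ := EReal.lt_iff_exists_real_btwn.1 hz1.lt_top
  obtain ⟨r, hr, hball⟩ := Metric.nhds_basis_closedBall.eventually_iff.1
    (eventually_lt_of_limsup_lt hc)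
  refine ⟨max d.m (c + 1 + Real.log (1 + (|R| + ‖z1‖ + 1) / r)), le_max_left _ _, ?_⟩
  filter_upwards [d.rho_le_Vext one_pos, eventually_ge_atTop 1] with n h1 hn z hz
  have h2 := bernstein_walsh _ (d.q_deg n z) hr (M := Real.exp (n * (d.rho n z + (c + 1))))
    (fun x hx => (d.q_le hn z x).trans (by
      have := EReal.coe_lt_coe_iff.1 ((h1 x).trans_lt (hball hx))
      gcongr; linarith)) z
  have h3 : (1 + (‖z - z1‖ + 1) / r) ^ n
      ≤ Real.exp (n * Real.log (1 + (|R| + ‖z1‖ + 1) / r)) := by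
    rw [← Real.log_pow, Real.exp_log (by positivity)]
    gcongr
    linarith [norm_sub_le z z1, le_abs_self R]
  have h4 := h2.trans (mul_le_mul_of_nonneg_left h3 (Real.exp_pos _).le)
  rw [d.q_self hn, ← Real.exp_add, Real.exp_le_exp] at h4
  have : (0 : ℝ) < n := by positivity
  refine le_trans ?_ (le_max_right _ _)
  nlinarith

lemma rho_mono (R : ℝ) {ε : ℝ} (hε : 0 < ε) :
    ∀ᶠ m in atTop, ∀ᶠ n in atTop, ∀ z, ‖z‖ ≤ R → d.rho m z - ε ≤ d.rho n z := by
  obtain ⟨C, hC0, hC⟩ := d.rho_bdd R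
  filter_upwards [hC, d.upper (ε / 2) (by positivity), eventually_ge_atTop 1] with m h1 h2 hm
  filter_upwards [eventually_ge_atTop 1, tendsto_natCast_atTop_atTop.eventually_ge_atTop
    (m * (C - d.m) / (ε / 2))] with n hn hn2 z hz
  rw [div_le_iff₀ (by positivity)] at hn2
  have e : (n : ℝ) = m * (n / m : ℕ) + (n % m : ℕ) := by exact_mod_cast (Nat.div_add_mod n m).symm
  have hr : ((n % m : ℕ) : ℝ) ≤ m := by exact_mod_cast (Nat.mod_lt n hm).le
  have hr0 : (0 : ℝ) ≤ (n % m : ℕ) := Nat.cast_nonneg _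
  set k := n / m with hk
  set r : ℝ := ((n % m : ℕ) : ℝ)
  have h3 := d.rho_ge hn (q := d.q m z ^ k) ((totalDegree_pow _ _).trans
    ((Nat.mul_le_mul_left _ (d.q_deg m z)).trans (Nat.div_mul_le_self n m)))
    (a := k * (m * (d.rho m z + ε / 2)) - r * d.m) (b := k * (2 * m * d.rho m z)) (fun x hx => by
      have a1 := h2 x hx
      change d.B m x ≤ _ at a1
      rw [← d.exp_rho hm, Real.exp_le_exp, mul_le_mul_iff_of_pos_left (by positivity)] at a1
      rw [map_pow, norm_pow, ← Real.exp_add]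
      refine (pow_le_pow_left₀ (norm_nonneg _) (d.q_le hm z x) k).trans ?_
      rw [← Real.exp_nat_mul, Real.exp_le_exp, e]
      have a2 := mul_le_mul_of_nonneg_left a1 (show (0 : ℝ) ≤ k * m by positivity)
      nlinarith [mul_le_mul_of_nonneg_left (d.hm x hx) hr0]) (z := z)
    (by rw [map_pow, norm_pow, d.q_self hm, ← Real.exp_nat_mul])
  have h4 : r * (d.rho m z - ε / 2 - d.m) ≤ m * (C - d.m) := by
    have := h1 z hz
    calc _ ≤ r * (C - d.m) := by gcongr; linarith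
      _ ≤ _ := by gcongr
  have : (0 : ℝ) < n := by positivity
  rw [← mul_le_mul_iff_of_pos_left this]
  have e2 : (n : ℝ) * (d.rho m z - ε / 2) = (m * k + r) * (d.rho m z - ε / 2) := by rw [← e]
  nlinarith

lemma tendsto_rho (z : E) : Tendsto (fun n => d.rho n z) atTop (𝓝 (d.W z)) := by
  obtain ⟨C, -, hC⟩ := d.rho_bdd ‖z‖
  exact tendsto_of_almost_mono (hC.mono fun n hn => hn z le_rfl) fun ε hε =>
    (d.rho_mono ‖z‖ hε).mono fun m hm => hm.mono fun n hn => hn z le_rfl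

lemma m_le_W (z : E) : d.m ≤ d.W z :=
  ge_of_tendsto (d.tendsto_rho z) ((eventually_ge_atTop 1).mono fun _ hn => d.m_le_rho hn z)

lemma lb_W : LB d.W := by
  refine ⟨measurable_of_tendsto_metrizable (fun n => (d.contDiff_rho n).continuous.measurable)
    (tendsto_pi_nhds.2 d.tendsto_rho), fun R => ?_⟩
  obtain ⟨C, -, hC⟩ := d.rho_bdd R
  refine ⟨|d.m| + |C|, fun z hz => abs_le.2 ⟨?_, ?_⟩⟩
  · linarith [d.m_le_W z, neg_abs_le d.m, abs_nonneg C]
  · have := le_of_tendsto (d.tendsto_rho z) (hC.mono fun n hn => hn z hz)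
    linarith [le_abs_self C, abs_nonneg d.m]

lemma W_le_Vext (z : E) : (d.W z : EReal) ≤ Vext d.K d.Q z := by
  refine EReal.le_of_forall_lt_iff_le.1 ?_
  intro a ha
  by_contra h
  have h' : a < d.W z := EReal.coe_lt_coe_iff.1 (not_le.1 h)
  obtain ⟨n, h1, h2⟩ := ((d.rho_le_Vext (ε := (d.W z - a) / 2) (by linarith)).and
    ((d.tendsto_rho z).eventually (lt_mem_nhds (show (a + d.W z) / 2 < d.W z by linarith)))).exists
  have := EReal.coe_lt_coe_iff.1 ((h1 z).trans_lt ha)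
  linarith

lemma smooth_le_W {u : E → ℝ} (hu : ContDiff ℝ ∞ u) (hL : ∀ z ξ, 0 ≤ Lev u z ξ) {C r ε : ℝ}
    (hC : ∀ z, u z ≤ Real.log (1 + ‖z‖) + C) (hr : 0 < r) (hε : 0 < ε)
    (hK : ∀ x ∈ d.K, ∀ y ∈ ball x r, u y ≤ d.Q x + ε) (c : E) : u c - 12 * ε ≤ d.W c := by
  obtain ⟨A, hA, h⟩ := exists_peak hu hL c hε hr
  obtain ⟨R, hR⟩ := d.hK.isBounded.exists_norm_le
  set a := Real.log (A * (1 + (|R| + ‖c‖)) ^ 4) - 4 * d.m with ha
  have key : ∀ n : ℕ, Real.log (1 / 2) - (a + n * (12 * ε - u c))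
      ≤ (n + 4 : ℕ) * d.rho (n + 4) c := by
    intro n
    obtain ⟨f, hf, hc, hb⟩ := h n
    obtain ⟨q, hq, hfq⟩ := hf.exists_poly (d := n + 4)
      (A := A * (1 + ‖c‖) ^ 4 * Real.exp (n * (Real.log (1 + r) + C - u c + 11 * ε))) fun x => by
      have a0 := norm_nonneg x
      refine (hb x (Real.log (1 + ‖x‖) + (Real.log (1 + r) + C)) fun y hy => ?_).trans ?_
      · refine (hC y).trans ?_
        rw [← add_assoc, ← Real.log_mul (by positivity) (by positivity)]
        gcongr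
        have h1 := norm_sub_norm_le y x
        have h2 : ‖y - x‖ < r := by rwa [← dist_eq_norm]
        nlinarith
      · have a1 : 1 + ‖x - c‖ ≤ (1 + ‖c‖) * (1 + ‖x‖) := by
          nlinarith [norm_sub_le x c, norm_nonneg c]
        rw [show (n : ℝ) * (Real.log (1 + ‖x‖) + (Real.log (1 + r) + C) - u c + 11 * ε)
          = n * (Real.log (1 + r) + C - u c + 11 * ε) + n * Real.log (1 + ‖x‖) by ring,
          Real.exp_add, ← Real.log_pow, Real.exp_log (by positivity)]
        calc _ ≤ A * ((1 + ‖c‖) * (1 + ‖x‖)) ^ 4 * (Real.exp (n * (Real.log (1 + r) + C - u c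
              + 11 * ε)) * (1 + ‖x‖) ^ n) := by gcongr
          _ = _ := by ring
    refine d.rho_ge (by omega) hq (fun x hx => ?_) (by rwa [Real.exp_log (by norm_num), ← hfq])
    rw [← hfq]
    refine (hb x _ (hK x hx)).trans ?_
    have a1 : ‖x - c‖ ≤ |R| + ‖c‖ := by linarith [norm_sub_le x c, hR x hx, le_abs_self R]
    calc _ ≤ A * (1 + (|R| + ‖c‖)) ^ 4 * Real.exp (n * (d.Q x + ε - u c + 11 * ε)) := by gcongr
      _ ≤ _ := by
        rw [← Real.exp_log (show 0 < A * (1 + (|R| + ‖c‖)) ^ 4 by positivity), ← Real.exp_add,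
          ← Real.exp_add, Real.exp_le_exp, ha]
        push_cast
        linarith [d.hm x hx]
  have l1 := (d.tendsto_rho c).comp (tendsto_add_atTop_nat 4)
  have l2 : Tendsto (fun n : ℕ => u c - 12 * ε + (Real.log (1 / 2) - a + 4 * (12 * ε - u c))
      / ((n + 4 : ℕ) : ℝ)) atTop (𝓝 (u c - 12 * ε + 0)) :=
    (tendsto_const_nhds.div_atTop
      (tendsto_natCast_atTop_atTop.comp (tendsto_add_atTop_nat 4))).const_add _
  rw [add_zero] at l2
  refine le_of_tendsto_of_tendsto' l2 l1 fun n => ?_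
  have h0 : (0 : ℝ) < (n + 4 : ℕ) := by positivity
  have := key n
  rw [← mul_le_mul_iff_of_pos_left h0, mul_add, mul_div_cancel₀ _ h0.ne']
  simp only [Function.comp]
  push_cast at this ⊢
  linarith

lemma tr_le_W {u : E → EReal} (hu : InLelong u) (huQ : ∀ x ∈ d.K, u x ≤ d.Q x) :
    ∀ᵐ z, tr u d.m z ≤ d.W z := by
  have hl := lb_tr hu d.m
  obtain ⟨C, hC⟩ := tr_growth hu d.m
  filter_upwards [ae_tendsto_moll hl.li] with z hz
  refine le_of_forall_pos_le_add fun ε hε => le_of_tendsto hz ?_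
  obtain ⟨r, hr, hK⟩ := tr_tube hu d.hK d.hQ huQ d.hm (ε := ε / 12) (by positivity)
  filter_upwards [tendsto_bs.eventually (gt_mem_nhds (half_pos hr))] with k hk
  have hs := contDiff_moll (bs k) hl.li
  have := d.smooth_le_W hs (Lev_nonneg_of_subMean hs (subMean_moll hl (subMean_tr hu d.m) _))
    (C := Real.log 2 + C) (r := r / 2) (ε := ε / 12) (fun x => moll_le _ hl.li fun y hy => by
      refine (hC y).trans ?_
      rw [← add_assoc, ← Real.log_mul (by positivity) (by positivity)]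
      gcongr
      have h1 := norm_sub_norm_le y x
      have h2 : ‖y - x‖ < (bs k).rOut := by rwa [← dist_eq_norm]
      linarith [bs_rOut_le k, norm_nonneg x]) (by positivity) (by positivity)
    (fun x hx y hy => moll_le _ hl.li fun t ht => hK x hx t (by
      have h1 := dist_triangle t y x
      have h2 : dist t y < (bs k).rOut := ht
      have h3 : dist y x < r / 2 := hy
      show dist t x < r
      linarith)) z
  linarith

lemma Vext_le_avg (z : E) {r : ℝ} (hr : 0 < r) :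
    Vext d.K d.Q z ≤ ((⨍ y in closedBall z r, d.W y : ℝ) : EReal) := by
  refine iSup_le fun u => iSup_le fun hu => iSup_le fun huQ => ?_
  refine (le_tr' hu.1.2.1 d.m z).trans (EReal.coe_le_coe_iff.2 ?_)
  refine (le_setAverage (lb_tr hu d.m) (subMean_tr hu d.m) z hr).trans ?_
  rw [setAverage_eq, setAverage_eq, smul_eq_mul, smul_eq_mul]
  refine mul_le_mul_of_nonneg_left (integral_mono_ae ?_ ?_ (ae_restrict_of_ae (d.tr_le_W hu huQ)))
    (by positivity)
  · exact (lb_tr hu d.m).li.integrableOn_isCompact (isCompact_closedBall _ _)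
  · exact d.lb_W.li.integrableOn_isCompact (isCompact_closedBall _ _)

theorem Vstar_eq_W : ∀ᵐ z, Vstar d.K d.Q z = d.W z := by
  filter_upwards [IsUnifLocDoublingMeasure.ae_tendsto_average volume d.lb_W.li 1] with x hx
  refine le_antisymm ?_ ((d.W_le_Vext x).trans ?_)
  · have h1 := hx (l := 𝓝 x ×ˢ 𝓝[>] (0 : ℝ)) (fun p => p.1) (fun p => dist p.1 x + p.2) (by
      refine tendsto_nhdsWithin_iff.2 ⟨?_, ?_⟩
      · have : Tendsto (fun p : E × ℝ => dist p.1 x + p.2) (𝓝 x ×ˢ 𝓝 0) (𝓝 (dist x x + 0)) :=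
          (tendsto_fst.dist tendsto_const_nhds).add tendsto_snd
        simpa using this.mono_left (Filter.prod_mono le_rfl nhdsWithin_le_nhds)
      · filter_upwards [tendsto_snd.eventually self_mem_nhdsWithin] with p hp
        exact add_pos_of_nonneg_of_pos dist_nonneg hp) (by
      filter_upwards [tendsto_snd.eventually self_mem_nhdsWithin] with p hp
      rw [mem_closedBall, dist_comm, one_mul]
      exact le_add_of_nonneg_right (le_of_lt hp))
    refine EReal.le_of_forall_lt_iff_le.1 fun a ha => limsup_le_of_le (by isBoundedDefault) ?_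
    filter_upwards [(h1.eventually (gt_mem_nhds (EReal.coe_lt_coe_iff.1 ha))).curry] with y hy
    obtain ⟨η, h2, h3⟩ := (hy.and self_mem_nhdsWithin).exists
    exact (d.Vext_le_avg y (add_pos_of_nonneg_of_pos dist_nonneg h3)).trans
      (EReal.coe_le_coe_iff.2 h2.le)
  · exact le_limsup_of_frequently_le (Filter.Frequently.filter_mono
      (by simp : ∃ᶠ y in pure x, Vext d.K d.Q x ≤ Vext d.K d.Q y) (pure_le_nhds x))

end Data

end Pool.Agent.Lib.MP_29d677_an
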