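import Pool.Agent.Lib.MP_29d677_an.Peak
import Pool.Agent.Lib.MP_29d677_an.Defs

/-!
Locally bounded functions with the sub-mean value property.
-/

namespace Pool.Agent.Lib.MP_29d677_an

open MeasureTheory Filter Topology Complex Metric
open scoped ContDiff ComplexConjugate Real

/-- Measurable locally bounded functions. -/
structure LB (u : E → ℝ) : Prop where
  meas : Measurable u
  bdd : ∀ R, ∃ C, ∀ z, ‖z‖ ≤ R → |u z| ≤ C

lemma LB.memLp {u : E → ℝ} (hu : LB u) {L : Set E} (hL : IsCompact L) (p : ENNReal) :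
    MemLp u p (volume.restrict L) := by
  obtain ⟨R, hR⟩ := hL.isBounded.exists_norm_le
  obtain ⟨C, hC⟩ := hu.bdd R
  have : IsFiniteMeasure (volume.restrict L) := ⟨by simpa using hL.measure_lt_top⟩
  exact MemLp.of_bound hu.meas.aestronglyMeasurable C
    ((ae_restrict_mem hL.measurableSet).mono fun z hz => hC z (hR z hz))

lemma LB.li {u : E → ℝ} (hu : LB u) : LocallyIntegrable u :=
  locallyIntegrable_iff.2 fun _ hL => memLp_one_iff_integrable.1 (hu.memLp hL 1)

lemma LB.of_continuous {u : E → ℝ} (hu : Continuous u) : LB u :=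
  ⟨hu.measurable, fun R => by
    obtain ⟨C, hC⟩ := (isCompact_closedBall (0 : E) R).exists_bound_of_continuousOn hu.continuousOn
    exact ⟨C, fun z hz => hC z (by simpa using hz)⟩⟩

lemma LB.circleIntegrable {u : E → ℝ} (hu : LB u) (a b : E) :
    CircleIntegrable (fun w : ℂ => u (a + w • b)) 0 1 := by
  obtain ⟨C, hC⟩ := hu.bdd (‖a‖ + ‖b‖)
  refine (intervalIntegrable_const (c := C)).mono_fun' 
    (hu.meas.comp (by fun_prop : Continuous _).measurable).aestronglyMeasurable
    (Eventually.of_forall fun θ => hC _ ((norm_add_le _ _).trans ?_))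
  simp [norm_smul]

lemma avg_swap {u k : E → ℝ} (hu : LB u) (hs : SubMean u) (hk : Integrable k) (hkm : Measurable k)
    (hk0 : ∀ t, 0 ≤ k t) {R : ℝ} (hkR : ∀ t, R < ‖t‖ → k t = 0) {a b : E → E} (ha : Continuous a)
    (hb : Continuous b) :
    ∫ t, k t * u (a t) ≤ Real.circleAverage (fun w : ℂ => ∫ t, k t * u (a t + w • b t)) 0 1 := by
  obtain ⟨A, hA⟩ := (isCompact_closedBall (0 : E) R).exists_bound_of_continuousOn ha.continuousOn
  obtain ⟨B, hB⟩ := (isCompact_closedBall (0 : E) R).exists_bound_of_continuousOn hb.continuousOn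
  obtain ⟨C, hC⟩ := hu.bdd (A + B)
  have hbd : ∀ (w : ℂ) (t : E), ‖w‖ ≤ 1 → ‖k t * u (a t + w • b t)‖ ≤ C * k t := by
    intro w t hw
    by_cases ht : R < ‖t‖
    · simp [hkR t ht]
    · have ht' : t ∈ closedBall (0 : E) R := by simpa using ht
      rw [norm_mul, Real.norm_of_nonneg (hk0 t), mul_comm]
      refine mul_le_mul_of_nonneg_right (hC _ ((norm_add_le _ _).trans ?_)) (hk0 t)
      rw [norm_smul]
      nlinarith [hA t ht', hB t ht', norm_nonneg (b t)]
  have : IsFiniteMeasure (volume.restrict (Set.uIoc (0 : ℝ) (2 * π))) :=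
    ⟨by simp [Set.uIoc]⟩
  have hi : Integrable (Function.uncurry fun (θ : ℝ) (t : E) =>
      k t * u (a t + circleMap 0 1 θ • b t)) ((volume.restrict (Set.uIoc 0 (2 * π))).prod volume) :=
    ((hk.const_mul C).comp_snd _).mono' ((hkm.comp measurable_snd).mul
      (hu.meas.comp (by fun_prop : Continuous _).measurable)).aestronglyMeasurable
      (Eventually.of_forall fun p => hbd _ _ (by simp))
  rw [Real.circleAverage_def, intervalIntegral_integral_swap hi, smul_eq_mul, ← integral_const_mul]
  refine integral_mono ((hk.const_mul C).mono' (hkm.mul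
    (hu.meas.comp ha.measurable)).aestronglyMeasurable (Eventually.of_forall fun t => ?_))
    ?_ fun t => ?_
  · simpa using hbd 0 t (by simp)
  · refine Integrable.const_mul ?_ _
    simp_rw [intervalIntegral.integral_of_le Real.two_pi_pos.le]
    rw [Set.uIoc_of_le Real.two_pi_pos.le] at hi
    exact hi.integral_prod_right
  · have := mul_le_mul_of_nonneg_left (hs (a t) (b t)) (hk0 t)
    rw [Real.circleAverage_def, smul_eq_mul] at this
    simp only [intervalIntegral.integral_const_mul]
    linarith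

lemma subMean_moll {u : E → ℝ} (hu : LB u) (hs : SubMean u) (ρ : ContDiffBump (0 : E)) :
    SubMean (moll ρ u) := by
  intro a b
  have := avg_swap hu hs (k := ρ.normed volume) ρ.integrable_normed
    ρ.continuous_normed.measurable ρ.nonneg_normed (R := ρ.rOut) (fun t ht => by
      have := kernel_eq_zero ρ (x := t) (t := 0) (by simpa using ht.le)
      simpa using this) (a := fun t => a - t) (b := fun _ => b) (by fun_prop) (by fun_prop)
  simpa only [moll_eq', smul_eq_mul, add_sub_right_comm] using this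

lemma measurePreserving_rot {w : ℂ} (hw : ‖w‖ = 1) :
    MeasurePreserving (fun t : E => w • t) volume volume :=
  volume_preserving_pi (f := fun _ (z : ℂ) => w * z) fun _ =>
    (rotation ⟨w, by simpa [Submonoid.unitSphere] using hw⟩).measurePreserving

lemma le_setAverage {u : E → ℝ} (hu : LB u) (hs : SubMean u) (z : E) {r : ℝ} (hr : 0 < r) :
    u z ≤ ⨍ y in closedBall z r, u y := by
  have hv : 0 < volume.real (closedBall z r) :=
    ENNReal.toReal_pos (measure_closedBall_pos _ _ hr).ne' measure_closedBall_lt_top.ne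
  set k : E → ℝ := (closedBall 0 r).indicator 1 with hk
  have hkm : Measurable k := measurable_const.indicator measurableSet_closedBall
  have h1 := avg_swap hu hs (k := k) ((integrable_indicator_iff measurableSet_closedBall).2
    (integrableOn_const measure_closedBall_lt_top.ne)) hkm
    (fun t => Set.indicator_nonneg (fun _ _ => zero_le_one) t) (R := r)
    (fun t ht => Set.indicator_of_notMem (by simpa using ht) _) (a := fun _ => z) (b := fun t => t)
    continuous_const continuous_id
  rw [Real.circleAverage_const_on_circle (a := ∫ y in closedBall z r, u y), integral_mul_const,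
    hk, integral_indicator_one measurableSet_closedBall,
    ← Measure.addHaar_real_closedBall_center _ z] at h1
  · rw [setAverage_eq, smul_eq_mul, le_inv_mul_iff₀ hv]; exact h1
  · intro w hw
    have hw1 : ‖w‖ = 1 := by simpa using hw
    have hw0 : w ≠ 0 := by rintro rfl; simp at hw1
    have e := (measurePreserving_rot hw1).integral_comp
      (Homeomorph.smulOfNeZero w hw0).measurableEmbedding fun t => k t * u (z + t)
    have e2 : ∀ t, k (w • t) = k t := fun t => by
      by_cases ht : ‖t‖ ≤ r <;> simp [hk, Set.indicator, norm_smul, hw1, ht]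
    simp only [e2] at e
    rw [e, ← integral_indicator measurableSet_closedBall, 
      ← integral_add_left_eq_self ((closedBall z r).indicator u) z]
    congr 1; funext t
    by_cases ht : ‖t‖ ≤ r <;> simp [hk, Set.indicator, ht]

/-- The truncation of a function of the Lelong class. -/
noncomputable def tr (u : E → EReal) (m : ℝ) : E → ℝ := fun z => (max (u z) m).toReal

lemma coe_tr {u : E → EReal} (hu : ∀ z, u z ≠ ⊤) (m : ℝ) (z : E) :
    (tr u m z : EReal) = max (u z) m := by
  refine EReal.coe_toReal (max_lt (hu z).lt_top (EReal.coe_lt_top m)).ne ?_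
  exact (lt_max_of_lt_right (EReal.bot_lt_coe m)).ne'

lemma le_tr {u : E → EReal} (hu : ∀ z, u z ≠ ⊤) (m : ℝ) (z : E) : m ≤ tr u m z := by
  rw [← EReal.coe_le_coe_iff, coe_tr hu]; exact le_max_right _ _

lemma le_tr' {u : E → EReal} (hu : ∀ z, u z ≠ ⊤) (m : ℝ) (z : E) : u z ≤ tr u m z := by
  rw [coe_tr hu]; exact le_max_left _ _

lemma tr_le {u : E → EReal} (hu : ∀ z, u z ≠ ⊤) {m c : ℝ} {z : E} (h1 : u z ≤ c) (h2 : m ≤ c) :
    tr u m z ≤ c := by
  rw [← EReal.coe_le_coe_iff, coe_tr hu]; exact max_le h1 (EReal.coe_le_coe_iff.2 h2)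

lemma tr_growth {u : E → EReal} (hu : InLelong u) (m : ℝ) :
    ∃ C, ∀ z, tr u m z ≤ Real.log (1 + ‖z‖) + C := by
  obtain ⟨⟨usc, ht, -, -⟩, C, R, hC⟩ := hu
  obtain ⟨x, -, hx⟩ := (usc.upperSemicontinuousOn (closedBall 0 (|R| + 1))).exists_isMaxOn
    (nonempty_closedBall.2 (by positivity)) (isCompact_closedBall _ _)
  refine ⟨max (max m C) (tr u m x), fun z => ?_⟩
  have h0 : 0 ≤ Real.log (1 + ‖z‖) := Real.log_nonneg (by linarith [norm_nonneg z])
  have a1 : m ≤ max (max m C) (tr u m x) := (le_max_left _ _).trans (le_max_left _ _)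
  have a2 : C ≤ max (max m C) (tr u m x) := (le_max_right _ _).trans (le_max_left _ _)
  refine tr_le ht ?_ (by linarith)
  by_cases hz : ‖z‖ ≤ |R| + 1
  · refine ((hx (by simpa using hz)).trans (le_tr' ht m x)).trans (EReal.coe_le_coe_iff.2 ?_)
    linarith [le_max_right (max m C) (tr u m x)]
  · refine (hC z (by linarith [le_abs_self R])).trans (EReal.coe_le_coe_iff.2 ?_)
    have : Real.log ‖z‖ ≤ Real.log (1 + ‖z‖) :=
      Real.log_le_log (by linarith [abs_nonneg R]) (by linarith)
    linarith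

lemma lb_tr {u : E → EReal} (hu : InLelong u) (m : ℝ) : LB (tr u m) := by
  refine ⟨(hu.1.1.measurable.max measurable_const).ereal_toReal, fun R => ?_⟩
  obtain ⟨C, hC⟩ := tr_growth hu m
  refine ⟨|m| + |Real.log (1 + R) + C|, fun z hz => abs_le.2 ⟨?_, ?_⟩⟩
  · linarith [le_tr hu.1.2.1 m z, neg_abs_le m, abs_nonneg (Real.log (1 + R) + C)]
  · have : Real.log (1 + ‖z‖) ≤ Real.log (1 + R) :=
      Real.log_le_log (by linarith [norm_nonneg z]) (by linarith)
    linarith [hC z, abs_nonneg m, le_abs_self (Real.log (1 + R) + C)]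

lemma subMean_tr {u : E → EReal} (hu : InLelong u) (m : ℝ) : SubMean (tr u m) := by
  intro a b
  refine tr_le hu.1.2.1 (hu.1.2.2.2 a b m) ?_
  exact (Real.circleAverage_const m 0 1).symm.trans_le (Real.circleAverage_mono
    (circleIntegrable_const _ _ _) ((lb_tr hu m).circleIntegrable a b)
    fun w _ => le_tr hu.1.2.1 m _)

lemma tr_tube {u : E → EReal} (hu : InLelong u) {K : Set E} (hK : IsCompact K) {Q : E → ℝ}
    (hQ : ContinuousOn Q K) (huQ : ∀ x ∈ K, u x ≤ Q x) {m : ℝ} (hm : ∀ x ∈ K, m ≤ Q x) {ε : ℝ}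
    (hε : 0 < ε) : ∃ r, 0 < r ∧ ∀ x ∈ K, ∀ y ∈ ball x r, tr u m y ≤ Q x + ε := by
  refine hK.induction_on (p := fun S => ∃ r, 0 < r ∧ ∀ x ∈ S, ∀ y ∈ ball x r, tr u m y ≤ Q x + ε)
    ⟨1, one_pos, by simp⟩ (fun s t hst ⟨r, hr, h⟩ => ⟨r, hr, fun x hx => h x (hst hx)⟩)
    (fun s t ⟨r, hr, h⟩ ⟨r', hr', h'⟩ => ⟨min r r', lt_min hr hr', fun x hx y hy => ?_⟩)
    fun x hx => ?_
  · rcases hx with hx | hx
    · exact h x hx y (ball_subset_ball (min_le_left _ _) hy)
    · exact h' x hx y (ball_subset_ball (min_le_right _ _) hy)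
  · have h1 := hu.1.1 x ((Q x + ε / 2 : ℝ) : EReal)
      ((huQ x hx).trans_lt (EReal.coe_lt_coe_iff.2 (by linarith)))
    obtain ⟨δ, hδ, h2⟩ := Metric.eventually_nhds_iff.1 h1
    have h3 : ∀ᶠ x' in 𝓝[K] x, Q x - ε / 2 < Q x' :=
      (hQ x hx).eventually (lt_mem_nhds (by linarith))
    have h4 : ∀ᶠ x' in 𝓝[K] x, dist x' x < δ / 2 :=
      mem_nhdsWithin_of_mem_nhds (ball_mem_nhds x (by positivity))
    refine ⟨_, h3.and h4, δ / 2, by positivity, fun x' hx' y hy => ?_⟩
    have h5 : dist y x < δ := by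
      have := dist_triangle y x' x
      have : dist y x' < δ / 2 := hy
      linarith [hx'.2]
    have := tr_le hu.1.2.1 (h2 h5).le (m := m) (by linarith [hm x hx])
    linarith [hx'.1]

lemma inLelong_coe {v : E → ℝ} (hv : Continuous v) (hs : SubMean v) {C : ℝ}
    (hC : ∀ z, v z ≤ Real.log (1 + ‖z‖) + C) : InLelong fun z => (v z : EReal) := by
  refine ⟨⟨(continuous_coe_real_ereal.comp hv).upperSemicontinuous, fun z => EReal.coe_ne_top _,
    ⟨0, EReal.coe_ne_bot _⟩, fun a b c => EReal.coe_le_coe_iff.2 ((hs a b).trans ?_)⟩,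
    Real.log 2 + C, 1, fun z hz => EReal.coe_le_coe_iff.2 ((hC z).trans ?_)⟩
  · have e : ∀ x : ℝ, (max (x : EReal) c).toReal = max x c := fun x => by
      rw [← EReal.coe_strictMono.monotone.map_max, EReal.toReal_coe]
    simp only [e]
    exact Real.circleAverage_mono ((LB.of_continuous hv).circleIntegrable a b)
      ((LB.of_continuous (hv.max continuous_const)).circleIntegrable a b) fun w _ => le_max_left _ _
  · rw [← add_assoc, ← Real.log_mul (by positivity) two_ne_zero]
    gcongr; linarith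

end Pool.Agent.Lib.MP_29d677_an
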