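import Pool.Agent.Lib.MP_29d677_an.Cut

/-!
The a priori estimate for weak solutions (Friedrichs mollification).
-/

namespace Pool.Agent.Lib.MP_29d677_an

open MeasureTheory Filter Topology Complex Metric
open scoped ContDiff ComplexConjugate

/-- The complexified kernel of a mollifier. -/
noncomputable def ker (ρ : ContDiffBump (0 : E)) (x : E) : E → ℂ :=
  fun t => (ρ.normed volume (x - t) : ℝ)

lemma test_ker (ρ : ContDiffBump (0 : E)) (x : E) : Test (ker ρ x) := (test_kernel ρ x).ofReal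

lemma moll_ker (ρ : ContDiffBump (0 : E)) (a : E → ℂ) (x : E) :
    moll ρ a x = ∫ t, a t * ker ρ x t := by
  rw [moll_eq]; congr 1; funext t; simp [ker, mul_comm]

lemma D_moll_ker (ρ : ContDiffBump (0 : E)) {a : E → ℂ} (ha : LocallyIntegrable a) (v x : E) :
    D v (moll ρ a) x = -∫ t, a t * D v (ker ρ x) t := by
  rw [D_moll ρ ha, ← integral_neg]
  congr 1; funext t
  unfold ker
  rw [D_ofReal (test_kernel ρ x).sm, D_kernel]
  simp [mul_comm]

lemma Test.int_mul {a ζ : E → ℂ} (hζ : Test ζ) (ha : LocallyIntegrable a) :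
    Integrable (fun z => a z * ζ z) := integrable_mul_test ha hζ.sm.continuous hζ.cs

lemma iadd {F : Type*} [NormedAddCommGroup F] {f g : E → F} (hf : Integrable f)
    (hg : Integrable g) : Integrable fun x => f x + g x := hf.add hg

lemma madd {F : Type*} [NormedAddCommGroup F] {f g : E → F} (hf : MemLp f 2 volume)
    (hg : MemLp g 2 volume) : MemLp (fun x => f x + g x) 2 volume := hf.add hg

lemma db_moll (ρ : ContDiffBump (0 : E)) {a : E → ℂ} (ha : LocallyIntegrable a) (j : Fin 2)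
    (x : E) : db j (moll ρ a) x = -∫ t, a t * db j (ker ρ x) t := by
  simp only [db, D_moll_ker ρ ha, mul_add]
  rw [integral_add (((test_ker ρ x).D _).int_mul ha)
    ((((test_ker ρ x).D _).mul_left contDiff_const).int_mul ha)]
  simp_rw [mul_left_comm _ I, integral_const_mul]
  ring

lemma dd_moll (ρ : ContDiffBump (0 : E)) {a : E → ℂ} (ha : LocallyIntegrable a) (j : Fin 2)
    (x : E) : dd j (moll ρ a) x = -∫ t, a t * dd j (ker ρ x) t := by
  simp only [dd, D_moll_ker ρ ha, mul_sub]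
  rw [integral_sub (((test_ker ρ x).D _).int_mul ha)
    ((((test_ker ρ x).D _).mul_left contDiff_const).int_mul ha)]
  simp_rw [mul_left_comm _ I, integral_const_mul]
  ring

/-- Square integrable functions supported in a fixed ball. -/
structure Good (M : ℝ) (g : E → ℂ) : Prop where
  l2 : MemLp g 2 volume
  supp : ∀ x, M < ‖x‖ → g x = 0

lemma Good.li {M : ℝ} {g : E → ℂ} (hg : Good M g) : LocallyIntegrable g :=
  hg.l2.locallyIntegrable (by norm_num)

lemma Good.cs {M : ℝ} {g : E → ℂ} (hg : Good M g) : HasCompactSupport g :=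
  HasCompactSupport.intro (isCompact_closedBall 0 M) fun x hx => hg.supp x (by simpa using hx)

lemma Good.add {M : ℝ} {f g : E → ℂ} (hf : Good M f) (hg : Good M g) :
    Good M fun x => f x + g x :=
  ⟨hf.l2.add hg.l2, fun x hx => by simp [hf.supp x hx, hg.supp x hx]⟩

lemma Good.sub {M : ℝ} {f g : E → ℂ} (hf : Good M f) (hg : Good M g) :
    Good M fun x => f x - g x :=
  ⟨hf.l2.sub hg.l2, fun x hx => by simp [hf.supp x hx, hg.supp x hx]⟩

lemma exists_mul_bound {θ : E → ℂ} (hθ : Continuous θ) (M : ℝ) : ∃ C, 0 ≤ C ∧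
    ∀ g : E → ℂ, (∀ x, M < ‖x‖ → g x = 0) → ∀ x, ‖g x * θ x‖ ≤ C * ‖g x‖ := by
  obtain ⟨C, hC⟩ := (isCompact_closedBall (0 : E) M).exists_bound_of_continuousOn hθ.continuousOn
  refine ⟨|C|, abs_nonneg _, fun g hg x => ?_⟩
  by_cases hx : M < ‖x‖
  · simp [hg x hx]
  · rw [norm_mul, mul_comm]
    exact mul_le_mul_of_nonneg_right ((hC x (by simpa using hx)).trans (le_abs_self _))
      (norm_nonneg _)

lemma Good.mul {M : ℝ} {g θ : E → ℂ} (hg : Good M g) (hθ : Continuous θ) :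
    Good M fun x => g x * θ x := by
  obtain ⟨C, -, hC⟩ := exists_mul_bound hθ M
  exact ⟨memLp_of_le_mul hg.l2 (hg.l2.1.mul hθ.aestronglyMeasurable)
    (Eventually.of_forall (hC g hg.supp)), fun x hx => by simp [hg.supp x hx]⟩

lemma good_of_l2 {M : ℝ} {A θ : E → ℂ} (hA : MemLp A 2 volume) (hθ : Continuous θ)
    (h0 : ∀ x, M < ‖x‖ → θ x = 0) : Good M fun x => A x * θ x := by
  obtain ⟨C, hC⟩ := hθ.bounded_above_of_compact_support
    (HasCompactSupport.intro (isCompact_closedBall 0 M) fun x hx => h0 x (by simpa using hx))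
  refine ⟨memLp_of_le_mul (C := C) hA (hA.1.mul hθ.aestronglyMeasurable)
    (Eventually.of_forall fun x => ?_), fun x hx => by simp [h0 x hx]⟩
  rw [norm_mul, mul_comm]
  exact mul_le_mul_of_nonneg_right (hC x) (norm_nonneg _)

lemma Good.moll {M : ℝ} {g : E → ℂ} (hg : Good M g) (k : ℕ) : Good (M + 1) (moll (bs k) g) := by
  refine ⟨memLp_moll _ hg.l2, fun x hx => moll_eq_zero _ fun t ht => hg.supp t ?_⟩
  have h1 : dist t x < 1 := lt_of_lt_of_le ht (bs_rOut_le k)
  have h2 := norm_sub_norm_le x t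
  rw [← dist_eq_norm, dist_comm] at h2
  linarith

lemma Good.mono {M M' : ℝ} {g : E → ℂ} (hg : Good M g) (h : M ≤ M') : Good M' g :=
  ⟨hg.l2, fun x hx => hg.supp x (h.trans_lt hx)⟩

lemma Good.diff {M : ℝ} {g : E → ℂ} (hg : Good M g) (k : ℕ) :
    Good (M + 1) fun x => MP_29d677_an.moll (bs k) g x - g x :=
  (hg.moll k).sub (hg.mono (by linarith))

lemma Good.tendsto {M : ℝ} {g θ : E → ℂ} (hg : Good M g) (hθ : Continuous θ) :
    Tendsto (fun k => n2 fun x => (MP_29d677_an.moll (bs k) g x - g x) * θ x) atTop (𝓝 0) := by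
  obtain ⟨C, hC0, hC⟩ := exists_mul_bound hθ (M + 1)
  have h := (tendsto_n2_moll hg.l2).const_mul C
  rw [mul_zero] at h
  exact squeeze_zero (fun _ => n2_nonneg _) (fun k => n2_le_mul hC0 (hg.diff k).l2
    (Eventually.of_forall (hC _ (hg.diff k).supp))) h

variable {φ : E → ℝ}

lemma integrable_levi (hφ : ContDiff ℝ ∞ φ) {a b : E → ℂ} (ha : Test a) (hb : Test b) :
    Integrable fun z => Lev φ z ![a z, b z] * Real.exp (-φ z) := by
  have hc := contDiff_ofReal hφ
  have t : ∀ (j k : Fin 2) {c : E → ℂ}, Test c →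
      Test fun z => db k (dd j fun x => (φ x : ℂ)) z * c z :=
    fun j k c hc' => hc'.mul_left (by fun_prop)
  have i := ((((ip_int hφ (t 0 0 ha) ha).add (ip_int hφ (t 0 1 ha) hb)).add
    (ip_int hφ (t 1 0 hb) ha)).add (ip_int hφ (t 1 1 hb) hb)).re
  refine i.congr (Eventually.of_forall fun z => ?_)
  have := levi_eq hφ z ![a z, b z]
  simp only [Matrix.cons_val_zero, Matrix.cons_val_one] at this
  simp only [Pi.add_apply, ← add_mul, this, ww, RCLike.re_to_complex, ← Complex.ofReal_mul,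
    Complex.ofReal_re]

/-- The estimate for test forms. -/
lemma est_test (hφ : ContDiff ℝ ∞ φ) {lam : ℝ} (hlam : 0 < lam) {f0 f1 : E → ℂ} (hf0 : Test f0)
    (hf1 : Test f1) (hpos : ∀ z ξ, 0 ≤ Lev φ z ξ)
    (hst : ∀ z, (f0 z ≠ 0 ∨ f1 z ≠ 0) → ∀ ξ : E, lam * (‖ξ 0‖ ^ 2 + ‖ξ 1‖ ^ 2) ≤ Lev φ z ξ)
    {a b : E → ℂ} (ha : Test a) (hb : Test b) :
    ‖ip φ a f0 + ip φ b f1‖ ≤ (n2 (fun z => (dl φ 0 a z + dl φ 1 b z) * om φ z) ^ 2
        + n2 (fun z => (db 1 a z - db 0 b z) * om φ z) ^ 2) / 2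
      + (n2 (fun z => f0 z * om φ z) ^ 2 + n2 (fun z => f1 z * om φ z) ^ 2) / (2 * lam) := by
  have h1 := basic_ineq hφ ha hb
  have i0 := integrable_sq (memLp_om hφ hf0)
  have i1 := integrable_sq (memLp_om hφ hf1)
  have iL := integrable_levi hφ ha hb
  have i01 : Integrable fun z => ‖f0 z * om φ z‖ ^ 2 + ‖f1 z * om φ z‖ ^ 2 := i0.add i1
  unfold ip
  rw [← integral_add (ip_int hφ ha hf0) (ip_int hφ hb hf1), n2_sq (memLp_om hφ hf0),
    n2_sq (memLp_om hφ hf1), ← integral_add i0 i1]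
  refine le_trans (norm_integral_le_of_norm_le (g := fun z => Lev φ z ![a z, b z] * Real.exp (-φ z)
    / 2 + (‖f0 z * om φ z‖ ^ 2 + ‖f1 z * om φ z‖ ^ 2) / (2 * lam))
    ((iL.div_const 2).add (i01.div_const _)) (Eventually.of_forall fun z => ?_)) ?_
  · have hw := Real.exp_pos (-φ z)
    by_cases hz : f0 z ≠ 0 ∨ f1 z ≠ 0
    · have h2 := hst z hz ![a z, b z]
      simp only [Matrix.cons_val_zero, Matrix.cons_val_one] at h2
      rw [← add_mul, norm_mul, norm_mul, norm_mul, mul_pow, mul_pow, norm_om_sq, ww,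
        Complex.norm_real, Real.norm_of_nonneg hw.le]
      have h3 : ‖a z * conj (f0 z) + b z * conj (f1 z)‖ ≤ ‖a z‖ * ‖f0 z‖ + ‖b z‖ * ‖f1 z‖ := by
        refine (norm_add_le _ _).trans (le_of_eq ?_); simp
      have h4 : ‖a z‖ * ‖f0 z‖ + ‖b z‖ * ‖f1 z‖ ≤ Lev φ z ![a z, b z] / 2
          + (‖f0 z‖ ^ 2 + ‖f1 z‖ ^ 2) / (2 * lam) := by
        have : ‖a z‖ * ‖f0 z‖ + ‖b z‖ * ‖f1 z‖ ≤ lam * (‖a z‖ ^ 2 + ‖b z‖ ^ 2) / 2
            + (‖f0 z‖ ^ 2 + ‖f1 z‖ ^ 2) / (2 * lam) := by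
          rw [div_add_div _ _ (by norm_num) (by positivity), le_div_iff₀ (by positivity)]
          nlinarith [sq_nonneg (lam * ‖a z‖ - ‖f0 z‖), sq_nonneg (lam * ‖b z‖ - ‖f1 z‖)]
        linarith
      calc _ ≤ (Lev φ z ![a z, b z] / 2 + (‖f0 z‖ ^ 2 + ‖f1 z‖ ^ 2) / (2 * lam))
            * Real.exp (-φ z) := mul_le_mul_of_nonneg_right (h3.trans h4) hw.le
        _ = _ := by ring
    · push Not at hz
      have := hpos z ![a z, b z]
      simp only [hz.1, hz.2, map_zero, mul_zero, zero_mul, add_zero, norm_zero]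
      positivity
  · rw [integral_add (iL.div_const 2) (i01.div_const _), integral_div, integral_div]
    gcongr

lemma li_of_om (hφ : ContDiff ℝ ∞ φ) {a : E → ℂ} (ha : MemLp (fun z => a z * om φ z) 2 volume) :
    LocallyIntegrable a := by
  have h := (ha.locallyIntegrable (by norm_num)).mul_continuous
    ((contDiff_om hφ).continuous.inv₀ om_ne_zero)
  simpa [om_ne_zero] using h

lemma good_of_om (hφ : ContDiff ℝ ∞ φ) {a θ : E → ℂ}
    (ha : MemLp (fun z => a z * om φ z) 2 volume) (hθ : Continuous θ) {M : ℝ}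
    (h0 : ∀ x, M < ‖x‖ → θ x = 0) : Good M fun x => a x * θ x := by
  have h := good_of_l2 (M := M) ha (((contDiff_om hφ).continuous.inv₀ om_ne_zero).mul hθ)
    (fun x hx => by simp [h0 x hx])
  have e : (fun x => a x * θ x) = fun x => a x * om φ x * ((om φ x)⁻¹ * θ x) := by
    funext x; have := om_ne_zero (φ := φ) x; field_simp
  rw [e]; exact h

lemma est_cut (hφ : ContDiff ℝ ∞ φ) {lam : ℝ} (hlam : 0 < lam) {f0 f1 : E → ℂ} (hf0 : Test f0)
    (hf1 : Test f1) (hpos : ∀ z ξ, 0 ≤ Lev φ z ξ)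
    (hst : ∀ z, (f0 z ≠ 0 ∨ f1 z ≠ 0) → ∀ ξ : E, lam * (‖ξ 0‖ ^ 2 + ‖ξ 1‖ ^ 2) ≤ Lev φ z ξ)
    {a0 a1 h : E → ℂ} (ha0 : MemLp (fun z => a0 z * om φ z) 2 volume)
    (ha1 : MemLp (fun z => a1 z * om φ z) 2 volume) (hh : Test h)
    (hS : ∀ ζ, Test ζ → ∫ z, a0 z * db 1 ζ z = ∫ z, a1 z * db 0 ζ z)
    (hT : ∀ ζ, Test ζ → (∫ z, a0 z * (dd 0 ζ z + dd 0 (fun x => (φ x : ℂ)) z * ζ z))
      + ∫ z, a1 z * (dd 1 ζ z + dd 1 (fun x => (φ x : ℂ)) z * ζ z) = -∫ z, h z * ζ z)
    {c : E → ℂ} (hc : Test c) {M : ℝ} (hcM : ∀ x, M < ‖x‖ → c x = 0)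
    (hcM' : ∀ x j, M < ‖x‖ → db j c x = 0 ∧ dd j c x = 0) :
    ‖ip φ (fun z => a0 z * c z) f0 + ip φ (fun z => a1 z * c z) f1‖
      ≤ (n2 (fun z => (h z * c z + (a0 z * dd 0 c z + a1 z * dd 1 c z)) * om φ z) ^ 2
        + n2 (fun z => (a0 z * db 1 c z - a1 z * db 0 c z) * om φ z) ^ 2) / 2
      + (n2 (fun z => f0 z * om φ z) ^ 2 + n2 (fun z => f1 z * om φ z) ^ 2) / (2 * lam) := by
  have hφc := contDiff_ofReal hφ
  have l0 := li_of_om hφ ha0
  have l1 := li_of_om hφ ha1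
  have ho := (contDiff_om hφ).continuous
  set p0 := dd 0 (fun x => (φ x : ℂ)) with hp0
  set p1 := dd 1 (fun x => (φ x : ℂ)) with hp1
  have sp0 : ContDiff ℝ ∞ p0 := contDiff_dd hφc 0
  have sp1 : ContDiff ℝ ∞ p1 := contDiff_dd hφc 1
  have gb0 : Good M fun x => a0 x * c x := good_of_om hφ ha0 hc.sm.continuous hcM
  have gb1 : Good M fun x => a1 x * c x := good_of_om hφ ha1 hc.sm.continuous hcM
  have gs : Good M fun x => a0 x * db 1 c x - a1 x * db 0 c x :=
    (good_of_om hφ ha0 (hc.db 1).sm.continuous fun x hx => (hcM' x 1 hx).1).sub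
      (good_of_om hφ ha1 (hc.db 0).sm.continuous fun x hx => (hcM' x 0 hx).1)
  have gr : Good M fun x => h x * c x + (a0 x * dd 0 c x + a1 x * dd 1 c x) :=
    (good_of_l2 (hh.memLp 2) hc.sm.continuous hcM).add
      ((good_of_om hφ ha0 (hc.dd 0).sm.continuous fun x hx => (hcM' x 0 hx).2).add
      (good_of_om hφ ha1 (hc.dd 1).sm.continuous fun x hx => (hcM' x 1 hx).2))
  have gt : Good M fun x => h x * c x + (a0 x * dd 0 c x + a1 x * dd 1 c x)
      + (a0 x * c x * p0 x + a1 x * c x * p1 x) :=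
    gr.add ((gb0.mul sp0.continuous).add (gb1.mul sp1.continuous))
  set b0 := fun x => a0 x * c x with hb0
  set b1 := fun x => a1 x * c x with hb1
  set s := fun x => a0 x * db 1 c x - a1 x * db 0 c x with hs
  set r := fun x => h x * c x + (a0 x * dd 0 c x + a1 x * dd 1 c x) with hr
  set t := fun x => h x * c x + (a0 x * dd 0 c x + a1 x * dd 1 c x)
      + (a0 x * c x * p0 x + a1 x * c x * p1 x) with ht
  have tb0 : ∀ k, Test (moll (bs k) b0) := fun k => ⟨contDiff_moll _ gb0.li, moll_cs _ gb0.cs⟩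
  have tb1 : ∀ k, Test (moll (bs k) b1) := fun k => ⟨contDiff_moll _ gb1.li, moll_cs _ gb1.cs⟩
  have eS : ∀ k x, db 1 (moll (bs k) b0) x - db 0 (moll (bs k) b1) x = moll (bs k) s x := by
    intro k x
    have hK := test_ker (bs k) x
    have h1 := hS _ (hK.mul_left hc.sm)
    simp_rw [db_mul hc.sm hK.sm, mul_add] at h1
    rw [integral_add ((hK.mul_left (hc.db 1).sm).int_mul l0) (((hK.db 1).mul_left hc.sm).int_mul l0),
      integral_add ((hK.mul_left (hc.db 0).sm).int_mul l1)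
        (((hK.db 0).mul_left hc.sm).int_mul l1)] at h1
    rw [db_moll _ gb0.li, db_moll _ gb1.li, moll_ker]
    simp_rw [hs, hb0, hb1, sub_mul, mul_assoc]
    rw [integral_sub ((hK.mul_left (hc.db 1).sm).int_mul l0)
      ((hK.mul_left (hc.db 0).sm).int_mul l1)]
    linear_combination -h1
  have eT : ∀ k x, dd 0 (moll (bs k) b0) x + dd 1 (moll (bs k) b1) x = moll (bs k) t x := by
    intro k x
    have hK := test_ker (bs k) x
    have h1 := hT _ (hK.mul_left hc.sm)
    have j1 := (hK.mul_left (hc.dd 0).sm).int_mul l0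
    have j2 := ((hK.dd 0).mul_left hc.sm).int_mul l0
    have j3 := ((hK.mul_left hc.sm).mul_left sp0).int_mul l0
    have j4 := (hK.mul_left (hc.dd 1).sm).int_mul l1
    have j5 := ((hK.dd 1).mul_left hc.sm).int_mul l1
    have j6 := ((hK.mul_left hc.sm).mul_left sp1).int_mul l1
    have j7 := (hK.mul_left hc.sm).int_mul hh.integrable.locallyIntegrable
    simp_rw [dd_mul hc.sm hK.sm, mul_add] at h1
    rw [integral_add (iadd j1 j2) j3, integral_add j1 j2, integral_add (iadd j4 j5) j6,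
      integral_add j4 j5] at h1
    rw [dd_moll _ gb0.li, dd_moll _ gb1.li, moll_ker]
    have e : (fun y => t y * ker (bs k) x y) = fun y => h y * (c y * ker (bs k) x y)
        + (a0 y * (dd 0 c y * ker (bs k) x y) + a1 y * (dd 1 c y * ker (bs k) x y))
        + (a0 y * (p0 y * (c y * ker (bs k) x y)) + a1 y * (p1 y * (c y * ker (bs k) x y))) := by
      funext y; simp only [ht]; ring
    rw [e, integral_add (iadd j7 (iadd j1 j4)) (iadd j3 j6), integral_add j7 (iadd j1 j4),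
      integral_add j1 j4, integral_add j3 j6]
    simp_rw [hb0, hb1, mul_assoc]
    linear_combination -h1
  have hip : ∀ {b f : E → ℂ}, Good M b → Test f →
      Tendsto (fun k => ip φ (moll (bs k) b) f) atTop (𝓝 (ip φ b f)) := by
    intro b f gb hf
    have tf : Test fun z => conj (f z) * ww φ z := hf.conj.mul_right (contDiff_ww hφ)
    rw [tendsto_iff_norm_sub_tendsto_zero]
    have h := (tendsto_n2_moll gb.l2).mul_const (n2 fun z => conj (f z) * ww φ z)
    rw [zero_mul] at h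
    refine squeeze_zero (fun _ => norm_nonneg _) (fun k => ?_) h
    refine le_trans (le_of_eq ?_) (n2_inner (gb.diff k).l2 (tf.memLp 2))
    simp_rw [ip, mul_assoc, sub_mul]
    rw [integral_sub (tf.int_mul (gb.moll k).li) (tf.int_mul gb.li)]
  have l1 := ((hip gb0 hf0).add (hip gb1 hf1)).norm
  have l2 := ((((gt.tendsto ho).add ((gb0.tendsto (sp0.continuous.neg.mul ho)).add
    (gb1.tendsto (sp1.continuous.neg.mul ho)))).const_add (n2 fun z => r z * om φ z)).pow 2)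
  have l3 := ((gs.tendsto ho).const_add (n2 fun z => s z * om φ z)).pow 2
  have l4 := ((l2.add l3).div_const 2).add_const
    ((n2 (fun z => f0 z * om φ z) ^ 2 + n2 (fun z => f1 z * om φ z) ^ 2) / (2 * lam))
  simp only [add_zero] at l4
  refine le_of_tendsto_of_tendsto' l1 l4 fun k => ?_
  refine (est_test hφ hlam hf0 hf1 hpos hst (tb0 k) (tb1 k)).trans ?_
  gcongr
  · exact n2_nonneg _
  · have m1 := ((gt.diff k).mul ho).l2
    have m2 := ((gb0.diff k).mul (sp0.continuous.neg.mul ho)).l2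
    have m3 := ((gb1.diff k).mul (sp1.continuous.neg.mul ho)).l2
    refine le_trans (le_of_eq ?_) ((n2_add_le (gr.mul ho).l2 (madd m1 (madd m2 m3))).trans
      (add_le_add_right ((n2_add_le m1 (madd m2 m3)).trans
        (add_le_add_right (n2_add_le m2 m3) _)) _))
    congr 1; funext x
    have := eT k x
    simp only [dl, Pi.mul_apply, Pi.neg_apply, ← hp0, ← hp1, hr, ht, hb0, hb1] at this ⊢
    linear_combination om φ x * this
  · exact n2_nonneg _
  · refine le_trans (le_of_eq ?_) (n2_add_le (gs.mul ho).l2 ((gs.diff k).mul ho).l2)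
    congr 1; funext x
    rw [eS k x]; ring

lemma Test.exists_radius {F : Type*} [NormedAddCommGroup F] [NormedSpace ℝ F] {f : E → F}
    (hf : Test f) : ∃ M, 0 < M ∧ ∀ x, M < ‖x‖ → f x = 0 := by
  obtain ⟨M, hM⟩ := hf.cs.isBounded.subset_closedBall (0 : E)
  refine ⟨|M| + 1, by positivity, fun x hx => image_eq_zero_of_notMem_tsupport fun h => ?_⟩
  have := hM h
  simp only [mem_closedBall, dist_zero_right] at this
  linarith [le_abs_self M]

/-- The a priori estimate for weak solutions. -/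
lemma est_weak (hφ : ContDiff ℝ ∞ φ) {lam : ℝ} (hlam : 0 < lam) {f0 f1 : E → ℂ} (hf0 : Test f0)
    (hf1 : Test f1) (hpos : ∀ z ξ, 0 ≤ Lev φ z ξ)
    (hst : ∀ z, (f0 z ≠ 0 ∨ f1 z ≠ 0) → ∀ ξ : E, lam * (‖ξ 0‖ ^ 2 + ‖ξ 1‖ ^ 2) ≤ Lev φ z ξ)
    {a0 a1 h : E → ℂ} (ha0 : MemLp (fun z => a0 z * om φ z) 2 volume)
    (ha1 : MemLp (fun z => a1 z * om φ z) 2 volume) (hh : Test h)
    (hS : ∀ ζ, Test ζ → ∫ z, a0 z * db 1 ζ z = ∫ z, a1 z * db 0 ζ z)
    (hT : ∀ ζ, Test ζ → (∫ z, a0 z * (dd 0 ζ z + dd 0 (fun x => (φ x : ℂ)) z * ζ z))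
      + ∫ z, a1 z * (dd 1 ζ z + dd 1 (fun x => (φ x : ℂ)) z * ζ z) = -∫ z, h z * ζ z) :
    ‖ip φ a0 f0 + ip φ a1 f1‖ ≤ n2 (fun z => h z * om φ z) ^ 2 / 2
      + (n2 (fun z => f0 z * om φ z) ^ 2 + n2 (fun z => f1 z * om φ z) ^ 2) / (2 * lam) := by
  obtain ⟨C, hC0, hC⟩ := exists_db_cut_bound
  obtain ⟨M0, hM0, h0⟩ := hf0.exists_radius
  obtain ⟨M1, hM1, h1⟩ := hf1.exists_radius
  set A := n2 (fun z => a0 z * om φ z) + n2 (fun z => a1 z * om φ z) with hA
  have hCR : Tendsto (fun R : ℝ => C / R * A) atTop (𝓝 0) := by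
    simpa using (tendsto_const_nhds (x := C).div_atTop tendsto_id).mul_const A
  have l := ((((hCR.const_add (n2 fun z => h z * om φ z)).pow 2).add (hCR.pow 2)).div_const 2).add_const
    ((n2 (fun z => f0 z * om φ z) ^ 2 + n2 (fun z => f1 z * om φ z) ^ 2) / (2 * lam))
  simp only [add_zero, ne_eq, OfNat.ofNat_ne_zero, not_false_eq_true, zero_pow] at l
  refine ge_of_tendsto l ?_
  filter_upwards [eventually_ge_atTop M0, eventually_ge_atTop M1] with R hR0 hR1
  have hR : 0 < R := hM0.trans_le hR0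
  have hc : Test fun x => (cut R 0 x : ℂ) := (test_cut hR 0).ofReal
  have key := est_cut hφ hlam hf0 hf1 hpos hst ha0 ha1 hh hS hT hc (M := 2 * R)
    (fun x hx => by simp [cut_eq_zero hR (c := 0) (z := x) (by simpa using hx.le)])
    (fun x j hx => by
      simp [db, dd, D_ofReal (contDiff_cut R 0),
        D_cut_eq_zero_far hR (c := 0) (z := x) (by simpa using hx)])
  have e : ∀ {a f : E → ℂ} {M : ℝ}, M ≤ R → (∀ x, M < ‖x‖ → f x = 0) →
      ip φ (fun z => a z * (cut R 0 z : ℂ)) f = ip φ a f := by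
    intro a f M hM hf
    unfold ip
    congr 1; funext z
    by_cases hz : M < ‖z‖
    · simp [hf z hz]
    · simp [cut_eq_one hR (c := 0) (z := z) (by simpa using (not_lt.1 hz).trans hM)]
  rw [e hR0 h0, e hR1 h1] at key
  refine key.trans ?_
  have b : ∀ {a θ : E → ℂ}, MemLp (fun z => a z * om φ z) 2 volume → Continuous θ →
      ∀ {c : ℝ}, 0 ≤ c → (∀ z, ‖θ z‖ ≤ c) →
      MemLp (fun z => a z * om φ z * θ z) 2 volume ∧
        n2 (fun z => a z * om φ z * θ z) ≤ c * n2 (fun z => a z * om φ z) := by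
    intro a θ ha hθ c hc0 hθc
    have : ∀ᵐ z, ‖a z * om φ z * θ z‖ ≤ c * ‖a z * om φ z‖ := Eventually.of_forall fun z => by
      rw [norm_mul, mul_comm]; exact mul_le_mul_of_nonneg_right (hθc z) (norm_nonneg _)
    exact ⟨memLp_of_le_mul ha (ha.1.mul hθ.aestronglyMeasurable) this, n2_le_mul hc0 ha this⟩
  have hCR0 : 0 ≤ C / R := by positivity
  obtain ⟨m1, n1⟩ := b (memLp_om hφ hh) hc.sm.continuous zero_le_one fun z => by
    rw [Complex.norm_real, Real.norm_of_nonneg (cut_nonneg _ _ _)]; exact cut_le_one _ _ _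
  obtain ⟨m2, n2'⟩ := b ha0 (hc.dd 0).sm.continuous hCR0 fun z => (hC R 0 z 0 hR).2
  obtain ⟨m3, n3⟩ := b ha1 (hc.dd 1).sm.continuous hCR0 fun z => (hC R 0 z 1 hR).2
  obtain ⟨m4, n4⟩ := b ha0 (hc.db 1).sm.continuous hCR0 fun z => (hC R 0 z 1 hR).1
  obtain ⟨m5, n5⟩ := b ha1 (hc.db 0).neg.sm.continuous hCR0 fun z => by
    rw [norm_neg]; exact (hC R 0 z 0 hR).1
  gcongr
  · exact n2_nonneg _
  · refine le_trans (le_of_eq ?_) ((n2_add_le m1 (madd m2 m3)).trans
      (add_le_add n1 ((n2_add_le m2 m3).trans (add_le_add n2' n3))) |>.trans (le_of_eq ?_))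
    · congr 1; funext z; ring
    · rw [hA]; ring
  · exact n2_nonneg _
  · refine le_trans (le_of_eq ?_) ((n2_add_le m4 m5).trans (add_le_add n4 n5) |>.trans
      (le_of_eq ?_))
    · congr 1; funext z; ring
    · rw [hA]; ring

end Pool.Agent.Lib.MP_29d677_an
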